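import Pool.Agent.TH899.UG.R2g

/-! Project GS: the auxiliary number. -/

set_option autoImplicit false

namespace Pool.Agent.Y827.GS

open Finset
open Pool.Agent.TH899.UG (dyadic_primes)

theorem sqf_prod (S : Finset ℕ) (hS : ∀ p ∈ S, p.Prime) : Squarefree (∏ p ∈ S, p) := by
  classical
  induction S using Finset.induction_on with
  | empty => simp
  | insert a s ha ih =>
    rw [Finset.prod_insert ha]
    refine (Nat.squarefree_mul ?_).2 ⟨(hS a (mem_insert_self _ _)).prime.squarefree,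
      ih fun p hp => hS p (mem_insert_of_mem hp)⟩
    refine Nat.Coprime.prod_right fun p hp => ?_
    refine (Nat.coprime_primes (hS a (mem_insert_self _ _)) (hS p (mem_insert_of_mem hp))).2 ?_
    rintro rfl
    exact ha hp

/-- a squarefree odd number coprime to `q`, with small prime factors and of prescribed size -/
theorem exists_lsq (κ e : ℝ) (hκ : 0 < κ) (hκe : κ ≤ e) (he : e ≤ 1 / 4) : ∃ N₀ : ℕ, ∀ X : ℕ,
    N₀ ≤ X → ∀ q : ℕ, 1 ≤ q → q ≤ X → ∃ l : ℕ, 1 ≤ l ∧ Odd l ∧ Squarefree l ∧ Nat.Coprime q l ∧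
      (∀ p : ℕ, p.Prime → p ∣ l → (p : ℝ) ≤ (X : ℝ) ^ κ) ∧ 2 * (X : ℝ) ^ (2 * e) ≤ l ∧
      (l : ℝ) ≤ (X : ℝ) ^ (4 * e) := by
  classical
  have he0 : 0 < e := hκ.trans_le hκe
  -- `T` with `2 ^ (T + 1) ≤ X ^ κ` and `X ^ 2 < 2 ^ (T (T + 1) / 2)`
  have h1 : ∀ᶠ x : ℝ in Filter.atTop, 2 * x + 1 < (κ * x - 2) * (κ * x - 2) / 2 := by
    have h2 : Filter.Tendsto (fun x : ℝ => κ ^ 2 / 4 * x) Filter.atTop Filter.atTop :=
      Filter.tendsto_id.const_mul_atTop (by positivity)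
    filter_upwards [h2.eventually_gt_atTop (κ + 3), Filter.eventually_ge_atTop (8 / κ),
      Filter.eventually_ge_atTop (1 : ℝ)] with x h3 h4 h5
    have h6 : 8 ≤ κ * x := by
      rw [div_le_iff₀ hκ] at h4
      linarith
    nlinarith
  have h2 : Filter.Tendsto (fun X : ℕ => Real.logb 2 (X : ℝ)) Filter.atTop Filter.atTop :=
    (Real.tendsto_logb_atTop (by norm_num)).comp tendsto_natCast_atTop_atTop
  have h3 := h2.eventually (h1.and (Filter.eventually_ge_atTop (4 / κ)))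
  have h3' := ((tendsto_rpow_atTop he0).comp tendsto_natCast_atTop_atTop).eventually
    (Filter.eventually_ge_atTop (2 : ℝ))
  obtain ⟨N₀, hN₀⟩ := Filter.eventually_atTop.1 ((h3.and (Filter.eventually_ge_atTop 4)).and h3')
  refine ⟨N₀, fun X hX q hq hqX => ?_⟩
  obtain ⟨⟨⟨h4, h5⟩, h6⟩, h6'⟩ := hN₀ X hX
  simp only [Function.comp] at h6'
  set x := Real.logb 2 (X : ℝ) with hx
  have hXpos : (0 : ℝ) < X := by exact_mod_cast (by omega : 0 < X)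
  have hX4 : (4 : ℝ) ≤ X := by exact_mod_cast h6
  have hX1 : (1 : ℝ) ≤ X := by linarith
  have hx2 : (2 : ℝ) ^ x = X := Real.rpow_logb (by norm_num) (by norm_num) hXpos
  have hκx : 4 ≤ κ * x := by
    rw [div_le_iff₀ hκ] at h5
    linarith
  set T : ℕ := ⌊κ * x - 1⌋₊ with hT
  have hT1 : (T : ℝ) ≤ κ * x - 1 := Nat.floor_le (by linarith)
  have hT2 : κ * x - 1 < T + 1 := Nat.lt_floor_add_one _
  set Ps : Finset ℕ := (Icc 3 (2 ^ (T + 1))).filter (fun p => p.Prime ∧ ¬ p ∣ q) with hPs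
  have hpr : ∀ p ∈ Ps, p.Prime := fun p hp => (mem_filter.1 hp).2.1
  have hp3 : ∀ p ∈ Ps, 3 ≤ p := fun p hp => (mem_Icc.1 (mem_filter.1 hp).1).1
  have hpq : ∀ p ∈ Ps, ¬ p ∣ q := fun p hp => (mem_filter.1 hp).2.2
  have hpX : ∀ p ∈ Ps, (p : ℝ) ≤ (X : ℝ) ^ κ := by
    intro p hp
    have hpT := (mem_Icc.1 (mem_filter.1 hp).1).2
    calc (p : ℝ) ≤ (2 : ℝ) ^ (T + 1) := by exact_mod_cast hpT
      _ = (2 : ℝ) ^ ((T : ℝ) + 1) := by rw [← Real.rpow_natCast]; push_cast; rfl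
      _ ≤ (2 : ℝ) ^ (κ * x) := Real.rpow_le_rpow_of_exponent_le (by norm_num) (by linarith)
      _ = (X : ℝ) ^ κ := by
          rw [← hx2, ← Real.rpow_mul (by norm_num), mul_comm]
  -- the full product is large
  have hfull0 : 0 < ∏ p ∈ Ps, p := Finset.prod_pos fun p hp => (hpr p hp).pos
  have h7 : ∀ p : ℕ, p.Prime → 3 ≤ p → p ≤ 2 ^ (T + 1) → p ∣ q * ∏ p ∈ Ps, p := by
    intro p hp hp3 hpT
    by_cases hpq : p ∣ q
    · exact hpq.mul_right _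
    · refine Dvd.dvd.mul_left ?_ _
      exact Finset.dvd_prod_of_mem _ (mem_filter.2 ⟨mem_Icc.2 ⟨hp3, hpT⟩, hp, hpq⟩)
  have h8 := dyadic_primes (q * ∏ p ∈ Ps, p) (Nat.mul_pos hq hfull0) T h7
  have h9 : (∑ i ∈ Icc 1 T, i) * 2 = T * (T + 1) := by
    clear * -
    induction T with
    | zero => simp
    | succ n ih =>
      rw [Finset.sum_Icc_succ_top (by omega), add_mul, ih]
      ring
  have h10 : ((∑ i ∈ Icc 1 T, i : ℕ) : ℝ) * 2 = T * (T + 1) := by exact_mod_cast h9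
  have h13 : (κ * x - 2) * (κ * x - 2) ≤ T * (T + 1) := by
    have : κ * x - 2 ≤ T := by linarith
    have h0 : 0 ≤ κ * x - 2 := by linarith
    nlinarith
  have h14 : 2 * x ≤ ((∑ i ∈ Icc 1 T, i : ℕ) : ℝ) := by linarith
  have hfullX : (X : ℝ) ≤ ((∏ p ∈ Ps, p : ℕ) : ℝ) := by
    have h15 : (X : ℝ) * X ≤ X * ((∏ p ∈ Ps, p : ℕ) : ℝ) := by
      calc (X : ℝ) * X = (2 : ℝ) ^ (2 * x) := by
            rw [two_mul, Real.rpow_add (by norm_num), hx2]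
        _ ≤ (2 : ℝ) ^ ((∑ i ∈ Icc 1 T, i : ℕ) : ℝ) :=
            Real.rpow_le_rpow_of_exponent_le (by norm_num) h14
        _ = (2 : ℝ) ^ (∑ i ∈ Icc 1 T, i : ℕ) := Real.rpow_natCast _ _
        _ ≤ (q : ℝ) * ((∏ p ∈ Ps, p : ℕ) : ℝ) := by exact_mod_cast h8
        _ ≤ X * ((∏ p ∈ Ps, p : ℕ) : ℝ) := by
            apply mul_le_mul_of_nonneg_right _ (Nat.cast_nonneg _)
            exact_mod_cast hqX
    exact le_of_mul_le_mul_left h15 hXpos
  obtain ⟨Y, hY⟩ : ∃ Y : ℝ, Y = 2 * (X : ℝ) ^ (2 * e) := ⟨_, rfl⟩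
  have hYX : Y ≤ X := by
    have h16 : (X : ℝ) ^ (2 * e) ≤ (X : ℝ) ^ (1 / 2 : ℝ) :=
      Real.rpow_le_rpow_of_exponent_le hX1 (by linarith)
    have h17 : 2 * (X : ℝ) ^ (1 / 2 : ℝ) ≤ X := by
      rw [← Real.sqrt_eq_rpow]
      have h18 : Real.sqrt X * Real.sqrt X = X := Real.mul_self_sqrt hXpos.le
      have h19 : 2 ≤ Real.sqrt X := by
        rw [Real.le_sqrt (by norm_num) hXpos.le]
        linarith
      nlinarith
    rw [hY]
    linarith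
  have hY1 : 1 < Y := by
    have : (1 : ℝ) ≤ (X : ℝ) ^ (2 * e) := Real.one_le_rpow hX1 (by linarith)
    rw [hY]
    linarith
  -- a minimal subproduct
  obtain ⟨S, hS, hSmin⟩ : ∃ S : Finset ℕ, (S ⊆ Ps ∧ Y ≤ ((∏ p ∈ S, p : ℕ) : ℝ)) ∧
      ∀ S' : Finset ℕ, (S' ⊆ Ps ∧ Y ≤ ((∏ p ∈ S', p : ℕ) : ℝ)) → S.card ≤ S'.card := by
    have hne : ∃ n : ℕ, ∃ S : Finset ℕ, (S ⊆ Ps ∧ Y ≤ ((∏ p ∈ S, p : ℕ) : ℝ)) ∧ S.card = n :=
      ⟨_, Ps, ⟨Finset.Subset.refl _, hYX.trans hfullX⟩, rfl⟩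
    obtain ⟨S, hS1, hS2⟩ := Nat.find_spec hne
    refine ⟨S, hS1, fun S' hS' => ?_⟩
    rw [hS2]
    exact Nat.find_min' hne ⟨S', hS', rfl⟩
  have hSne : S.Nonempty := by
    rw [Finset.nonempty_iff_ne_empty]
    rintro rfl
    have := hS.2
    simp only [Finset.prod_empty, Nat.cast_one] at this
    linarith
  obtain ⟨p, hp⟩ := hSne
  have hlt : ((∏ p ∈ S.erase p, p : ℕ) : ℝ) < Y := by
    by_contra hcon
    push Not at hcon
    have := hSmin (S.erase p) ⟨(Finset.erase_subset _ _).trans hS.1, hcon⟩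
    rw [Finset.card_erase_of_mem hp] at this
    have : 0 < S.card := Finset.card_pos.2 ⟨p, hp⟩
    omega
  have hmul : (∏ p ∈ S, p : ℕ) = p * ∏ p ∈ S.erase p, p := (Finset.mul_prod_erase S _ hp).symm
  have hpr' : ∀ p ∈ S, p.Prime := fun p hp => hpr p (hS.1 hp)
  refine ⟨∏ p ∈ S, p, Finset.prod_pos fun p hp => (hpr' p hp).pos, ?_, sqf_prod S hpr', ?_, ?_,
    by rw [← hY]; exact hS.2, ?_⟩
  · rw [← Nat.coprime_two_right]
    refine Nat.Coprime.prod_left fun p hp => ?_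
    refine (Nat.coprime_primes (hpr' p hp) Nat.prime_two).2 ?_
    have := hp3 p (hS.1 hp)
    omega
  · refine Nat.Coprime.prod_right fun p hp => ?_
    exact ((Nat.Prime.coprime_iff_not_dvd (hpr' p hp)).2 (hpq p (hS.1 hp))).symm
  · intro p' hp' hd
    obtain ⟨p'', hp'', hd'⟩ := (Prime.dvd_finset_prod_iff hp'.prime _).1 hd
    rw [(Nat.prime_dvd_prime_iff_eq hp' (hpr' p'' hp'')).1 hd']
    exact hpX p'' (hS.1 hp'')
  · rw [hmul]
    push_cast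
    have h20 : (p : ℝ) ≤ (X : ℝ) ^ e := (hpX p (hS.1 hp)).trans
      (Real.rpow_le_rpow_of_exponent_le hX1 hκe)
    have h21 : ((∏ p ∈ S.erase p, p : ℕ) : ℝ) = ∏ p ∈ S.erase p, (p : ℝ) := by push_cast; rfl
    rw [← h21]
    calc (p : ℝ) * ((∏ p ∈ S.erase p, p : ℕ) : ℝ) ≤ (X : ℝ) ^ e * Y :=
          mul_le_mul h20 hlt.le (Nat.cast_nonneg _) (by positivity)
      _ = (X : ℝ) ^ e * (2 * (X : ℝ) ^ (2 * e)) := by rw [hY]
      _ ≤ (X : ℝ) ^ e * ((X : ℝ) ^ e * (X : ℝ) ^ (2 * e)) := by gcongr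
      _ = (X : ℝ) ^ (4 * e) := by
          rw [← Real.rpow_add hXpos, ← Real.rpow_add hXpos]
          congr 1
          ring

end Pool.Agent.Y827.GS
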