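import Pool.Agent.Y827.GS.Ttcf
import Pool.Agent.Y827.GS.Axl
import Pool.Agent.Y827.LS.Stm
import Pool.Agent.TH899.UG.Final

/-! Project GS: TTC for arbitrary small moduli `q`. -/

set_option autoImplicit false

namespace Pool.Agent.Y827.GS

open Finset
open Pool.Agent.H442R2
open Pool.Agent.H442R2.KF
open Pool.Agent.H442R2.BX.TaskEX
open Pool.Agent.W23.PL
open Pool.Agent.W347.PL
open Pool.Agent.TH899.UG (cofO_of)

theorem ttclF (hF : St_TTCFl) (hU : Pool.Agent.TH899.UG.St_TTCl) :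
    Pool.Agent.Y827.LS.St_TTClF := by
  intro θ δ hθ0 hθ hδ
  -- the two cases in one
  obtain ⟨ε₁, η, hε₁, hη, hη1, hcase⟩ : ∃ ε₁ η : ℝ, 0 < ε₁ ∧ 0 < η ∧ η ≤ 1 ∧
      ∀ ε : ℝ, 0 < ε → ∃ C : ℝ, 0 < C ∧ ∀ e : ℝ, 0 < e → e ≤ ε₁ →
      ∀ (N q D0 X l : ℕ), 2 ≤ N → 1 ≤ q → 1 ≤ l → Odd l → Squarefree l → Nat.Coprime q l →
      (q : ℝ) ≤ (N : ℝ) ^ e → 2 * (N : ℝ) ^ (2 * e) ≤ l → (l : ℝ) ≤ (N : ℝ) ^ (4 * e) →
      (X : ℝ) ≤ (N : ℝ) ^ θ → 1 ≤ D0 → (X : ℝ) ≤ (N : ℝ) ^ e * D0 →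
      ∀ (b a a' : ℤ), |(b : ℝ)| ≤ q → |(a : ℝ)| ≤ N - (N : ℝ) ^ (1 / 2 : ℝ) →
      |(a' : ℝ)| ≤ N - (N : ℝ) ^ (1 / 2 : ℝ) → a ≠ a' →
      ∀ c c' : ℕ → ℝ, BX.CofO (q * l) c → BX.CofO (q * l) c' → BX.CofR ((N : ℝ) ^ ε) X c →
      BX.CofR ((N : ℝ) ^ ε) X c' → Fc N θ δ c c' →
      |∑ d ∈ Ioc D0 X, ∑ d' ∈ (Ioc D0 X).filter (fun d' => Nat.Coprime d d'), c d * c' d' *
        ∑' n : ℤ, (if (q : ℤ) ∣ n - b then Wt N n else 0) *
          (BX.dl d (n - a) * BX.dl d' (n - a'))| ≤ C * (N : ℝ) ^ (1 - η) := by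
    rcases le_or_gt θ (51 / 100) with h51 | h51
    · obtain ⟨ε₁, η, hε₁, hη, H⟩ := hU θ hθ0 (by linarith)
      refine ⟨ε₁ / 4, min η 1, by positivity, lt_min hη one_pos, min_le_right _ _,
        fun ε hε => ?_⟩
      obtain ⟨C, hC, H⟩ := H ε hε
      refine ⟨C, hC, ?_⟩
      intro e he0 he1 N q D0 X l hN hq hl1 hlo hls hql hqN hlL hlN hX hD0 hXD b a a' hb ha ha'
        haa c c' hc hc' hr hr' _
      have hN1 : (1 : ℝ) ≤ N := by exact_mod_cast (by omega : 1 ≤ N)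
      have hmono : ∀ {s t : ℝ}, s ≤ t → (N : ℝ) ^ s ≤ (N : ℝ) ^ t := fun h =>
        Real.rpow_le_rpow_of_exponent_le hN1 h
      have hl3 : 3 ≤ l := by
        have h1 : (1 : ℝ) ≤ (N : ℝ) ^ (2 * e) := Real.one_le_rpow hN1 (by linarith)
        have h2 : (2 : ℝ) ≤ l := by linarith
        have h3 : 2 ≤ l := by exact_mod_cast h2
        rcases hlo with ⟨t, ht⟩
        omega
      refine (H N q D0 X l hN hq hl3 hlo hql (hqN.trans (hmono (by linarith)))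
        (hlN.trans (hmono (by linarith))) hX hD0
        (hXD.trans (mul_le_mul_of_nonneg_right (hmono (by linarith)) (Nat.cast_nonneg _)))
        b a a' hb ha ha' haa c c' hc hc' hr hr').trans ?_
      exact mul_le_mul_of_nonneg_left (hmono (by linarith [min_le_left η 1])) hC.le
    · obtain ⟨ε₁, η, hε₁, hη, H⟩ := hF θ δ (by linarith) hθ hδ
      refine ⟨ε₁, min η 1, hε₁, lt_min hη one_pos, min_le_right _ _, fun ε hε => ?_⟩
      obtain ⟨C, hC, H⟩ := H ε hε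
      refine ⟨C, hC, ?_⟩
      intro e he0 he1 N q D0 X l hN hq hl1 hlo hls hql hqN hlL hlN hX hD0 hXD b a a' hb ha ha'
        haa c c' hc hc' hr hr' hFc
      have hN1 : (1 : ℝ) ≤ N := by exact_mod_cast (by omega : 1 ≤ N)
      have hF' : ∀ d, c' d ≠ 0 → FX.FacD N θ δ d := by
        rcases hFc with h | h
        · linarith
        · exact h.2
      refine (H e he0 he1 N q D0 X l hN hq hl1 hlo hls hql hqN hlL hlN hX hD0 hXD
        b a a' hb ha ha' haa c c' hc hc' hr hr' hF').trans ?_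
      exact mul_le_mul_of_nonneg_left
        (Real.rpow_le_rpow_of_exponent_le hN1 (by linarith [min_le_left η 1])) hC.le
  obtain ⟨ε₀, hε₀, hε₀1, hε₀2⟩ : ∃ ε₀ : ℝ, 0 < ε₀ ∧ ε₀ ≤ ε₁ ∧ ε₀ ≤ 1 / 4 :=
    ⟨min ε₁ (1 / 4), lt_min hε₁ (by norm_num), min_le_left _ _, min_le_right _ _⟩
  refine ⟨ε₀, η, hε₀, hη, fun ε hε => ?_⟩
  obtain ⟨C₁, hC₁, hcs⟩ := hcase ε hε
  obtain ⟨κ, hκ0, hκ1, hκ2⟩ : ∃ κ : ℝ, 0 < κ ∧ κ ≤ ε ∧ κ ≤ ε₀ :=
    ⟨min ε ε₀, lt_min hε hε₀, min_le_left _ _, min_le_right _ _⟩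
  obtain ⟨N₁, hN₁⟩ := exists_lsq κ ε₀ hκ0 hκ2 hε₀2
  obtain ⟨N₂, hN₂⟩ : ∃ N₂ : ℕ, ∀ N : ℕ, N₂ ≤ N → (2 : ℝ) ≤ (N : ℝ) ^ ε := by
    have h := ((tendsto_rpow_atTop hε).comp tendsto_natCast_atTop_atTop).eventually
      (Filter.eventually_ge_atTop (2 : ℝ))
    obtain ⟨N₃, h3⟩ := Filter.eventually_atTop.1 h
    exact ⟨N₃, fun N hN => h3 N hN⟩
  set N₀ : ℕ := max N₁ N₂ with hN₀
  set Cs : ℝ := ∑ N ∈ range N₀, 4 * (N : ℝ) ^ 2 * ∑' n : ℤ, Wt N n with hCs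
  have hWn : ∀ N : ℕ, 0 ≤ ∑' n : ℤ, Wt N n := fun N => tsum_nonneg fun n => (BX.TaskNC.Wt_pos N n).le
  have hCs0 : 0 ≤ Cs := Finset.sum_nonneg fun N _ => mul_nonneg (by positivity) (hWn N)
  refine ⟨C₁ + Cs, by linarith, ?_⟩
  intro N q D0 X hN hq hqN hXN hD0 hXD b a a' hb ha ha' haa c c' hc hc' hr hr' hFc
  have hN1 : (1 : ℝ) ≤ N := by exact_mod_cast (by omega : 1 ≤ N)
  have hN0 : (0 : ℝ) < N := by linarith
  have hXleN : (X : ℝ) ≤ N := by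
    refine hXN.trans ?_
    calc (N : ℝ) ^ θ ≤ (N : ℝ) ^ (1 : ℝ) := Real.rpow_le_rpow_of_exponent_le hN1 (by linarith)
      _ = N := Real.rpow_one _
  have hpow1 : (1 : ℝ) ≤ (N : ℝ) ^ (1 - η) := Real.one_le_rpow hN1 (by linarith)
  rcases lt_or_ge N N₀ with hlt | hge
  · -- small N
    have hcardI : ((Ioc D0 X).card : ℝ) ≤ N := by
      rw [Nat.card_Ioc]
      refine le_trans ?_ hXleN
      exact_mod_cast Nat.sub_le X D0
    have hcardF : ∀ d : ℕ, (((Ioc D0 X).filter (fun d' => Nat.Coprime d d')).card : ℝ) ≤ N := by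
      intro d
      refine le_trans ?_ hcardI
      exact_mod_cast Finset.card_filter_le _ _
    have hcc : ∀ d d' : ℕ, |c d * c' d'| ≤ 1 := by
      intro d d'
      rw [abs_mul]
      calc |c d| * |c' d'| ≤ 1 * 1 :=
            mul_le_mul (hc.bd d) (hc'.bd d') (abs_nonneg _) zero_le_one
        _ = 1 := one_mul 1
    have hB : 0 ≤ 4 * ∑' n : ℤ, Wt N n := mul_nonneg (by norm_num) (hWn N)
    have h1 : |∑ d ∈ Ioc D0 X, ∑ d' ∈ (Ioc D0 X).filter (fun d' => Nat.Coprime d d'),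
        c d * c' d' * ∑' n : ℤ, (if (q : ℤ) ∣ n - b then Wt N n else 0) *
          (BX.dl d (n - a) * BX.dl d' (n - a'))| ≤ (N : ℝ) ^ 2 * (4 * ∑' n : ℤ, Wt N n) := by
      calc _ ≤ ∑ d ∈ Ioc D0 X, |∑ d' ∈ (Ioc D0 X).filter (fun d' => Nat.Coprime d d'),
            c d * c' d' * ∑' n : ℤ, (if (q : ℤ) ∣ n - b then Wt N n else 0) *
              (BX.dl d (n - a) * BX.dl d' (n - a'))| := Finset.abs_sum_le_sum_abs _ _
        _ ≤ ∑ d ∈ Ioc D0 X, (N : ℝ) * (4 * ∑' n : ℤ, Wt N n) := by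
            refine Finset.sum_le_sum fun d hd => ?_
            refine (Finset.abs_sum_le_sum_abs _ _).trans ?_
            refine (Finset.sum_le_sum fun d' _ => ?_).trans (b := ∑ d' ∈ (Ioc D0 X).filter
              (fun d' => Nat.Coprime d d'), 4 * ∑' n : ℤ, Wt N n) ?_
            · rw [abs_mul]
              calc |c d * c' d'| * _ ≤ 1 * (4 * ∑' n : ℤ, Wt N n) :=
                    mul_le_mul (hcc d d') (inner_bound N (by omega) b a a' q d d')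
                      (abs_nonneg _) zero_le_one
                _ = 4 * ∑' n : ℤ, Wt N n := one_mul _
            · rw [Finset.sum_const, nsmul_eq_mul]
              exact mul_le_mul_of_nonneg_right (hcardF d) hB
        _ ≤ (N : ℝ) ^ 2 * (4 * ∑' n : ℤ, Wt N n) := by
            rw [Finset.sum_const, nsmul_eq_mul]
            have h0 : 0 ≤ (N : ℝ) * (4 * ∑' n : ℤ, Wt N n) := by positivity
            calc ((Ioc D0 X).card : ℝ) * ((N : ℝ) * (4 * ∑' n : ℤ, Wt N n)) ≤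
                N * ((N : ℝ) * (4 * ∑' n : ℤ, Wt N n)) :=
                  mul_le_mul_of_nonneg_right hcardI h0
              _ = (N : ℝ) ^ 2 * (4 * ∑' n : ℤ, Wt N n) := by ring
    have h2 : (N : ℝ) ^ 2 * (4 * ∑' n : ℤ, Wt N n) ≤ Cs := by
      have h3 := Finset.single_le_sum (f := fun N : ℕ => 4 * (N : ℝ) ^ 2 * ∑' n : ℤ, Wt N n)
        (fun M _ => mul_nonneg (by positivity) (hWn M)) (Finset.mem_range.mpr hlt)
      calc (N : ℝ) ^ 2 * (4 * ∑' n : ℤ, Wt N n) = 4 * (N : ℝ) ^ 2 * ∑' n : ℤ, Wt N n := by ring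
        _ ≤ Cs := h3
    calc _ ≤ Cs := h1.trans h2
      _ ≤ (C₁ + Cs) * 1 := by linarith
      _ ≤ (C₁ + Cs) * (N : ℝ) ^ (1 - η) := mul_le_mul_of_nonneg_left hpow1 (by linarith)
  · -- large N
    have hge1 : N₁ ≤ N := (le_max_left _ _).trans hge
    have hge2 : N₂ ≤ N := (le_max_right _ _).trans hge
    have h2ε := hN₂ N hge2
    have hqN' : q ≤ N := by
      have h1 : (q : ℝ) ≤ (N : ℝ) ^ (1 : ℝ) :=
        hqN.trans (Real.rpow_le_rpow_of_exponent_le hN1 (by linarith))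
      rw [Real.rpow_one] at h1
      exact_mod_cast h1
    obtain ⟨l, hl1, hlo, hls, hql, hlp, hlL, hlN⟩ := hN₁ N hge1 q hq hqN'
    have hco : ∀ cc : ℕ → ℝ, BX.CofO q cc → BX.CofR ((N : ℝ) ^ ε) X cc → BX.CofO (q * l) cc := by
      intro cc h1 h2
      refine ⟨h1.bd, fun d hd => ?_⟩
      have h3 := h1.cop d hd
      rw [← mul_assoc]
      refine Nat.Coprime.mul_right h3 ?_
      refine Nat.Coprime.symm (Nat.coprime_of_dvd ?_)
      intro p hp hpl hpd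
      have h4 := hlp p hp hpl
      have h5 := (h2.supp d hd).2.2 p hp hpd
      have h6 : (N : ℝ) ^ κ ≤ (N : ℝ) ^ ε := Real.rpow_le_rpow_of_exponent_le hN1 hκ1
      linarith
    have h := hcs ε₀ hε₀ hε₀1 N q D0 X l hN hq hl1 hlo hls hql hqN hlL hlN hXN hD0 hXD b a a' hb
      ha ha' haa c c' (hco c hc hr) (hco c' hc' hr') hr hr' hFc
    refine h.trans ?_
    apply mul_le_mul_of_nonneg_right _ (by positivity)
    linarith

/-- TTC for arbitrary small moduli -/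
theorem ttc : Pool.Agent.Y827.LS.St_TTClF :=
  ttclF (TTCFl (COSFl (COFl (BBFl BCFl) BX.SV_thm) BX.RC BX.GS)) Pool.Agent.TH899.UG.hTTCl

end Pool.Agent.Y827.GS
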