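import Mathlib
import Pool.Agent.Y827.GS.R2Tr

/-! Project GS: the product of two centred rough divisor sums of linear forms with arbitrary slopes,
from the translation version by scaling. -/

set_option autoImplicit false

namespace Pool.Agent.Y827.GS

open Finset
open Pool.Agent.W25.UB (ds RC Ex)
open Pool.Agent.H442R2
open Pool.Agent.H442R2.KF
open Pool.Agent.H442R2.BX.TaskEX
open Pool.Agent.W23.PL
open Pool.Agent.Y827.LS
open Pool.Agent.TH899.UG (ExG Wt_scale)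

/-- divisors coprime to a factor -/
theorem dc_fac (c : ℕ → ℝ) (Z : ℕ) (v m : ℤ) (h : ∀ d, c d ≠ 0 → IsCoprime (d : ℤ) v) :
    dc c Z (v * m) = dc c Z m := by
  unfold dc BX.dl
  refine Finset.sum_congr rfl fun d _ => ?_
  by_cases hd : c d = 0
  · rw [hd, zero_mul, zero_mul]
  · have h1 : ((d : ℤ) ∣ v * m) ↔ ((d : ℤ) ∣ m) :=
      ⟨fun h2 => (h d hd).dvd_of_dvd_mul_left h2, fun h2 => h2.mul_left v⟩
    simp only [h1]

/-- factorable moduli for a slightly larger `X` -/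
theorem facD_scale (θ δ : ℝ) (hθ1 : θ ≤ 1) (hδ : 0 < δ) (X S₀ : ℕ) (hX : 2 ≤ X)
    (hS₀ : 1 ≤ S₀) (hS : (S₀ : ℝ) ≤ (X : ℝ) ^ (δ / (2 * (1 + δ)))) (d : ℕ)
    (h : FX.FacD X θ δ d) : FX.FacD (S₀ * X) θ (δ / 2) d := by
  obtain ⟨hd, s, hsd, h1, h2⟩ := h
  refine ⟨hd, s, hsd, ?_, ?_⟩
  · have hX1 : (1 : ℝ) ≤ X := by exact_mod_cast (by omega : 1 ≤ X)
    have hX0 : (0 : ℝ) < X := by linarith
    have hS1 : (1 : ℝ) ≤ S₀ := by exact_mod_cast hS₀
    have hS0 : (0 : ℝ) < S₀ := by linarith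
    refine le_trans ?_ h1
    push_cast
    rw [Real.mul_rpow hS0.le hX0.le]
    rcases le_total (2 * θ - 1 + δ / 2) 0 with hneg | hpos
    · calc (S₀ : ℝ) ^ (2 * θ - 1 + δ / 2) * (X : ℝ) ^ (2 * θ - 1 + δ / 2)
          ≤ 1 * (X : ℝ) ^ (2 * θ - 1 + δ / 2) := by
            apply mul_le_mul_of_nonneg_right _ (by positivity)
            exact Real.rpow_le_one_of_one_le_of_nonpos hS1 hneg
        _ = (X : ℝ) ^ (2 * θ - 1 + δ / 2) := one_mul _
        _ ≤ _ := Real.rpow_le_rpow_of_exponent_le hX1 (by linarith)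
    · have h3 : (S₀ : ℝ) ^ (2 * θ - 1 + δ / 2) ≤ (X : ℝ) ^ (δ / 2) := by
        calc (S₀ : ℝ) ^ (2 * θ - 1 + δ / 2) ≤ (S₀ : ℝ) ^ (1 + δ) :=
              Real.rpow_le_rpow_of_exponent_le hS1 (by linarith)
          _ ≤ ((X : ℝ) ^ (δ / (2 * (1 + δ)))) ^ (1 + δ) :=
              Real.rpow_le_rpow hS0.le hS (by linarith)
          _ = (X : ℝ) ^ (δ / 2) := by
              rw [← Real.rpow_mul hX0.le]
              congr 1
              field_simp
      calc (S₀ : ℝ) ^ (2 * θ - 1 + δ / 2) * (X : ℝ) ^ (2 * θ - 1 + δ / 2)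
          ≤ (X : ℝ) ^ (δ / 2) * (X : ℝ) ^ (2 * θ - 1 + δ / 2) :=
            mul_le_mul_of_nonneg_right h3 (by positivity)
        _ = (X : ℝ) ^ (2 * θ - 1 + δ) := by
            rw [← Real.rpow_add hX0]
            congr 1
            ring
  · have hX1 : (1 : ℝ) ≤ X := by exact_mod_cast (by omega : 1 ≤ X)
    have hX1' : (1 : ℝ) < X := by exact_mod_cast (by omega : 1 < X)
    have hX0 : (0 : ℝ) < X := by linarith
    have hS1 : (1 : ℝ) ≤ S₀ := by exact_mod_cast hS₀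
    have hS0 : (0 : ℝ) < S₀ := by linarith
    have hs1 : (1 : ℝ) ≤ s := by
      have hd0 : d ≠ 0 := hd.ne_zero
      have : 1 ≤ s := Nat.pos_of_ne_zero (fun h0 => hd0 (by
        rw [h0] at hsd
        exact zero_dvd_iff.1 hsd))
      exact_mod_cast this
    have hpos : 0 ≤ 4 - 7 * θ - δ := by
      by_contra hneg
      have h3 : (X : ℝ) ^ (4 - 7 * θ - δ) < 1 :=
        Real.rpow_lt_one_of_one_lt_of_neg hX1' (by linarith)
      linarith
    refine h2.trans ?_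
    push_cast
    calc (X : ℝ) ^ (4 - 7 * θ - δ) ≤ (X : ℝ) ^ (4 - 7 * θ - δ / 2) :=
          Real.rpow_le_rpow_of_exponent_le hX1 (by linarith)
      _ ≤ ((S₀ : ℝ) * X) ^ (4 - 7 * θ - δ / 2) :=
          Real.rpow_le_rpow hX0.le (by nlinarith) (by linarith)

/-- the trivial bound -/
theorem trivF (X Z : ℕ) (hX : 1 ≤ X) (hZX : (Z : ℝ) ≤ X) (Y : ℝ) (hYX : Y ≤ X)
    (s : Finset (ℕ × ℤ)) (φ : ℕ × ℤ → ℝ) (Φ : ℤ → ℝ)
    (hΦ : ∀ n : ℤ, Φ n = ∑ x ∈ s, φ x * (if (x.1 : ℤ) ∣ n - x.2 then 1 else 0))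
    (hY : ∑ x ∈ s, |φ x| ≤ Y) (f f' : ℤ → ℤ) (c c' : ℕ → ℝ) (hc : ∀ d, |c d| ≤ 1)
    (hc' : ∀ d, |c' d| ≤ 1) :
    |∑' n : ℤ, Wt X n * (Φ n * (dc c Z (f n) * dc c' Z (f' n)))| ≤
      (∑' n : ℤ, Wt X n) * (X : ℝ) ^ 3 := by
  have hX1 : (1 : ℝ) ≤ X := by exact_mod_cast hX
  have hX0 : (0 : ℝ) < X := by linarith
  have hcard : ((Icc 1 Z).card : ℝ) ≤ X := by
    rw [Nat.card_Icc]
    simpa using hZX
  have hds : ∀ cc : ℕ → ℝ, (∀ d, |cc d| ≤ 1) → ∀ n : ℤ, |dc cc Z n| ≤ X := by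
    intro cc hcc n
    unfold dc
    refine (Finset.abs_sum_le_sum_abs _ _).trans ?_
    calc ∑ d ∈ Icc 1 Z, |cc d * BX.dl d n| ≤ ∑ d ∈ Icc 1 Z, (1 : ℝ) := by
          refine Finset.sum_le_sum fun d hd => ?_
          rw [abs_mul]
          calc |cc d| * |BX.dl d n| ≤ 1 * 1 :=
                mul_le_mul (hcc d) (dl_abs d (mem_Icc.1 hd).1 n) (abs_nonneg _) zero_le_one
            _ = 1 := one_mul 1
      _ ≤ X := by rw [Finset.sum_const, nsmul_eq_mul, mul_one]; exact hcard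
  have hΦb : ∀ n, |Φ n| ≤ X := by
    intro n
    rw [hΦ n]
    refine (Finset.abs_sum_le_sum_abs _ _).trans ?_
    refine le_trans ?_ (hY.trans hYX)
    refine Finset.sum_le_sum fun x _ => ?_
    rw [abs_mul]
    calc |φ x| * |(if (x.1 : ℤ) ∣ n - x.2 then (1 : ℝ) else 0)| ≤ |φ x| * 1 := by
          refine mul_le_mul_of_nonneg_left ?_ (abs_nonneg _)
          split_ifs <;> simp
      _ = |φ x| := mul_one _
  have hs := (TaskS.summable_Wt X hX).hasSum.mul_right ((X : ℝ) ^ 3)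
  rw [← Real.norm_eq_abs]
  refine tsum_of_norm_bounded hs fun n => ?_
  rw [Real.norm_eq_abs, abs_mul, abs_of_pos (Wt_pos X n), abs_mul, abs_mul]
  refine mul_le_mul_of_nonneg_left ?_ (Wt_pos X n).le
  calc |Φ n| * (|dc c Z (f n)| * |dc c' Z (f' n)|) ≤ X * (X * X) := by
        refine mul_le_mul (hΦb n) (mul_le_mul (hds c hc _) (hds c' hc' _) (abs_nonneg _)
          hX0.le) (by positivity) hX0.le
    _ = (X : ℝ) ^ 3 := by ring

/-- **R2B** for arbitrary slopes -/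
theorem r2bg (h : St_R2Tr) : St_R2B (fun _ => True) := by
  intro θ δ hθ hθ1 hδ
  obtain ⟨ε₀, η, hε₀, hε₀1, hη, hη1, H⟩ := h θ (δ / 2) hθ hθ1 (by positivity)
  refine ⟨ε₀, η, hε₀, hε₀1, hη, hη1, ?_⟩
  intro ε₁ hε₁ hε₁1
  obtain ⟨η₁, C₁, hη₁, hη₁2, hC₁, HH⟩ := H (ε₁ / 2) (by linarith) (by linarith)
  refine ⟨η₁, hη₁, fun U hU => ?_⟩
  have hbig : ∀ κ : ℝ, 0 < κ → ∃ N₃ : ℕ, ∀ N : ℕ, N₃ ≤ N → (U : ℝ) ^ 2 + 2 ≤ (N : ℝ) ^ κ := by
    intro κ hκ
    have h := ((tendsto_rpow_atTop hκ).comp tendsto_natCast_atTop_atTop).eventually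
      (Filter.eventually_ge_atTop ((U : ℝ) ^ 2 + 2))
    obtain ⟨N₃, h3⟩ := Filter.eventually_atTop.1 h
    exact ⟨N₃, fun N hN => h3 N hN⟩
  obtain ⟨N₁, hN₁⟩ := hbig ε₁ hε₁
  obtain ⟨N₂, hN₂⟩ := hbig (ε₀ / 40) (by linarith)
  obtain ⟨N₃, hN₃⟩ := hbig (δ / (2 * (1 + δ))) (by positivity)
  set N₀ : ℕ := max (max N₁ N₂) (max N₃ 16) with hN₀
  set Cs : ℝ := ∑ N ∈ range N₀, ((∑' n : ℤ, Wt N n) * (N : ℝ) ^ 3) with hCs
  have hWn : ∀ N : ℕ, 0 ≤ (∑' n : ℤ, Wt N n) * (N : ℝ) ^ 3 := fun N =>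
    mul_nonneg (tsum_nonneg fun n => (Real.exp_pos _).le) (by positivity)
  have hCs0 : 0 ≤ Cs := Finset.sum_nonneg fun N _ => hWn N
  have hU1 : (1 : ℝ) ≤ U := by exact_mod_cast hU
  refine ⟨C₁ * (U : ℝ) ^ 2 + Cs, by positivity, ?_⟩
  intro X D0 Z hX hZ hD0 hZD S Cl Y R y Φ m hy hS hEx hR hYη hm u w u' w' _ _ hu hu' huU hu'U
    hw hw' hne hCl c c' hc hc' hcD hcD' hF
  have hX1 : (1 : ℝ) ≤ X := by exact_mod_cast (by omega : 1 ≤ X)
  have hX0 : (0 : ℝ) < X := by linarith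
  have hXle : ∀ s t : ℝ, s ≤ t → (X : ℝ) ^ s ≤ (X : ℝ) ^ t := fun s t hst =>
    Real.rpow_le_rpow_of_exponent_le hX1 hst
  have hZX : (Z : ℝ) ≤ X := hZ.trans (by
    have := hXle θ 1 (by linarith)
    rwa [Real.rpow_one] at this)
  have hYX : Y ≤ X := hYη.trans (by
    have := hXle η 1 (by linarith)
    rwa [Real.rpow_one] at this)
  have hpow1 : (1 : ℝ) ≤ (X : ℝ) ^ (1 - η₁) := Real.one_le_rpow hX1 (by linarith)
  obtain ⟨s, φ, hΦ, hY, hs, hmv⟩ := hEx
  rcases lt_or_ge X N₀ with hlt | hge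
  · have h1 := trivF X Z (by omega) hZX Y hYX s φ Φ hΦ hY (fun n => u * n + w)
      (fun n => u' * n + w') c c' hc.bd hc'.bd
    have h2 := Finset.single_le_sum
      (f := fun N : ℕ => (∑' n : ℤ, Wt N n) * (N : ℝ) ^ 3)
      (fun N _ => hWn N) (Finset.mem_range.2 hlt)
    have h3 : 0 ≤ C₁ * (U : ℝ) ^ 2 := by positivity
    calc _ ≤ _ := h1
      _ ≤ Cs := h2
      _ ≤ (C₁ * (U : ℝ) ^ 2 + Cs) * 1 := by linarith
      _ ≤ _ := mul_le_mul_of_nonneg_left hpow1 (by positivity)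
  · have hge1 : N₁ ≤ X := (le_max_left _ _).trans ((le_max_left _ _).trans hge)
    have hge2 : N₂ ≤ X := (le_max_right _ _).trans ((le_max_left _ _).trans hge)
    have hge4 : N₃ ≤ X := (le_max_left _ _).trans ((le_max_right _ _).trans hge)
    have hge3 : 16 ≤ X := (le_max_right _ _).trans ((le_max_right _ _).trans hge)
    have hX16 : (16 : ℝ) ≤ X := by exact_mod_cast hge3
    have hb1 := hN₁ X hge1
    have hb2 := hN₂ X hge2
    have hb3 := hN₃ X hge4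
    have hUU : (U : ℝ) ≤ (U : ℝ) ^ 2 := by nlinarith
    have hUy : (U : ℝ) < y := by linarith
    have hUy2 : (U : ℝ) ^ 2 < y := by linarith
    -- the scaling factor
    have huu : u * u' ≠ 0 := mul_ne_zero hu hu'
    set S₀ : ℕ := (u * u').natAbs with hS₀
    set sg : ℤ := (u * u').sign with hsg
    have hS₀1 : 1 ≤ S₀ := Int.natAbs_pos.2 huu
    have hsS : sg * (u * u') = (S₀ : ℤ) := by
      rw [hsg, hS₀, Int.sign_mul_self_eq_natAbs]
    have hsg1 : sg = 1 ∨ sg = -1 := by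
      rcases lt_trichotomy (u * u') 0 with h1 | h1 | h1
      · right; rw [hsg]; exact Int.sign_eq_neg_one_of_neg h1
      · exact absurd h1 huu
      · left; rw [hsg]; exact Int.sign_eq_one_of_pos h1
    have hsg0 : sg ≠ 0 := by rcases hsg1 with h1 | h1 <;> rw [h1] <;> norm_num
    have hS₀R : (S₀ : ℝ) = |(u : ℝ)| * |(u' : ℝ)| := by
      have h1 : ((S₀ : ℕ) : ℤ) = |u * u'| := by rw [hS₀, Int.abs_eq_natAbs]
      have h2 : ((S₀ : ℕ) : ℝ) = ((|u * u'| : ℤ) : ℝ) := by exact_mod_cast h1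
      rw [h2]
      push_cast
      rw [abs_mul]
    have huR : |(u : ℝ)| ≤ U := by rw [← Int.cast_abs]; exact_mod_cast huU
    have hu'R : |(u' : ℝ)| ≤ U := by rw [← Int.cast_abs]; exact_mod_cast hu'U
    have hS₀U : (S₀ : ℝ) ≤ (U : ℝ) ^ 2 := by
      rw [hS₀R, pow_two]
      exact mul_le_mul huR hu'R (abs_nonneg _) (by linarith)
    have hS₀1R : (1 : ℝ) ≤ S₀ := by exact_mod_cast hS₀1
    have hS₀0 : (0 : ℝ) < S₀ := by linarith
    set X' : ℕ := S₀ * X with hX'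
    have hX'R : (X' : ℝ) = S₀ * X := by rw [hX']; push_cast; ring
    have hXX' : (X : ℝ) ≤ X' := by rw [hX'R]; nlinarith
    have hX'1 : (1 : ℝ) ≤ X' := hX1.trans hXX'
    -- primes of `d` are larger than `U`
    have hcop : ∀ (cc : ℕ → ℝ), RC Cl y Z cc → ∀ v : ℤ, v ≠ 0 → |v| ≤ U → ∀ d, cc d ≠ 0 →
        IsCoprime (d : ℤ) (sg * v) := by
      intro cc hcc v hv hvU d hd
      rw [Int.isCoprime_iff_gcd_eq_one]
      have h1 : Int.gcd (d : ℤ) (sg * v) = Nat.gcd d v.natAbs := by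
        rw [Int.gcd_def, Int.natAbs_natCast, Int.natAbs_mul]
        have : sg.natAbs = 1 := by rcases hsg1 with h2 | h2 <;> rw [h2] <;> rfl
        rw [this, one_mul]
      rw [h1]
      refine Nat.coprime_of_dvd ?_
      intro p hp hpd hpv
      have h2 := ((hcc.supp d hd).2.2 p hp hpd).1
      have h3 : p ≤ v.natAbs := Nat.le_of_dvd (Int.natAbs_pos.2 hv) hpv
      have h4 : (v.natAbs : ℤ) ≤ U := by rw [← Int.abs_eq_natAbs]; exact hvU
      have h5 : v.natAbs ≤ U := by exact_mod_cast h4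
      have h6 : (p : ℝ) ≤ U := by exact_mod_cast h3.trans h5
      linarith
    -- the function on the multiples of `S₀`
    set g : ℕ × ℤ → ℕ × ℤ := fun x => (S₀ * x.1, (S₀ : ℤ) * x.2) with hg
    have hginj : Function.Injective g := by
      intro x y hxy
      simp only [hg, Prod.mk.injEq] at hxy
      have hz : (S₀ : ℤ) ≠ 0 := by exact_mod_cast (by omega : S₀ ≠ 0)
      exact Prod.ext (Nat.eq_of_mul_eq_mul_left (by omega) hxy.1) (mul_left_cancel₀ hz hxy.2)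
    set Φ' : ℤ → ℝ := fun n => ∑ x ∈ s, φ x *
      (if ((S₀ * x.1 : ℕ) : ℤ) ∣ n - (S₀ : ℤ) * x.2 then 1 else 0) with hΦ'
    have hinv : ∀ x, Function.invFun g (g x) = x := Function.leftInverse_invFun hginj
    set R₁ : ℝ := max R 0 with hR₁
    have hR₁0 : 0 ≤ R₁ := le_max_right _ _
    have hRR₁ : R ≤ R₁ := le_max_left _ _
    have hR₁X : R₁ ≤ (X : ℝ) ^ (ε₀ / 10) := max_le hR (by positivity)
    have hExG : ExG (fun p => S p ∨ (p : ℝ) ≤ y) Y (S₀ * R₁) Φ' (m / S₀) := by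
      refine ⟨s.image g, fun z => φ (Function.invFun g z), ?_, ?_, ?_, ?_⟩
      · intro n
        rw [Finset.sum_image (fun x _ y _ hxy => hginj hxy)]
        simp only [hinv]
        rfl
      · rw [Finset.sum_image (fun x _ y _ hxy => hginj hxy)]
        simp only [hinv]
        exact hY
      · intro z hz
        obtain ⟨x, hx, rfl⟩ := Finset.mem_image.1 hz
        obtain ⟨q1, q2, _, _, q5⟩ := hs x hx
        refine ⟨Nat.mul_pos hS₀1 q1, ?_, ?_⟩
        · simp only [hg]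
          push_cast
          exact mul_le_mul_of_nonneg_left (q2.trans hRR₁) hS₀0.le
        · intro p hp hpd
          simp only [hg] at hpd
          rcases (Nat.Prime.dvd_mul hp).1 hpd with h1 | h1
          · right
            have h2 : p ≤ S₀ := Nat.le_of_dvd hS₀1 h1
            have h3 : (p : ℝ) ≤ S₀ := by exact_mod_cast h2
            linarith
          · left
            exact q5 p hp h1
      · rw [Finset.sum_image (fun x _ y _ hxy => hginj hxy), hmv, Finset.sum_div]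
        refine Finset.sum_congr rfl fun x _ => ?_
        simp only []
        rw [hinv]
        simp only [hg]
        push_cast
        rw [div_div, mul_comm (S₀ : ℝ) (x.1 : ℝ)]
    have hy' : (X' : ℝ) ^ (ε₁ / 2) ≤ y := by
      refine le_trans ?_ hy
      have h1 : (S₀ : ℝ) ≤ X := by
        have h2 : (X : ℝ) ^ (ε₀ / 40) ≤ X := by
          have := hXle (ε₀ / 40) 1 (by linarith)
          rwa [Real.rpow_one] at this
        linarith
      have h2 : (X' : ℝ) ≤ (X : ℝ) ^ (2 : ℝ) := by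
        rw [hX'R, Real.rpow_two, pow_two]
        exact mul_le_mul_of_nonneg_right h1 hX0.le
      calc (X' : ℝ) ^ (ε₁ / 2) ≤ ((X : ℝ) ^ (2 : ℝ)) ^ (ε₁ / 2) :=
            Real.rpow_le_rpow (by linarith) h2 (by linarith)
        _ = (X : ℝ) ^ ε₁ := by
            rw [← Real.rpow_mul hX0.le]
            congr 1
            ring
    have hR' : (S₀ : ℝ) * R₁ ≤ (X' : ℝ) ^ (ε₀ / 8) := by
      calc (S₀ : ℝ) * R₁ ≤ (X : ℝ) ^ (ε₀ / 40) * (X : ℝ) ^ (ε₀ / 10) :=
            mul_le_mul (by linarith) hR₁X hR₁0 (by positivity)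
        _ = (X : ℝ) ^ (ε₀ / 8) := by
            rw [← Real.rpow_add hX0]
            congr 1
            ring
        _ ≤ _ := Real.rpow_le_rpow hX0.le hXX' (by linarith)
    have hZ' : (Z : ℝ) ≤ (X' : ℝ) ^ θ :=
      hZ.trans (Real.rpow_le_rpow hX0.le hXX' hθ.le)
    have hZD' : (Z : ℝ) ≤ (X' : ℝ) ^ ε₀ * D0 :=
      hZD.trans (mul_le_mul_of_nonneg_right (Real.rpow_le_rpow hX0.le hXX' hε₀.le)
        (Nat.cast_nonneg _))
    have hF' : Fc X' θ (δ / 2) c c' := by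
      rcases hF with h1 | ⟨h1, h2⟩
      · exact Or.inl h1
      · right
        have hSδ : (S₀ : ℝ) ≤ (X : ℝ) ^ (δ / (2 * (1 + δ))) := by linarith
        exact ⟨fun d hd => facD_scale θ δ (by linarith) hδ X S₀ hX hS₀1 hSδ d (h1 d hd),
          fun d hd => facD_scale θ δ (by linarith) hδ X S₀ hX hS₀1 hSδ d (h2 d hd)⟩
    have hYη' : Y ≤ (X' : ℝ) ^ η := hYη.trans (Real.rpow_le_rpow hX0.le hXX' hη.le)
    have hm' : |m / S₀| ≤ 1 := by
      rw [abs_div, abs_of_pos hS₀0, div_le_one hS₀0]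
      linarith
    have hroot : ∀ r : ℤ, 4 * |(r : ℝ)| ≤ 3 * (X' : ℝ) → |(r : ℝ)| ≤ X' - (X' : ℝ) ^ (1 / 2 : ℝ) := by
      intro r hr
      have h6 : (X' : ℝ) ^ (1 / 2 : ℝ) ≤ X' / 4 := by
        rw [← Real.sqrt_eq_rpow, Real.sqrt_le_iff]
        refine ⟨by positivity, ?_⟩
        nlinarith
      linarith
    have hsgabs : |(sg : ℝ)| = 1 := by rcases hsg1 with h1 | h1 <;> rw [h1] <;> norm_num
    have ha : 4 * |((-(sg * (u' * w)) : ℤ) : ℝ)| ≤ 3 * (X' : ℝ) := by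
      push_cast
      rw [abs_neg, abs_mul, abs_mul, hsgabs, one_mul, hX'R, hS₀R]
      have h1 : 0 ≤ |(u' : ℝ)| := abs_nonneg _
      calc 4 * (|(u' : ℝ)| * |(w : ℝ)|) = |(u' : ℝ)| * (4 * |(w : ℝ)|) := by ring
        _ ≤ |(u' : ℝ)| * (3 * |(u : ℝ)| * X) := mul_le_mul_of_nonneg_left hw h1
        _ = _ := by ring
    have ha' : 4 * |((-(sg * (u * w')) : ℤ) : ℝ)| ≤ 3 * (X' : ℝ) := by
      push_cast
      rw [abs_neg, abs_mul, abs_mul, hsgabs, one_mul, hX'R, hS₀R]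
      have h1 : 0 ≤ |(u : ℝ)| := abs_nonneg _
      calc 4 * (|(u : ℝ)| * |(w' : ℝ)|) = |(u : ℝ)| * (4 * |(w' : ℝ)|) := by ring
        _ ≤ |(u : ℝ)| * (3 * |(u' : ℝ)| * X) := mul_le_mul_of_nonneg_left hw' h1
        _ = _ := by ring
    have hdiff : -(sg * (u' * w)) - -(sg * (u * w')) = -sg * (u' * w - u * w') := by ring
    have haa : -(sg * (u' * w)) ≠ -(sg * (u * w')) := by
      intro h1
      have h2 : -sg * (u' * w - u * w') = 0 := by rw [← hdiff, h1, sub_self]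
      rcases mul_eq_zero.1 h2 with h3 | h3
      · exact hsg0 (neg_eq_zero.1 h3)
      · exact hne h3
    have hCl' : ∀ p : ℕ, p.Prime → y < (p : ℝ) → (p : ℤ) ∣ -(sg * (u' * w)) - -(sg * (u * w')) →
        Cl p := by
      intro p hp hyp hpd
      apply hCl p hp hyp
      rw [hdiff] at hpd
      rcases hsg1 with h1 | h1
      · rw [h1] at hpd
        rw [neg_one_mul] at hpd
        exact (dvd_neg).1 hpd
      · rw [h1] at hpd
        rw [neg_neg, one_mul] at hpd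
        exact hpd
    have hmain := HH X' D0 Z (by
        have : 1 * 16 ≤ S₀ * X := Nat.mul_le_mul hS₀1 hge3
        omega) hZ' hD0 hZD' (fun p => S p ∨ (p : ℝ) ≤ y) Cl Y (S₀ * R₁) y Φ' (m / S₀) hy'
      (fun p hp => by
        rcases hp with h1 | h1
        · exact hS p h1
        · exact h1) hExG hR' hYη' hm' (-(sg * (u' * w))) (-(sg * (u * w'))) (hroot _ ha)
      (hroot _ ha') haa hCl' c c' hc hc' hcD hcD' hF'
    -- the sum over the multiples of `S₀`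
    have hSz : (S₀ : ℤ) ≠ 0 := by exact_mod_cast (by omega : S₀ ≠ 0)
    have hinj2 : Function.Injective (fun n : ℤ => (S₀ : ℤ) * n) := fun a b hab =>
      mul_left_cancel₀ hSz hab
    have hts : ∑' n : ℤ, Wt X' n * (Φ' n * (dc c Z (n - -(sg * (u' * w))) *
        dc c' Z (n - -(sg * (u * w'))))) =
        ∑' n : ℤ, Wt X n * (Φ n * (dc c Z (u * n + w) * dc c' Z (u' * n + w'))) := by
      rw [← hinj2.tsum_eq (f := fun n : ℤ => Wt X' n * (Φ' n * (dc c Z (n - -(sg * (u' * w))) *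
        dc c' Z (n - -(sg * (u * w'))))))]
      · refine tsum_congr fun n => ?_
        have e1 : Wt X' ((S₀ : ℤ) * n) = Wt X n := Wt_scale S₀ X hS₀1 n
        have e2 : Φ' ((S₀ : ℤ) * n) = Φ n := by
          rw [hΦ n]
          refine Finset.sum_congr rfl fun x _ => ?_
          have h1 : (S₀ : ℤ) * n - (S₀ : ℤ) * x.2 = (S₀ : ℤ) * (n - x.2) := by ring
          have h2 : (((S₀ * x.1 : ℕ) : ℤ) ∣ (S₀ : ℤ) * n - (S₀ : ℤ) * x.2) ↔ ((x.1 : ℤ) ∣ n - x.2) := by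
            rw [h1]
            push_cast
            exact mul_dvd_mul_iff_left hSz
          by_cases h3 : (x.1 : ℤ) ∣ n - x.2
          · rw [if_pos h3, if_pos (h2.2 h3)]
          · rw [if_neg h3, if_neg (fun h4 => h3 (h2.1 h4))]
        have e3 : (S₀ : ℤ) * n - -(sg * (u' * w)) = (sg * u') * (u * n + w) := by
          rw [← hsS]; ring
        have e4 : (S₀ : ℤ) * n - -(sg * (u * w')) = (sg * u) * (u' * n + w') := by
          rw [← hsS]; ring
        rw [e1, e2, e3, e4, dc_fac c Z (sg * u') _ (hcop c hc u' hu' hu'U),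
          dc_fac c' Z (sg * u) _ (hcop c' hc' u hu huU)]
      · intro n hn
        rw [Function.mem_support] at hn
        have h1 : Φ' n ≠ 0 := by
          intro h0
          apply hn
          rw [h0]
          ring
        obtain ⟨x, hx, hxne⟩ := Finset.exists_ne_zero_of_sum_ne_zero h1
        have h2 : ((S₀ * x.1 : ℕ) : ℤ) ∣ n - (S₀ : ℤ) * x.2 := by
          by_contra h3
          apply hxne
          rw [if_neg h3, mul_zero]
        have h3 : (S₀ : ℤ) ∣ n - (S₀ : ℤ) * x.2 := by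
          refine dvd_trans ?_ h2
          push_cast
          exact dvd_mul_right _ _
        have h4 : (S₀ : ℤ) ∣ n := by
          have := dvd_add h3 (dvd_mul_right (S₀ : ℤ) x.2)
          rwa [sub_add_cancel] at this
        obtain ⟨t, ht⟩ := h4
        exact ⟨t, ht.symm⟩
    rw [hts] at hmain
    refine hmain.trans ?_
    have h1 : (X' : ℝ) ^ (1 - η₁) ≤ (U : ℝ) ^ 2 * (X : ℝ) ^ (1 - η₁) := by
      calc (X' : ℝ) ^ (1 - η₁) = (S₀ : ℝ) ^ (1 - η₁) * (X : ℝ) ^ (1 - η₁) := by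
            rw [hX'R, Real.mul_rpow hS₀0.le hX0.le]
        _ ≤ (S₀ : ℝ) ^ (1 : ℝ) * (X : ℝ) ^ (1 - η₁) := by
            apply mul_le_mul_of_nonneg_right _ (by positivity)
            exact Real.rpow_le_rpow_of_exponent_le hS₀1R (by linarith)
        _ ≤ _ := by
            rw [Real.rpow_one]
            exact mul_le_mul_of_nonneg_right hS₀U (by positivity)
    calc C₁ * (X' : ℝ) ^ (1 - η₁) ≤ C₁ * ((U : ℝ) ^ 2 * (X : ℝ) ^ (1 - η₁)) :=
          mul_le_mul_of_nonneg_left h1 hC₁.le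
      _ = (C₁ * (U : ℝ) ^ 2) * (X : ℝ) ^ (1 - η₁) := by ring
      _ ≤ _ := by
          apply mul_le_mul_of_nonneg_right _ (by positivity)
          linarith

end Pool.Agent.Y827.GS
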