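import Mathlib
import Pool.Agent.Y827.GS.Uni

/-! Project GS: the coloured theorem with the constant `18 / 5` for primitive linear forms with bounded
slopes and constant terms as large as the variable, admissible families, no corrections. -/

set_option autoImplicit false

namespace Pool.Agent.Y827.GS

open Finset Filter Topology
open Pool.Agent.W25.UN
open Pool.Agent.W25.UB (CopAt)
open Pool.Agent.H410R2 (WW)
open Pool.Agent.TH899.UG
open Pool.Agent.TH899.UG.Uni
open Pool.Agent.Y827.LS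

/-- the linear form `f.1 * n + f.2`: primitive, slope at most `A`, constant term at most `N`, values at
least `N / 24` on `[N / 16, N / 2]` -/
def Adf (A N : ℕ) (f : ℤ × ℤ) : Prop :=
  f.1 ≠ 0 ∧ |f.1| ≤ A ∧ |f.2| ≤ N ∧ IsCoprime f.1 f.2 ∧
    ∀ t : ℝ, (N : ℝ) / 16 ≤ t → t ≤ N / 2 → (N : ℝ) / 24 ≤ f.1 * t + f.2

/-- two different forms are not proportional -/
theorem Adf.np {A N : ℕ} (hN : 1 ≤ N) {f g : ℤ × ℤ} (hf : Adf A N f) (hg : Adf A N g)
    (h : f ≠ g) : f.1 * g.2 ≠ g.1 * f.2 := by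
  intro he
  have h1 : f.1 ∣ g.1 := hf.2.2.2.1.dvd_of_dvd_mul_right (by rw [← he]; exact dvd_mul_right _ _)
  have h2 : g.1 ∣ f.1 := hg.2.2.2.1.dvd_of_dvd_mul_right (by rw [he]; exact dvd_mul_right _ _)
  have h3 : f.1.natAbs = g.1.natAbs :=
    Nat.dvd_antisymm (Int.natAbs_dvd_natAbs.2 h1) (Int.natAbs_dvd_natAbs.2 h2)
  rcases Int.natAbs_eq_natAbs_iff.1 h3 with h4 | h4
  · apply h
    refine Prod.ext h4 ?_
    rw [← h4] at he
    exact (mul_left_cancel₀ hf.1 he).symm
  · have h5 : g.2 = -f.2 := by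
      rw [h4] at he
      have h6 : g.1 * (g.2 + f.2) = 0 := by linarith
      rcases mul_eq_zero.1 h6 with h7 | h7
      · exact absurd h7 hg.1
      · linarith
    have hNr : (1 : ℝ) ≤ N := by exact_mod_cast hN
    have k1 := hf.2.2.2.2 (N / 16) le_rfl (by linarith)
    have k2 := hg.2.2.2.2 (N / 16) le_rfl (by linarith)
    rw [h5] at k2
    rw [h4] at k1
    push_cast at k1 k2
    linarith

/-- a good residue class for every prime -/
theorem locF {k : ℕ} (f : Fin k → ℤ × ℤ) (hcop : ∀ i, IsCoprime (f i).1 (f i).2)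
    (hloc : ∀ p : ℕ, p.Prime → p ≤ k → ∃ r : ℤ, ∀ i, ¬ (p : ℤ) ∣ (f i).1 * r + (f i).2)
    (p : ℕ) (hp : p.Prime) : ∃ r : ℤ, ∀ i, ¬ (p : ℤ) ∣ (f i).1 * r + (f i).2 := by
  classical
  by_cases hpk : p ≤ k
  · exact hloc p hp hpk
  · haveI := Fact.mk hp
    let b : Fin k → ZMod p := fun i => - (((f i).2 : ℤ) : ZMod p) / (((f i).1 : ℤ) : ZMod p)
    have hcard : (univ.image b).card < (univ : Finset (ZMod p)).card := by
      rw [card_univ, ZMod.card]
      have h2 : (univ.image b).card ≤ k := card_image_le.trans (by simp)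
      omega
    obtain ⟨z, _, hz⟩ := Finset.exists_mem_notMem_of_card_lt_card hcard
    have hzb : ∀ i, z ≠ b i := fun i h => hz (mem_image.2 ⟨i, mem_univ _, h.symm⟩)
    refine ⟨(z.val : ℤ), fun i h => ?_⟩
    by_cases hpa : (p : ℤ) ∣ (f i).1
    · have h1 : (p : ℤ) ∣ (f i).2 := (dvd_add_right (hpa.mul_right _)).1 h
      have h2 := (hcop i).isUnit_of_dvd' hpa h1
      have h3 : p = 1 := by
        have := Int.isUnit_iff.1 h2
        omega
      exact hp.one_lt.ne' h3
    · rw [← ZMod.intCast_zmod_eq_zero_iff_dvd] at h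
      push_cast at h
      rw [ZMod.natCast_zmod_val] at h
      have hal : (((f i).1 : ℤ) : ZMod p) ≠ 0 := by
        intro h1
        exact hpa ((ZMod.intCast_zmod_eq_zero_iff_dvd _ _).1 h1)
      apply hzb i
      rw [eq_div_iff hal]
      linear_combination h

/-- a shift after which the class of `1` is good for all primes up to `D` -/
theorem crtF {k : ℕ} (D : ℕ) (f : Fin k → ℤ × ℤ) (hcop : ∀ i, IsCoprime (f i).1 (f i).2)
    (hne : ∀ i, (f i).1 ≠ 0)
    (hloc : ∀ p : ℕ, p.Prime → p ≤ k → ∃ r : ℤ, ∀ i, ¬ (p : ℤ) ∣ (f i).1 * r + (f i).2) :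
    ∃ s : ℕ, s ≤ WW D * (k + 3) ∧ (∀ i, (f i).2 + (f i).1 * s ≠ 0) ∧
      CopAt (fun i => (f i).1) (fun i => (f i).2 + (f i).1 * s) D 0 1 := by
  classical
  have hW : 0 < WW D := by
    rw [WW]; exact prod_pos fun p hp => (mem_filter.1 hp).2.pos
  have hl : ∀ p : ℕ, ∃ r : ℤ, p.Prime → ∀ i, ¬ (p : ℤ) ∣ (f i).1 * r + (f i).2 := by
    intro p
    by_cases hp : p.Prime
    · obtain ⟨r, hr⟩ := locF f hcop hloc p hp
      exact ⟨r, fun _ => hr⟩
    · exact ⟨0, fun h => absurd h hp⟩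
  choose rr hrr using hl
  obtain ⟨r, hr⟩ := Nat.chineseRemainderOfFinset (fun p => (rr p % (p : ℤ)).toNat) (fun p => p)
    ((Icc 1 D).filter Nat.Prime) (fun p hp => (mem_filter.1 hp).2.ne_zero) (by
      intro p hp q hq hpq
      exact (Nat.coprime_primes (mem_filter.1 (mem_coe.1 hp)).2
        (mem_filter.1 (mem_coe.1 hq)).2).2 hpq)
  obtain ⟨su, hsu⟩ : ∃ su : ℕ → ℕ, ∀ u, su u + 1 = r % WW D + WW D * (u + 1) :=
    ⟨fun u => r % WW D + WW D * (u + 1) - 1, fun u => by
      have h0 : 0 < WW D * (u + 1) := Nat.mul_pos hW (by omega)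
      show r % WW D + WW D * (u + 1) - 1 + 1 = r % WW D + WW D * (u + 1)
      omega⟩
  have hinj : ∀ u u', su u = su u' → u = u' := by
    intro u u' h
    have h1 := hsu u
    have h2 := hsu u'
    rw [h] at h1
    have h3 : WW D * (u + 1) = WW D * (u' + 1) := by omega
    have := Nat.eq_of_mul_eq_mul_left hW h3
    omega
  obtain ⟨u, hu, hune⟩ : ∃ u ∈ range (k + 1), ∀ i, (f i).2 + (f i).1 * (su u : ℕ) ≠ 0 := by
    by_contra hcon
    push Not at hcon
    have hch : ∀ u : ℕ, ∃ i : Option (Fin k), u ∈ range (k + 1) →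
        ∃ j, i = some j ∧ (f j).2 + (f j).1 * (su u : ℕ) = 0 := by
      intro u
      by_cases hu : u ∈ range (k + 1)
      · obtain ⟨j, hj⟩ := hcon u hu
        exact ⟨some j, fun _ => ⟨j, rfl, hj⟩⟩
      · exact ⟨none, fun h => absurd h hu⟩
    choose F hF using hch
    obtain ⟨x, hx, y, hy, hxy, he⟩ := Finset.exists_ne_map_eq_of_card_lt_of_maps_to
      (s := range (k + 1)) (t := (univ : Finset (Fin k)).image some) (f := F) (by
        rw [card_image_of_injective _ (Option.some_injective _), card_univ, Fintype.card_fin,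
          card_range]
        omega) (by
        intro u hu
        obtain ⟨j, hj, _⟩ := hF u (mem_coe.1 hu)
        rw [hj]
        exact mem_coe.2 (mem_image_of_mem _ (mem_univ j)))
    obtain ⟨j, hj1, hj2⟩ := hF x hx
    obtain ⟨j', hj1', hj2'⟩ := hF y hy
    rw [hj1, hj1'] at he
    have he' : j = j' := Option.some_injective _ he
    subst he'
    apply hxy
    apply hinj
    have h1 : (f j).1 * ((su x : ℕ) : ℤ) = (f j).1 * ((su y : ℕ) : ℤ) := by linarith
    exact_mod_cast mul_left_cancel₀ (hne j) h1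
  refine ⟨su u, ?_, hune, ?_⟩
  · have h1 := hsu u
    have h2 := Nat.mod_lt r hW
    have h3 : u + 1 ≤ k + 1 := by have := mem_range.1 hu; omega
    have h4 : WW D * (u + 1) ≤ WW D * (k + 1) := Nat.mul_le_mul_left _ h3
    have h5 : WW D * (k + 3) = WW D * (k + 1) + 2 * WW D := by ring
    omega
  · intro j n hn
    have eW : ((WW D : ℕ) : ℤ) = ∏ p ∈ (Icc 1 D).filter Nat.Prime, (p : ℤ) := by
      rw [WW]; push_cast; rfl
    rw [eW]
    refine IsCoprime.prod_right fun p hp => ?_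
    have hpp0 := (mem_filter.1 hp).2
    have hpp := Nat.prime_iff_prime_int.1 hpp0
    have hpWn : p ∣ WW D := by rw [WW]; exact dvd_prod_of_mem _ hp
    have hpW : (p : ℤ) ∣ ((WW D : ℕ) : ℤ) := Int.natCast_dvd_natCast.2 hpWn
    have hn1 : (p : ℤ) ∣ n - 1 := by
      have h1 := (Int.modEq_iff_dvd.1 hn.symm)
      exact hpW.trans (by exact_mod_cast h1)
    refine (hpp.coprime_iff_not_dvd.2 ?_).symm
    rcases j with _ | i
    · intro hd
      have h1 : (p : ℤ) ∣ n := by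
        have : uB (fun i => (f i).1) none * n + wB (fun i => (f i).2 + (f i).1 * (su u : ℕ)) 0 none
            = n := by simp [uB, wB]
        rwa [this] at hd
      have h2 : (p : ℤ) ∣ 1 := by
        have := dvd_sub h1 hn1
        rwa [sub_sub_cancel] at this
      exact hpp.not_unit (isUnit_of_dvd_one h2)
    · intro hd
      have e0 : uB (fun i => (f i).1) (some i) * n +
          wB (fun i => (f i).2 + (f i).1 * (su u : ℕ)) 0 (some i) =
          (f i).1 * (n + (su u : ℕ)) + (f i).2 := by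
        simp only [uB, wB]
        push_cast
        ring
      rw [e0] at hd
      apply hrr p hpp0 i
      -- `n + s ≡ rr p` modulo `p`
      have h1 : (p : ℤ) ∣ (n + (su u : ℕ)) - rr p := by
        have h2 : (p : ℤ) ∣ ((r : ℕ) : ℤ) - rr p := by
          have h3 := hr p hp
          have h4 : (((rr p % (p : ℤ)).toNat : ℕ) : ℤ) = rr p % (p : ℤ) :=
            Int.toNat_of_nonneg (Int.emod_nonneg _ (by exact_mod_cast hpp0.ne_zero))
          have h5 : ((p : ℕ) : ℤ) ∣ (((rr p % (p : ℤ)).toNat : ℕ) : ℤ) - (r : ℤ) :=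
            Nat.modEq_iff_dvd.1 h3
          rw [h4] at h5
          have h6 : (p : ℤ) ∣ rr p - rr p % (p : ℤ) := Int.dvd_self_sub_emod
          have h7 := dvd_add h5 h6
          have h8 : rr p % (p : ℤ) - (r : ℤ) + (rr p - rr p % (p : ℤ)) = -((r : ℤ) - rr p) := by ring
          rw [h8] at h7
          exact (dvd_neg).1 h7
        have h9 : ((su u : ℕ) : ℤ) + 1 = ((r % WW D : ℕ) : ℤ) + (WW D : ℕ) * ((u : ℤ) + 1) := by
          exact_mod_cast hsu u
        have h10 : (p : ℤ) ∣ ((r : ℕ) : ℤ) - ((r % WW D : ℕ) : ℤ) := by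
          refine hpW.trans ?_
          have : ((r % WW D : ℕ) : ℤ) = (r : ℤ) % ((WW D : ℕ) : ℤ) := by push_cast; rfl
          rw [this]
          exact Int.dvd_self_sub_emod
        have h11 : (p : ℤ) ∣ ((WW D : ℕ) : ℤ) * ((u : ℤ) + 1) := hpW.mul_right _
        have h12 : (n + (su u : ℕ)) - rr p = (n - 1) + (((r : ℕ) : ℤ) - rr p) -
            (((r : ℕ) : ℤ) - ((r % WW D : ℕ) : ℤ)) + ((WW D : ℕ) : ℤ) * ((u : ℤ) + 1) := by
          linarith
        rw [h12]
        exact dvd_add (dvd_sub (dvd_add hn1 h2) h10) h11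
      have h2 : (f i).1 * rr p + (f i).2 = ((f i).1 * (n + (su u : ℕ)) + (f i).2) -
          (f i).1 * ((n + (su u : ℕ)) - rr p) := by ring
      rw [h2]
      exact dvd_sub hd (h1.mul_left _)

open Classical in
/-- **the coloured theorem for families of linear forms, uniformly** -/
theorem lamF0 (T M : ℕ) (hT : 1 ≤ T) (hTM : (18 / 5 : ℝ) * M < T) : ∃ K : ℕ, 1 ≤ K ∧ ∀ (A : ℕ)
    (η : ℝ), 0 < η → ∀ᶠ N : ℕ in atTop, ∀ H : Fin T → Fin K → ℤ × ℤ,
    Function.Injective (fun x : Fin T × Fin K => H x.1 x.2) → (∀ g i, Adf A N (H g i)) →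
    (∀ p : ℕ, p.Prime → p ≤ T * K → ∃ r : ℤ, ∀ g i, ¬ (p : ℤ) ∣ (H g i).1 * r + (H g i).2) →
    ∃ (S : Finset (Fin T)) (c : Fin T → Fin K), M + 1 ≤ S.card ∧
      (N : ℝ) ^ (1 - η) ≤ (((Icc 1 N).filter (fun n : ℕ =>
        ∀ g ∈ S, ((H g (c g)).1 * n + (H g (c g)).2).toNat.Prime)).card : ℝ) := by
  obtain ⟨K, hK, D₀, H⟩ := thmG T M hT hTM
  refine ⟨K, by omega, ?_⟩
  intro A η hη
  set D : ℕ := D₀ + A with hD
  set k : ℕ := T * K with hk
  haveI : NeZero K := ⟨by omega⟩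
  have hW : 0 < WW D := by
    rw [WW]; exact prod_pos fun p hp => (mem_filter.1 hp).2.pos
  have h2 : ∀ᶠ N : ℕ in atTop, ∀ a ∈ (Fintype.piFinset (fun _ : Fin (T * K) =>
      Icc (-(A : ℤ)) A)).filter (fun a => ∀ i, a i ≠ 0), ∀ (h : Fin (T * K) → ℤ) (Mo : ℕ),
      HB h Mo N → Nd a h Mo → PosR a h Mo N → ∀ v : ℕ, CopAt a h D Mo v →
      (N : ℝ) ^ (1 - η / 2) ≤ (((Icc 1 N).filter (fun n : ℕ => n ≡ v [MOD (WW D)] ∧
        (N : ℝ) / 16 ≤ n ∧ (n : ℝ) ≤ N / 2 ∧
        M + 1 ≤ (univ.filter (fun g : Fin T => ∃ i, cl i = g ∧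
          (Fm a h Mo i n).toNat.Prime)).card)).card : ℝ) := by
    rw [Filter.eventually_all_finset]
    intro a ha
    obtain ⟨ha1, ha2⟩ := mem_filter.1 ha
    rw [Fintype.mem_piFinset] at ha1
    refine H D (by omega) a cl card_cl (fun _ => trivial) (fun i => ha2 _)
      (fun i => ?_) (η / 2) (by positivity)
    have h3 := mem_Icc.1 (ha1 i)
    omega
  set P : ℕ := 2 ^ T * K ^ T with hP
  have h3 : ∀ᶠ N : ℕ in atTop, (P : ℝ) < (N : ℝ) ^ (η / 2) :=
    ((tendsto_rpow_atTop (by positivity)).comp tendsto_natCast_atTop_atTop).eventually_gt_atTop _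
  filter_upwards [h2, h3, eventually_ge_atTop (100 * (A * (WW D * (k + 3)) + WW D * (k + 3))),
    eventually_ge_atTop 1] with N hN2 hN3 hN4 hN1 f hinj hAd hloc
  have hNpos : (0 : ℝ) < N := by exact_mod_cast hN1
  -- the shift
  obtain ⟨s, hs1, hs2, hs3⟩ := crtF D (fun i : Fin (T * K) => f (cl i) (sx i))
    (fun i => (hAd _ _).2.2.2.1) (fun i => (hAd _ _).1) (by
      intro p hp hpk
      obtain ⟨r, hr⟩ := hloc p hp hpk
      exact ⟨r, fun i => hr _ _⟩)
  set a : Fin (T * K) → ℤ := fun i => (f (cl i) (sx i)).1 with ha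
  set h : Fin (T * K) → ℤ := fun i => (f (cl i) (sx i)).2 + (f (cl i) (sx i)).1 * s with hh
  have hAs : A * s + s ≤ A * (WW D * (k + 3)) + WW D * (k + 3) :=
    Nat.add_le_add (Nat.mul_le_mul_left _ hs1) hs1
  have hAsN : 100 * (A * s + s) ≤ N := (Nat.mul_le_mul_left 100 hAs).trans hN4
  have hAsN' : 100 * ((A : ℤ) * s + s) ≤ N := by exact_mod_cast hAsN
  have has : ∀ i, |(f (cl i) (sx i)).1 * (s : ℤ)| ≤ (A : ℤ) * s := by
    intro i
    rw [abs_mul, abs_of_nonneg (Nat.cast_nonneg s : (0 : ℤ) ≤ (s : ℤ))]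
    exact mul_le_mul_of_nonneg_right (hAd _ _).2.1 (Nat.cast_nonneg s)
  have hHB : HB h 0 N := by
    intro i
    have e1 := (hAd (cl i) (sx i)).2.2.1
    have e2 := has i
    have e3 : |((0 : ℕ) : ℤ) + h i| ≤ |(f (cl i) (sx i)).2| + |(f (cl i) (sx i)).1 * (s : ℤ)| := by
      rw [Nat.cast_zero, zero_add, hh]
      exact abs_add_le _ _
    have e4 : (0 : ℤ) ≤ s := Nat.cast_nonneg s
    linarith
  have hNd : Nd a h 0 := by
    intro j l hjl
    rcases j with _ | j <;> rcases l with _ | l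
    · exact absurd rfl hjl
    · simp only [uB, wB]
      have := hs2 l
      intro h0
      apply this
      have h5 : h l = 0 := by push_cast at h0; linarith
      exact h5
    · simp only [uB, wB]
      have := hs2 j
      intro h0
      apply this
      have h5 : h j = 0 := by push_cast at h0; linarith
      exact h5
    · have hne : j ≠ l := fun h => hjl (by rw [h])
      simp only [uB, wB]
      have hfne : f (cl j) (sx j) ≠ f (cl l) (sx l) := by
        intro h5
        apply hne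
        have h6 := hinj (a₁ := (cl j, sx j)) (a₂ := (cl l, sx l)) h5
        have h7 := Prod.ext_iff.1 h6
        rw [← ix_cl j, ← ix_cl l]
        simp only at h7
        rw [h7.1, h7.2]
      have := (hAd (cl j) (sx j)).np hN1 (hAd (cl l) (sx l)) hfne
      intro h0
      apply this
      push_cast at h0
      simp only [ha, hh] at h0
      linarith
  have hPR : PosR a h 0 N := by
    intro i x hx1 hx2
    have h5 := (hAd (cl i) (sx i)).2.2.2.2 x hx1 hx2
    have h6 := (abs_le.1 (has i)).1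
    have h7 : (-((A : ℝ) * s) : ℝ) ≤ (f (cl i) (sx i)).1 * (s : ℝ) := by
      have : ((-((A : ℤ) * s) : ℤ) : ℝ) ≤ (((f (cl i) (sx i)).1 * (s : ℤ) : ℤ) : ℝ) := by
        exact_mod_cast h6
      push_cast at this
      exact this
    have h8 : 100 * ((A : ℝ) * s + s) ≤ N := by exact_mod_cast hAsN
    have h9 : (0 : ℝ) ≤ s := Nat.cast_nonneg s
    simp only [ha, hh]
    push_cast
    linarith
  have hmem : a ∈ (Fintype.piFinset (fun _ : Fin (T * K) => Icc (-(A : ℤ)) A)).filter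
      (fun a => ∀ i, a i ≠ 0) := by
    rw [mem_filter, Fintype.mem_piFinset]
    exact ⟨fun i => mem_Icc.2 (abs_le.1 (hAd _ _).2.1), fun i => (hAd _ _).1⟩
  have hmain := hN2 a hmem h 0 hHB hNd hPR 1 hs3
  -- pigeonhole
  set Q : Finset (Finset (Fin T) × (Fin T → Fin K)) := univ.filter (fun q => M + 1 ≤ q.1.card)
    with hQ
  set B : Finset (Fin T) × (Fin T → Fin K) → Finset ℕ := fun q => (Icc 1 N).filter (fun n : ℕ =>
    (n : ℝ) ≤ N / 2 ∧ ∀ g ∈ q.1, (Fm a h 0 (ix g (q.2 g)) n).toNat.Prime) with hB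
  have hsub : (Icc 1 N).filter (fun n : ℕ => n ≡ 1 [MOD (WW D)] ∧
        (N : ℝ) / 16 ≤ n ∧ (n : ℝ) ≤ N / 2 ∧
        M + 1 ≤ (univ.filter (fun g : Fin T => ∃ i, cl i = g ∧
          (Fm a h 0 i n).toNat.Prime)).card) ⊆ Q.biUnion B := by
    intro n hn
    rw [mem_filter] at hn
    obtain ⟨hn1, -, hn3, hn4, hn5⟩ := hn
    set S : Finset (Fin T) := univ.filter (fun g : Fin T => ∃ i, cl i = g ∧
          (Fm a h 0 i n).toNat.Prime) with hS
    have hex : ∀ g : Fin T, ∃ s : Fin K, g ∈ S → (Fm a h 0 (ix g s) n).toNat.Prime := by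
      intro g
      by_cases hg : g ∈ S
      · obtain ⟨i, hi1, hi2⟩ := (mem_filter.1 hg).2
        refine ⟨sx i, fun _ => ?_⟩
        rw [← hi1, ix_cl]
        exact hi2
      · exact ⟨0, fun h => absurd h hg⟩
    choose σ hσ using hex
    exact mem_biUnion.2 ⟨(S, σ), mem_filter.2 ⟨mem_univ _, hn5⟩,
      mem_filter.2 ⟨hn1, hn4, fun g hg => hσ g hg⟩⟩
  have hbig : ∃ q ∈ Q, (N : ℝ) ^ (1 - η) ≤ ((B q).card : ℝ) := by
    by_contra hcon
    push Not at hcon
    have e1 := (Nat.cast_le (α := ℝ)).2 ((card_le_card hsub).trans card_biUnion_le)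
    rw [Nat.cast_sum] at e1
    have e2 : ∑ q ∈ Q, ((B q).card : ℝ) ≤ Q.card • (N : ℝ) ^ (1 - η) :=
      Finset.sum_le_card_nsmul _ _ _ (fun q hq => (hcon q hq).le)
    have e3 : Q.card ≤ P := by
      refine (card_le_univ _).trans ?_
      rw [Fintype.card_prod, Fintype.card_finset, Fintype.card_fun, Fintype.card_fin,
        Fintype.card_fin]
    have e4 : (Q.card : ℝ) ≤ P := by exact_mod_cast e3
    have e5 : (0 : ℝ) < (N : ℝ) ^ (1 - η) := Real.rpow_pos_of_pos hNpos _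
    have e6 : (N : ℝ) ^ (1 - η / 2) = (N : ℝ) ^ (η / 2) * (N : ℝ) ^ (1 - η) := by
      rw [← Real.rpow_add hNpos]
      congr 1
      ring
    rw [nsmul_eq_mul] at e2
    have e7 := hmain.trans (e1.trans (e2.trans (mul_le_mul_of_nonneg_right e4 e5.le)))
    rw [e6] at e7
    have e8 := le_of_mul_le_mul_right e7 e5
    linarith
  obtain ⟨⟨S, σ⟩, hq, hbig⟩ := hbig
  refine ⟨S, σ, (mem_filter.1 hq).2, hbig.trans ?_⟩
  rw [Nat.cast_le, ← card_image_of_injective (B (S, σ)) (add_left_injective s)]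
  apply card_le_card
  intro m hm
  obtain ⟨n, hn, rfl⟩ := mem_image.1 hm
  obtain ⟨hn1, hn2, hn3⟩ := mem_filter.1 hn
  rw [mem_Icc] at hn1
  rw [mem_filter, mem_Icc]
  have hs0 : (s : ℝ) ≤ N / 2 := by
    have h8 : 100 * ((A : ℝ) * s + s) ≤ N := by exact_mod_cast hAsN
    have h9 : (0 : ℝ) ≤ (A : ℝ) * s := by positivity
    linarith
  have hns : ((n + s : ℕ) : ℝ) ≤ N := by push_cast; linarith
  refine ⟨⟨by omega, by exact_mod_cast hns⟩, fun g hg => ?_⟩
  have h5 := hn3 g hg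
  have h6 : Fm a h 0 (ix g (σ g)) n = (f g (σ g)).1 * ((n + s : ℕ) : ℤ) + (f g (σ g)).2 := by
    unfold Fm
    simp only [ha, hh]
    have e1 : cl (ix g (σ g)) = g := cl_ix g (σ g)
    have e2 : sx (ix g (σ g)) = σ g := by
      unfold sx ix
      rw [Equiv.symm_apply_apply]
    rw [e1, e2]
    push_cast
    ring
  rw [h6] at h5
  exact h5

end Pool.Agent.Y827.GS
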