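import Mathlib
import Pool.Agent.Y827.GS.LamF
import Pool.Agent.Y827.LS.FamL

/-! Project GS: the proportion of the subfamilies of a large admissible family of linear forms which
satisfy Dickson's conjecture, constant `5 / 18`. -/

set_option autoImplicit false

namespace Pool.Agent.Y827.GS

open Finset Filter
open Pool.Agent.W25.QL
open Pool.Agent.Y827.LS
open Pool.Agent.W70.QP (freq_pigeon)

/-- the number of the `n ≤ N` at which all forms in `F` are prime -/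
def cntN (F : Finset (ℤ × ℤ)) (N : ℕ) : ℕ :=
  ((Icc 1 N).filter (fun n : ℕ => ∀ f ∈ F, (f.1 * (n : ℤ) + f.2).toNat.Prime)).card

theorem cntN_anti {F F' : Finset (ℤ × ℤ)} (h : F' ⊆ F) (N : ℕ) : cntN F N ≤ cntN F' N := by
  unfold cntN
  apply card_le_card
  intro n hn
  rw [mem_filter] at hn ⊢
  exact ⟨hn.1, fun f hf => hn.2 f (h hf)⟩

open Classical in
/-- the tuples of distinct forms in `V` with at least `N ^ (1 - η)` simultaneous prime values -/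
noncomputable def PhiF (k : ℕ) (V : Finset (ℤ × ℤ)) (η : ℝ) (N : ℕ) : Finset (Fin (k + 1) → ℤ × ℤ) :=
  (Fintype.piFinset (fun _ : Fin (k + 1) => V)).filter (fun f => Function.Injective f ∧
    (N : ℝ) ^ (1 - η) ≤ (cntN (univ.image f) N : ℝ))

theorem PhiF_mem {k : ℕ} {V : Finset (ℤ × ℤ)} {η : ℝ} {N : ℕ} {f : Fin (k + 1) → ℤ × ℤ}
    (h : f ∈ PhiF k V η N) : (∀ i, f i ∈ V) ∧ Function.Injective f ∧
      (N : ℝ) ^ (1 - η) ≤ (cntN (univ.image f) N : ℝ) := by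
  unfold PhiF at h
  rw [mem_filter, Fintype.mem_piFinset] at h
  exact ⟨h.1, h.2.1, h.2.2⟩

theorem PhiF_sub (k : ℕ) (V : Finset (ℤ × ℤ)) (η : ℝ) (N : ℕ) :
    PhiF k V η N ∈ (Fintype.piFinset (fun _ : Fin (k + 1) => V)).powerset := by
  rw [mem_powerset]
  exact filter_subset _ _

/-- a good class for all primes up to `z` -/
def AdmF (z : ℕ) (V : Finset (ℤ × ℤ)) : Prop :=
  ∀ p : ℕ, p ≤ z → p.Prime → ∃ r : ℤ, ∀ f ∈ V, ¬ (p : ℤ) ∣ f.1 * r + f.2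

theorem lamFD (T : ℕ) : ∃ K : ℕ, 1 ≤ K ∧ (1 ≤ T → ∀ (A : ℕ)
    (η : ℝ), 0 < η → ∀ᶠ N : ℕ in atTop, ∀ H : Fin T → Fin K → ℤ × ℤ,
    Function.Injective (fun x : Fin T × Fin K => H x.1 x.2) → (∀ g i, Adf A N (H g i)) →
    (∀ p : ℕ, p.Prime → p ≤ T * K → ∃ r : ℤ, ∀ g i, ¬ (p : ℤ) ∣ (H g i).1 * r + (H g i).2) →
    ∃ (S : Finset (Fin T)) (c : Fin T → Fin K), (T : ℝ) ≤ (18 / 5) * (S.card : ℝ) ∧
      (N : ℝ) ^ (1 - η) ≤ (cntN (S.image (fun g => H g (c g))) N : ℝ)) := by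
  rcases Nat.eq_zero_or_pos T with rfl | hT
  · exact ⟨1, le_rfl, fun h => absurd h (by norm_num)⟩
  have hlam : (0 : ℝ) < 18 / 5 := by norm_num
  have hTr : (0 : ℝ) < T := by exact_mod_cast hT
  obtain ⟨M, hM⟩ : ∃ M : ℕ, M + 1 = ⌈(T : ℝ) / (18 / 5)⌉₊ := by
    have : 0 < ⌈(T : ℝ) / (18 / 5)⌉₊ := Nat.ceil_pos.2 (by positivity)
    exact ⟨⌈(T : ℝ) / (18 / 5)⌉₊ - 1, by omega⟩
  have hMlt : (18 / 5 : ℝ) * (M : ℝ) < T := by
    have h1 : (M : ℝ) < (T : ℝ) / (18 / 5) := by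
      rw [← Nat.lt_ceil]
      omega
    rw [lt_div_iff₀ hlam] at h1
    linarith
  have hMge : (T : ℝ) ≤ (18 / 5) * ((M + 1 : ℕ) : ℝ) := by
    have h1 : (T : ℝ) / (18 / 5) ≤ ((M + 1 : ℕ) : ℝ) := by
      rw [hM]; exact Nat.le_ceil _
    rw [div_le_iff₀ hlam] at h1
    linarith
  obtain ⟨K, hK, H0⟩ := lamF0 T M hT hMlt
  refine ⟨K, hK, fun _ A η hη => ?_⟩
  filter_upwards [H0 A η hη] with N hN
  intro H hinj hAd hloc
  obtain ⟨S, c, hS, hc⟩ := hN H hinj hAd hloc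
  refine ⟨S, c, ?_, hc.trans (le_of_eq ?_)⟩
  · refine hMge.trans (mul_le_mul_of_nonneg_left ?_ hlam.le)
    exact_mod_cast hS
  · unfold cntN
    congr 2
    ext n
    simp only [mem_filter, mem_image, forall_exists_index, and_imp, forall_apply_eq_imp_iff₂]

/-- **the proportion, uniformly in the family** -/
theorem formsU (k : ℕ) (ε : ℝ) (hε : 0 < ε) : ∃ z n₀ : ℕ, ∀ (A : ℕ) (η : ℝ), 0 < η →
    ∀ᶠ N : ℕ in atTop, ∀ V : Finset (ℤ × ℤ), (∀ f ∈ V, Adf A N f) → AdmF z V → n₀ ≤ V.card →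
    (dn k - ε) * (V.card : ℝ) ^ (k + 1) ≤ ((PhiF k V η N).card : ℝ) := by
  classical
  choose Kf hKf1 hKf using lamFD
  obtain ⟨T, M, hT, hM⟩ := main_gen (lam := 18 / 5) (by norm_num) k (dn k)
    (dn_le k) (hcountL k) ε hε Kf
  obtain ⟨n₀, hn₀⟩ := hM Unit
  refine ⟨∑ T' ∈ range (M + 1), T' * Kf T', n₀, ?_⟩
  intro A η hη
  have hev : ∀ᶠ N : ℕ in atTop, ∀ T' : Fin (M + 1), 1 ≤ (T' : ℕ) →
      ∀ H : Fin (T' : ℕ) → Fin (Kf T') → ℤ × ℤ,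
      Function.Injective (fun z : Fin (T' : ℕ) × Fin (Kf T') => H z.1 z.2) →
      (∀ g i, Adf A N (H g i)) →
      (∀ p : ℕ, p.Prime → p ≤ T' * Kf T' → ∃ r : ℤ, ∀ g i,
        ¬ (p : ℤ) ∣ (H g i).1 * r + (H g i).2) →
      ∃ (S : Finset (Fin (T' : ℕ))) (cc : Fin (T' : ℕ) → Fin (Kf T')),
        ((T' : ℕ) : ℝ) ≤ (18 / 5) * (S.card : ℝ) ∧
        (N : ℝ) ^ (1 - η) ≤ (cntN (S.image (fun g => H g (cc g))) N : ℝ) := by
    rw [eventually_all]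
    intro T'
    by_cases h0 : 1 ≤ (T' : ℕ)
    swap
    · exact Eventually.of_forall fun x h => absurd h h0
    filter_upwards [hKf T' h0 A η hη] with N hN _ H hinj hAd hadm
    exact hN H hinj hAd hadm
  filter_upwards [hev] with N hN
  intro V hVA hVadm hVn
  have key := hn₀ (ℤ × ℤ) V (fun _ => ())
    (fun F => (N : ℝ) ^ (1 - η) ≤ (cntN F N : ℝ)) hVn
    (fun F F' hF h => h.trans (by exact_mod_cast cntN_anti hF N)) (by
      intro T' hT'1 hT'M H hHV hHinj _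
      have hadm : ∀ p : ℕ, p.Prime → p ≤ T' * Kf T' → ∃ r : ℤ, ∀ g i,
          ¬ (p : ℤ) ∣ (H g i).1 * r + (H g i).2 := by
        intro p hp hpT
        obtain ⟨r, hr⟩ := hVadm p (hpT.trans
          (Finset.single_le_sum (f := fun T' => T' * Kf T') (fun _ _ => Nat.zero_le _)
                (mem_range.2 (by omega)))) hp
        exact ⟨r, fun g i => hr _ (hHV g i)⟩
      obtain ⟨S, cc, hS, hcc⟩ := hN ⟨T', by omega⟩ hT'1 H hHinj (fun g i => hVA _ (hHV g i)) hadm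
      exact ⟨S, cc, hS, hcc⟩)
  refine key.trans (le_of_eq ?_)
  unfold PhiF
  rfl

/-- forms with positive slopes satisfy the condition on the size for all large `N` -/
theorem adf_ev (V : Finset (ℤ × ℤ)) (hV : ∀ f ∈ V, 0 < f.1 ∧ IsCoprime f.1 f.2) :
    ∃ A : ℕ, ∀ᶠ N : ℕ in atTop, ∀ f ∈ V, Adf A N f := by
  refine ⟨∑ f ∈ V, f.1.natAbs, ?_⟩
  filter_upwards [eventually_ge_atTop (48 * ∑ f ∈ V, f.2.natAbs)] with N hN
  intro f hf
  have h1 : f.1.natAbs ≤ ∑ f ∈ V, f.1.natAbs :=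
    Finset.single_le_sum (f := fun f : ℤ × ℤ => f.1.natAbs) (fun _ _ => Nat.zero_le _) hf
  have h2 : f.2.natAbs ≤ ∑ f ∈ V, f.2.natAbs :=
    Finset.single_le_sum (f := fun f : ℤ × ℤ => f.2.natAbs) (fun _ _ => Nat.zero_le _) hf
  obtain ⟨h3, h4⟩ := hV f hf
  have h5 : 48 * |f.2| ≤ N := by
    rw [Int.abs_eq_natAbs]
    exact_mod_cast (Nat.mul_le_mul_left 48 h2).trans hN
  have h6 : (48 : ℝ) * |(f.2 : ℝ)| ≤ N := by
    have : ((48 * |f.2| : ℤ) : ℝ) ≤ ((N : ℤ) : ℝ) := by exact_mod_cast h5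
    push_cast at this
    exact this
  have h7 : (0 : ℤ) ≤ |f.2| := abs_nonneg _
  refine ⟨h3.ne', ?_, by linarith, h4, ?_⟩
  · rw [Int.abs_eq_natAbs]
    exact_mod_cast h1
  · intro t ht1 ht2
    have h8 : (1 : ℝ) ≤ f.1 := by exact_mod_cast h3
    have h9 : -|(f.2 : ℝ)| ≤ f.2 := neg_abs_le _
    have h10 : (0 : ℝ) ≤ N := Nat.cast_nonneg _
    have h11 : t ≤ f.1 * t := le_mul_of_one_le_left (by linarith) h8
    linarith

/-- one family of tuples for all exponents -/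
theorem familyF {k : ℕ} {ε : ℝ} {V : Finset (ℤ × ℤ)}
    (hev : ∀ η : ℝ, 0 < η → ∀ᶠ N : ℕ in atTop,
      (dn k - ε) * (V.card : ℝ) ^ (k + 1) ≤ ((PhiF k V η N).card : ℝ)) :
    ∃ 𝒢 : Finset (Fin (k + 1) → ℤ × ℤ), (∀ f ∈ 𝒢, (∀ i, f i ∈ V) ∧ Function.Injective f) ∧
      (dn k - ε) * (V.card : ℝ) ^ (k + 1) ≤ (𝒢.card : ℝ) ∧
      ∀ η : ℝ, 0 < η → ∃ᶠ N : ℕ in atTop, ∀ f ∈ 𝒢,
        (N : ℝ) ^ (1 - η) ≤ (cntN (univ.image f) N : ℝ) := by
  classical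
  set PS := (Fintype.piFinset (fun _ : Fin (k + 1) => V)).powerset with hPS
  have hmem : ∀ η N, PhiF k V η N ∈ PS := PhiF_sub k V
  have hpig : ∀ j : ℕ, ∃ b : PS, (dn k - ε) * (V.card : ℝ) ^ (k + 1) ≤
      ((b : Finset (Fin (k + 1) → ℤ × ℤ)).card : ℝ) ∧
      ∃ᶠ N : ℕ in atTop, (⟨PhiF k V (1 / (j + 1 : ℝ)) N, hmem _ N⟩ : PS) = b := by
    intro j
    by_contra hcon
    push Not at hcon
    have h1 : ∀ b : PS, ∀ᶠ N : ℕ in atTop, (dn k - ε) * (V.card : ℝ) ^ (k + 1) ≤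
        ((b : Finset (Fin (k + 1) → ℤ × ℤ)).card : ℝ) →
        (⟨PhiF k V (1 / (j + 1 : ℝ)) N, hmem _ N⟩ : PS) ≠ b := by
      intro b
      by_cases hb : (dn k - ε) * (V.card : ℝ) ^ (k + 1) ≤
        ((b : Finset (Fin (k + 1) → ℤ × ℤ)).card : ℝ)
      · have h2 := hcon b hb
        filter_upwards [h2] with N hN _ using hN
      · exact Eventually.of_forall fun N h => absurd h hb
    have h2 := (eventually_all.2 h1).and (hev (1 / (j + 1 : ℝ)) (by positivity))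
    obtain ⟨N, hN1, hN2⟩ := h2.exists
    exact hN1 ⟨PhiF k V (1 / (j + 1 : ℝ)) N, hmem _ N⟩ hN2 rfl
  choose b hb1 hb2 using hpig
  obtain ⟨B, hB⟩ := Finite.exists_infinite_fiber b
  have hBinf : (b ⁻¹' {B}).Infinite := Set.infinite_coe_iff.1 hB
  obtain ⟨j0, hj0⟩ := hBinf.nonempty
  have hj0' : b j0 = B := hj0
  have hval : ∀ j N, b j = B → (⟨PhiF k V (1 / (j + 1 : ℝ)) N, hmem _ N⟩ : PS) = b j →
      (B : Finset (Fin (k + 1) → ℤ × ℤ)) = PhiF k V (1 / (j + 1 : ℝ)) N := by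
    intro j N h1 h2
    rw [h1] at h2
    exact (congrArg Subtype.val h2).symm
  refine ⟨B, fun f hf => ?_, by rw [← hj0']; exact hb1 j0, fun η hη => ?_⟩
  · obtain ⟨N, hN⟩ := (hb2 j0).exists
    rw [hval j0 N hj0' hN] at hf
    have h2 := PhiF_mem hf
    exact ⟨h2.1, h2.2.1⟩
  · obtain ⟨j, hj, hjη⟩ := hBinf.exists_gt ⌈1 / η⌉₊
    have hj' : b j = B := hj
    have hη' : 1 / (j + 1 : ℝ) ≤ η := by
      have h2 : 1 / η ≤ (j : ℝ) := (Nat.le_ceil _).trans (by exact_mod_cast hjη.le)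
      have h3 : 1 / η ≤ (j : ℝ) + 1 := by linarith
      rw [div_le_iff₀ (by positivity)]
      rw [div_le_iff₀ hη] at h3
      linarith
    refine ((hb2 j).and_eventually (eventually_ge_atTop 1)).mono ?_
    rintro N ⟨hN, hN1⟩ f hf
    rw [hval j N hj' hN] at hf
    have h2 := (PhiF_mem hf).2.2
    refine le_trans (Real.rpow_le_rpow_of_exponent_le ?_ (by linarith)) h2
    exact_mod_cast hN1

theorem cntN_image {k : ℕ} (f : Fin (k + 1) → ℤ × ℤ) (N : ℕ) : cntN (univ.image f) N =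
    ((Icc 1 N).filter (fun n : ℕ => ∀ i, ((f i).1 * (n : ℤ) + (f i).2).toNat.Prime)).card := by
  unfold cntN
  congr 2
  ext n
  simp

/-- **the fixed family and the uniform version** -/
theorem finF (k : ℕ) (ε : ℝ) (hε : 0 < ε) : ∃ z n₀ : ℕ,
    (∀ V : Finset (ℤ × ℤ), (∀ f ∈ V, 0 < f.1 ∧ IsCoprime f.1 f.2) → AdmF z V → n₀ ≤ V.card →
      ∃ G : Finset (Fin (k + 1) → ℤ × ℤ),
        (∀ f ∈ G, (∀ i, f i ∈ V) ∧ Function.Injective f) ∧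
        (dn k - ε) * (V.card : ℝ) ^ (k + 1) ≤ (G.card : ℝ) ∧
        ∀ η : ℝ, 0 < η → ∃ᶠ N : ℕ in atTop, ∀ f ∈ G,
          (N : ℝ) ^ (1 - η) ≤ (((Icc 1 N).filter (fun n : ℕ =>
            ∀ i, ((f i).1 * (n : ℤ) + (f i).2).toNat.Prime)).card : ℝ)) ∧
    (∀ (A : ℕ) (η : ℝ), 0 < η → ∀ᶠ N : ℕ in atTop, ∀ V : Finset (ℤ × ℤ),
      (∀ f ∈ V, Adf A N f) → AdmF z V → n₀ ≤ V.card →
      ∃ G : Finset (Fin (k + 1) → ℤ × ℤ),
        (∀ f ∈ G, (∀ i, f i ∈ V) ∧ Function.Injective f) ∧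
        (dn k - ε) * (V.card : ℝ) ^ (k + 1) ≤ (G.card : ℝ) ∧ ∀ f ∈ G,
          (N : ℝ) ^ (1 - η) ≤ (((Icc 1 N).filter (fun n : ℕ =>
            ∀ i, ((f i).1 * (n : ℤ) + (f i).2).toNat.Prime)).card : ℝ)) := by
  obtain ⟨z, n₀, h⟩ := formsU k ε hε
  refine ⟨z, n₀, ?_, ?_⟩
  · intro V hV hadm hn
    obtain ⟨A, hA⟩ := adf_ev V hV
    obtain ⟨G, h1, h2, h3⟩ := familyF (k := k) (ε := ε) (V := V) (fun η hη => by
      filter_upwards [h A η hη, hA] with N hN hNA using hN V hNA hadm hn)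
    refine ⟨G, h1, h2, fun η hη => (h3 η hη).mono fun N hN f hf => ?_⟩
    rw [← cntN_image]
    exact hN f hf
  · intro A η hη
    filter_upwards [h A η hη] with N hN V hVA hadm hn
    refine ⟨PhiF k V η N, fun f hf => ?_, hN V hVA hadm hn, fun f hf => ?_⟩
    · have := PhiF_mem hf
      exact ⟨this.1, this.2.1⟩
    · rw [← cntN_image]
      exact (PhiF_mem hf).2.2

end Pool.Agent.Y827.GS
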