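import Mathlib
import Pool.Agent.Y827.GS.Qc
import Pool.Agent.Y827.LS.VGc
import Pool.Agent.W142.TB.All
import Pool.Agent.W142.TF.NthJ

/-! Project GS: five ninths of the multiples of every sufficiently divisible number are differences
of primes of a given residue class, arbitrary moduli. -/

set_option autoImplicit false
open Filter Topology Finset

namespace Pool.Agent.Y827.GS

open Pool.Agent.H947R3.GM Pool.Agent.H732R3.BigQ Pool.Agent.W59.GB Pool.Agent.W142.TF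
open Pool.Agent.W142.TB

/-- a proportion `5 / 18` of the classes -/
theorem quarterGD (T : ℕ) : ∃ K : ℕ, 1 ≤ K ∧ ∀ (a b : Fin T → Fin K → ℤ), (∀ g i, 0 < a g i) →
    Function.Injective (fun x : Fin T × Fin K => (a x.1 x.2, b x.1 x.2)) →
    (∀ p : ℕ, p.Prime → ∃ n : ℤ, ∀ g i, ¬ ((p : ℤ) ∣ a g i * n + b g i)) →
    ∃ (S : Finset (Fin T)) (c : Fin T → Fin K), (T : ℝ) ≤ (18 / 5) * S.card ∧
      Big {n : ℕ | ∀ g ∈ S, 0 < a g (c g) * (n : ℤ) + b g (c g) ∧
        Prime (a g (c g) * (n : ℤ) + b g (c g))} := by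
  rcases Nat.eq_zero_or_pos T with hT | hT
  · subst hT
    refine ⟨1, le_rfl, ?_⟩
    intro a b _ _ _
    refine ⟨∅, fun _ => 0, by simp, ?_⟩
    simpa using big_univ
  have h4 : (0 : ℝ) < 18 / 5 := by norm_num
  set M : ℕ := ⌈(T : ℝ) / (18 / 5)⌉₊ - 1 with hM
  have hceil : 1 ≤ ⌈(T : ℝ) / (18 / 5)⌉₊ := by
    rw [Nat.one_le_ceil_iff]
    positivity
  have hM1 : (M : ℝ) + 1 = ⌈(T : ℝ) / (18 / 5)⌉₊ := by
    have : M + 1 = ⌈(T : ℝ) / (18 / 5)⌉₊ := by omega
    exact_mod_cast this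
  have hlt : (M : ℝ) < (T : ℝ) / (18 / 5) := by
    have := Nat.ceil_lt_add_one (a := (T : ℝ) / (18 / 5)) (by positivity)
    linarith
  have hTM : (18 / 5) * (M : ℝ) < T := by
    rw [lt_div_iff₀ h4] at hlt
    linarith
  obtain ⟨K, hK, H⟩ := quarterG T M hT hTM
  refine ⟨K, hK, ?_⟩
  intro a b ha hinj hadm
  obtain ⟨S, c, hS, hB⟩ := H a b ha hinj hadm
  refine ⟨S, c, ?_, hB⟩
  have h1 : (T : ℝ) / (18 / 5) ≤ S.card := by
    calc (T : ℝ) / (18 / 5) ≤ ⌈(T : ℝ) / (18 / 5)⌉₊ := Nat.le_ceil _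
      _ = (M : ℝ) + 1 := hM1.symm
      _ ≤ S.card := by exact_mod_cast hS
  rw [div_le_iff₀ h4] at h1
  linarith

/-- the coloured Maynard-Tao theorem for classes of shifts, all other shifts being blocked -/
theorem classes_blockP {n K : ℕ} (PF : Finset (Fin n) → Prop) (hQ : ∀ (a b : Fin n → Fin K → ℤ), (∀ g i, 0 < a g i) →
    Function.Injective (fun x : Fin n × Fin K => (a x.1 x.2, b x.1 x.2)) →
    (∀ p : ℕ, p.Prime → ∃ n : ℤ, ∀ g i, ¬ ((p : ℤ) ∣ a g i * n + b g i)) →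
    ∃ (S : Finset (Fin n)) (c : Fin n → Fin K), PF S ∧
      Big {n : ℕ | ∀ g ∈ S, 0 < a g (c g) * (n : ℤ) + b g (c g) ∧
        Prime (a g (c g) * (n : ℤ) + b g (c g))})
    {N a : ℕ} (hN : 0 < N) (ha : a.Coprime N) (H : Fin n → Fin K → ℕ) (hH : AdmN N H) :
    ∃ (Q r M : ℕ) (S : Finset (Fin n)) (c : Fin n → Fin K), 0 < Q ∧ N ∣ Q ∧ r ≡ a [MOD N] ∧ (∀ g i, N * H g i ≤ M) ∧
      PF S ∧
      Big {m : ℕ | (∀ g ∈ S, (Q * m + r + N * H g (c g)).Prime) ∧
        ∀ t ≤ M, (∀ g i, N * H g i ≠ t) → ¬ (Q * m + r + t).Prime} := by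
  classical
  set H' : Fin n → Fin K → ℕ := fun g i => N * H g i with hH'
  have hinjH' : Function.Injective (fun x : Fin n × Fin K => H' x.1 x.2) := by
    intro x y hxy
    exact hH.1 (Nat.eq_of_mul_eq_mul_left hN hxy)
  -- a bound for the shifts
  obtain ⟨M, hM⟩ : ∃ M, ∀ g i, H' g i ≤ M :=
    ⟨univ.sup fun x : Fin n × Fin K => H' x.1 x.2, fun g i =>
      le_sup (f := fun x : Fin n × Fin K => H' x.1 x.2) (mem_univ (g, i))⟩
  set q : ℕ → ℕ := fun t => Nat.nth Nat.Prime (M + N + t) with hq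
  have hqp : ∀ t, (q t).Prime := fun t => Nat.prime_nth_prime _
  have hqM : ∀ t, M + N + t < q t := fun t => by
    have := Nat.add_two_le_nth_prime (M + N + t)
    simp only [hq]; omega
  have hqinj : Function.Injective q := by
    intro s t hst
    have := Nat.nth_injective Nat.infinite_setOfPred_prime hst
    omega
  set U : Finset ℕ := (range (M + 1)).filter fun t => ∀ g i, H' g i ≠ t with hU
  have hpair : Set.Pairwise (U : Set ℕ) (Function.onFun Nat.Coprime q) := by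
    intro s _ t _ hst
    exact (Nat.coprime_primes (hqp s) (hqp t)).2 fun h => hst (hqinj h)
  obtain ⟨r₀, hr₀⟩ := Nat.chineseRemainderOfFinset (fun t => q t - t) q U
    (fun t _ => (hqp t).ne_zero) hpair
  set Q₀ : ℕ := ∏ t ∈ U, q t with hQ₀def
  have hQ₀ : 0 < Q₀ := prod_pos fun t _ => (hqp t).pos
  have hcopN : Nat.Coprime Q₀ N := by
    refine Nat.Coprime.prod_left fun t _ => ?_
    rw [Nat.Prime.coprime_iff_not_dvd (hqp t)]
    intro hd
    have h1 := Nat.le_of_dvd hN hd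
    have h2 := hqM t
    omega
  obtain ⟨r, hrQ, hrN⟩ := Nat.chineseRemainder hcopN r₀ a
  have hr' : ∀ t ∈ U, q t ∣ r + t := by
    intro t ht
    have h0 : r ≡ r₀ [MOD q t] := hrQ.of_dvd (dvd_prod_of_mem q ht)
    have h1 := (h0.trans (hr₀ t ht)).add_right t
    have h2 : q t - t + t = q t := by have := hqM t; omega
    rw [h2] at h1
    exact (Nat.modEq_zero_iff_dvd.1 (h1.trans (by simp [Nat.ModEq])))
  set Q : ℕ := Q₀ * N with hQdef
  have hQ0 : 0 < Q := Nat.mul_pos hQ₀ hN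
  obtain ⟨S, c, hS, hinf⟩ := hQ (fun _ _ => (Q : ℤ)) (fun g i => ((r + H' g i : ℕ) : ℤ))
    (fun _ _ => by exact_mod_cast hQ0)
    (by
      intro x y hxy
      apply hinjH'
      simp only [Prod.mk.injEq, Nat.cast_inj, true_and] at hxy
      exact Nat.add_left_cancel hxy)
    (by
      intro p hp
      by_cases hpN : p ∣ N
      · refine ⟨0, fun g i hd => ?_⟩
        rw [mul_zero, zero_add] at hd
        have hd' : p ∣ r + N * H g i := by exact_mod_cast hd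
        have h1 : p ∣ r := (Nat.dvd_add_left (hpN.mul_right _)).1 hd'
        have h2 : p ∣ a := by
          have h3 : r ≡ a [MOD p] := hrN.of_dvd hpN
          exact (h3.dvd_iff dvd_rfl).1 h1
        have h4 : p ∣ Nat.gcd a N := Nat.dvd_gcd h2 hpN
        rw [ha] at h4
        exact hp.one_lt.ne' (Nat.dvd_one.1 h4)
      by_cases hpQ : p ∣ Q₀
      · refine ⟨0, fun g i hd => ?_⟩
        obtain ⟨t, htU, hpt⟩ := (hp.prime.dvd_finsetProd_iff _).1 hpQ
        have hpq : p = q t := (Nat.prime_dvd_prime_iff_eq hp (hqp t)).1 hpt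
        rw [mul_zero, zero_add] at hd
        have hd' : q t ∣ r + H' g i := by rw [← hpq]; exact_mod_cast hd
        have h1 := hr' t htU
        have hne : H' g i ≠ t := (mem_filter.1 htU).2 g i
        have htM : t ≤ M := by
          have := (mem_filter.1 htU).1
          rw [mem_range] at this; omega
        have h2 : (q t : ℤ) ∣ (H' g i : ℤ) - t := by
          have h3 : (q t : ℤ) ∣ ((r + H' g i : ℕ) : ℤ) - ((r + t : ℕ) : ℤ) :=
            dvd_sub (by exact_mod_cast hd') (by exact_mod_cast h1)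
          push_cast at h3
          have e : (r : ℤ) + H' g i - (r + t) = H' g i - t := by ring
          rwa [e] at h3
        have h4 : |(H' g i : ℤ) - t| < q t := by
          have := hqM t
          have h5 := hM g i
          rw [abs_lt]
          constructor <;> omega
        have h6 := Int.eq_zero_of_abs_lt_dvd h2 h4
        omega
      · obtain ⟨n₀, hn₀⟩ := hH.2 p hp hpN
        have hpQ' : ¬ p ∣ Q := fun h => (hp.dvd_mul.1 h).elim hpQ hpN
        have hcop : IsCoprime (Q : ℤ) (p : ℤ) := by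
          rw [Nat.isCoprime_iff_coprime]
          exact ((Nat.Prime.coprime_iff_not_dvd hp).2 hpQ').symm
        obtain ⟨u, v, huv⟩ := hcop
        refine ⟨u * (N * n₀ - r), fun g i hd => ?_⟩
        have hd2 : (p : ℤ) ∣ N * (n₀ + H g i) := by
          have e : (N : ℤ) * (n₀ + H g i) = ((Q : ℤ) * (u * (N * n₀ - r)) + ((r + H' g i : ℕ) : ℤ)) +
              p * (v * (N * n₀ - r)) := by
            simp only [hH']
            push_cast
            linear_combination (-(N * n₀ - (r : ℤ))) * huv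
          rw [e]
          exact dvd_add hd (dvd_mul_right _ _)
        rcases (Nat.prime_iff_prime_int.1 hp).dvd_or_dvd hd2 with h1 | h1
        · exact hpN (by exact_mod_cast h1)
        · exact hn₀ g i h1)
  refine ⟨Q, r, M, S, c, hQ0, Dvd.intro_left _ rfl, hrN, hM, hS, Big.mono ?_ (big_ge hinf 2)⟩
  rintro m ⟨hm, hm2⟩
  refine ⟨fun g hg => ?_, ?_⟩
  · have := (hm g hg).2
    rw [Nat.prime_iff_prime_int]
    push_cast at this ⊢
    rwa [add_assoc]
  · intro t ht hne hpr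
    have htU : t ∈ U := by
      rw [hU, mem_filter, mem_range]; exact ⟨by omega, hne⟩
    have hqr := hr' t htU
    have hqQ : q t ∣ Q := (dvd_prod_of_mem q htU).mul_right N
    have h1 : q t ∣ Q * m + r + t := by
      rw [add_assoc]
      exact dvd_add (hqQ.mul_right m) hqr
    have h2 : q t = Q * m + r + t := (Nat.prime_dvd_prime_iff_eq (hqp t) hpr).1 h1
    have h3 : q t ≤ Q := Nat.le_of_dvd hQ0 hqQ
    have h4 := (hqp t).pos
    nlinarith

/-- the coloured Maynard-Tao theorem for classes of shifts, all other shifts being blocked, the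
constant `18 / 5`, arbitrary moduli -/
theorem cbG (n M' : ℕ) (hn : 1 ≤ n) (hM' : (18 / 5 : ℝ) * M' < n) :
    ∃ K : ℕ, 1 ≤ K ∧ ∀ N a : ℕ, 0 < N → a.Coprime N →
    ∀ H : Fin n → Fin K → ℕ, AdmN N H →
    ∃ (Q r M : ℕ) (S : Finset (Fin n)) (c : Fin n → Fin K), 0 < Q ∧ N ∣ Q ∧ r ≡ a [MOD N] ∧
      (∀ g i, N * H g i ≤ M) ∧ M' + 1 ≤ S.card ∧
      Big {m : ℕ | (∀ g ∈ S, (Q * m + r + N * H g (c g)).Prime) ∧
        ∀ t ≤ M, (∀ g i, N * H g i ≠ t) → ¬ (Q * m + r + t).Prime} := by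
  obtain ⟨K, hK, H0⟩ := quarterG n M' hn hM'
  refine ⟨K, hK, fun N a hN ha H hH => ?_⟩
  exact classes_blockP (fun S => M' + 1 ≤ S.card) H0 hN ha H hH

theorem winG (ε : ℝ) (hε : 0 < ε) : ∃ J : ℕ, ∀ (q a : ℕ), 0 < q → a.Coprime q →
    ∃ M : ℕ, 0 < M ∧ ∀ N : ℕ, 0 < N → M ∣ N → ∃ L : ℕ, ∀ T : ℕ, L ≤ T → ∀ u : ℕ,
      (5 / 9 - ε) * T ≤ ({k : ℕ | u < k ∧ k ≤ u + T ∧ N * k ∈ DiffJ J q a}.ncard : ℝ) := by
  classical
  obtain ⟨lam, hlam⟩ : ∃ lam : ℝ, lam = 18 / 5 := ⟨_, rfl⟩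
  rw [show (5 / 9 : ℝ) = 2 / lam by rw [hlam]; norm_num]
  obtain ⟨β, hβ⟩ : ∃ β : ℝ, β = 1 / lam := ⟨_, rfl⟩
  have h4 : 0 < lam := by linarith
  have hβ5 : 1 / 5 ≤ β := by
    rw [hβ, div_le_div_iff₀ (by norm_num) h4]; linarith
  have hβ2 : β ≤ 1 / 2 := by
    rw [hβ, div_le_div_iff₀ h4 (by norm_num)]; linarith
  have hβc : 2 / lam = 2 * β := by rw [hβ]; ring
  obtain ⟨n₀, hn₀⟩ := s_maiB β hβ5 hβ2 ε hε
  obtain ⟨n, hn⟩ : ∃ n, n = max n₀ 1 := ⟨_, rfl⟩
  have hnn₀ : n₀ ≤ n := by omega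
  have hn1 : 1 ≤ n := by omega
  have hn1' : (1 : ℝ) ≤ n := by exact_mod_cast hn1
  -- the number of classes
  obtain ⟨M', hM'⟩ : ∃ M', M' = ⌈β * n⌉₊ - 1 := ⟨_, rfl⟩
  have hβn : 0 < β * n := by positivity
  have hceil : 0 < ⌈β * n⌉₊ := Nat.ceil_pos.2 hβn
  have hM'1 : M' + 1 = ⌈β * n⌉₊ := by omega
  have hM'lt : (M' : ℝ) < β * n := by
    have h := Nat.ceil_lt_add_one hβn.le
    have h2 : ((M' + 1 : ℕ) : ℝ) = (⌈β * n⌉₊ : ℝ) := by rw [hM'1]
    push_cast at h2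
    linarith
  have hM'n : lam * M' < n := by
    have h : lam * M' < lam * (β * n) := mul_lt_mul_of_pos_left hM'lt h4
    have e : lam * (β * n) = n := by rw [hβ]; field_simp
    linarith
  obtain ⟨K, hK, hQ⟩ := cbG n M' hn1 (by rw [← hlam]; exact hM'n)
  refine ⟨n * K, fun q a hq ha => ?_⟩
  obtain ⟨M, hM, hall⟩ := windows (DiffJ (n * K) q a) (n * K).factorial (Nat.factorial_pos _) (2 * β) ε
    (fun hall => by
      obtain ⟨Q, A, s, hs, hQ1, hinj, hcr⟩ := hn₀ n hnn₀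
        {k : ℤ | (((n * K).factorial : ℕ) : ℤ) * k ∈ Cpl (DiffJ (n * K) q a)}
        (fun M hM => by
          obtain ⟨Q, h1, h2, h3⟩ := hall M hM
          exact ⟨Q, h1, h2, fun L₀ => h3 L₀⟩) (n * K)
      -- distinct points
      obtain ⟨σ, hσ1, hσ2⟩ := select_aux n K (fun g i => (Q g : ℤ) * A g i) (fun g => by
        intro x hx y hy hxy
        have hQ0 : (Q g : ℤ) ≠ 0 := by have := hQ1 g; omega
        exact hinj g hx hy (mul_left_cancel₀ hQ0 hxy)) n le_rfl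
      obtain ⟨H, C, hH⟩ := points n K (n * K).factorial Q (fun g i => A g (σ g i))
      have hM0 : (((n * K).factorial : ℕ) : ℤ) ≠ 0 := by exact_mod_cast (Nat.factorial_pos (n * K)).ne'
      have hHinj : ∀ (g g' : Fin n) (i i' : Fin K), H g i = H g' i' → g = g' ∧ i = i' := by
        intro g g' i i' h
        have e : (((n * K).factorial : ℕ) : ℤ) * (Q g * A g (σ g i) + C) =
            ((n * K).factorial : ℕ) * (Q g' * A g' (σ g' i') + C) := by rw [← hH, ← hH, h]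
        have e1 := mul_left_cancel₀ hM0 e
        have e2 : (Q g : ℤ) * A g (σ g i) = Q g' * A g' (σ g' i') := by linarith
        have e3 := hσ2 g g.2 g' g'.2 i i.2 i' i'.2 e2
        exact ⟨Fin.ext e3.1, Fin.ext e3.2⟩
      have hadm : AdmN q H := by
        refine admN_of' H (fun x y h => ?_) fun p hp hle g i => ?_
        · have := hHinj x.1 y.1 x.2 y.2 h
          exact Prod.ext this.1 this.2
        · rw [hH]
          exact Dvd.dvd.mul_right (Int.natCast_dvd_natCast.2 (Nat.dvd_factorial hp.pos hle)) _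
      obtain ⟨Qm, r, M, S, c, hQm, hNQ, hr, hM, hS, hB⟩ := hQ q a hq ha H hadm
      obtain ⟨i, hi, j, hj, hij⟩ := hs.2 (S.map Fin.valEmbedding) (fun x hx => by
        rw [Finset.mem_map] at hx
        obtain ⟨y, _, rfl⟩ := hx
        exact mem_range.2 y.2) (by
          rw [card_map]
          refine (Nat.le_ceil _).trans ?_
          rw [← hM'1]
          exact_mod_cast hS)
      rw [Finset.mem_map] at hi hj
      obtain ⟨i', hi', rfl⟩ := hi
      obtain ⟨j', hj', rfl⟩ := hj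
      have hd := hcr j' j'.2 i' hij (σ j' (c j')) (σ i' (c i')) (hσ1 _ j'.2 _ (c j').2) (hσ1 _ i'.2 _ (c i').2)
      have h := not_Cpl C (hH j' (c j')) (hH i' (c i')) hd
      rcases lt_or_gt_of_ne h.1 with hlt | hlt
      · exact h.2.1 hlt (diffJ_of hq H hQm hNQ hr hM hB hlt (fun m hm => hm.1 j' hj') (fun m hm => hm.1 i' hi')
          fun m hm => hm.2)
      · exact h.2.2 hlt (diffJ_of hq H hQm hNQ hr hM hB hlt (fun m hm => hm.1 i' hi') (fun m hm => hm.1 j' hj')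
          fun m hm => hm.2))
  refine ⟨M, hM, fun N hN hd => ?_⟩
  obtain ⟨L, hL⟩ := hall N hN hd
  refine ⟨L, fun T hT u => le_trans ?_ (hL T hT u)⟩
  exact mul_le_mul_of_nonneg_right (by linarith) (Nat.cast_nonneg _)

/-- in terms of the sequence of the primes -/
theorem winG' (ε : ℝ) (hε : 0 < ε) :
    ∃ J : ℕ, ∀ (q a : ℕ), 0 < q → a.Coprime q →
    ∃ M : ℕ, 0 < M ∧ ∀ N : ℕ, 0 < N → M ∣ N → ∃ L : ℕ, ∀ T : ℕ, L ≤ T → ∀ u : ℕ,
      (5 / 9 - ε) * T ≤ ({k : ℕ | u < k ∧ k ≤ u + T ∧ ∃ j : ℕ, 1 ≤ j ∧ j ≤ J ∧ ∀ η : ℝ, 0 < η →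
        ∃ᶠ x : ℝ in atTop, x ^ (1 - η) ≤ ({n : ℕ | (Nat.nth Nat.Prime n : ℝ) ≤ x ∧
            Nat.nth Nat.Prime n ≡ a [MOD q] ∧
            Nat.nth Nat.Prime (n + j) = Nat.nth Nat.Prime n + N * k}.ncard : ℝ)}.ncard : ℝ) := by
  classical
  obtain ⟨J, hJ⟩ := winG ε hε
  refine ⟨J, fun q a hq ha => ?_⟩
  obtain ⟨M, hM, h⟩ := hJ q a hq ha
  refine ⟨q * M, Nat.mul_pos hq hM, fun N hN hd => ?_⟩
  obtain ⟨t, rfl⟩ := hd
  have ht : 0 < t := Nat.pos_of_ne_zero (by rintro rfl; simp at hN)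
  obtain ⟨L, hL⟩ := h (M * t) (Nat.mul_pos hM ht) (Dvd.intro _ rfl)
  refine ⟨L, fun T hT u => (hL T hT u).trans ?_⟩
  rw [Nat.cast_le]
  refine Set.ncard_le_ncard ?_ ((Set.finite_Ioc u (u + T)).subset fun k hk => ⟨hk.1, hk.2.1⟩)
  rintro k ⟨h1, h2, h3⟩
  refine ⟨h1, h2, ?_⟩
  obtain ⟨j, hj1, hj2, h4⟩ := nthJ hq h3
  refine ⟨j, hj1, hj2, fun η hη => (h4 η hη).mono fun x hx => hx.trans ?_⟩
  have e : q * M * t * k = q * (M * t * k) := by ring
  rw [e]

end Pool.Agent.Y827.GS
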