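import Pool.Agent.Y827.GS.WUa
import Pool.Agent.TH899.UG.Bc
import Pool.Agent.W324.DC.BCF
import Pool.Agent.H442R2.BX.Pw

/-! Project GS: one box, fixed classes modulo `q`, factorable moduli; `q` arbitrary, with an
auxiliary squarefree odd number `l` coprime to `q` and to the moduli. -/

set_option autoImplicit false

namespace Pool.Agent.Y827.GS

open Finset
open Pool.Agent.H442R2
open Pool.Agent.H442R2.KF
open Pool.Agent.H442R2.BX
open Pool.Agent.TH899.UG (upg upg_mul upg_norm reindexg cofO_of)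
open Pool.Agent.W324.DC.TaskBCF (core)

/-- the identity: the variable `n` multiplied by `g` -/
theorem scale_id (i k κ J g : ℕ) (hg0 : 0 < g) (hκ1 : 2 ^ κ ≤ g * 2 ^ k)
    (hκ2 : g * 2 ^ k < 2 ^ (κ + 1)) (ψ : ℕ → ℝ → ℂ) (b : ℤ) (α β : ℕ → ℂ)
    (hαl : ∀ m, α m ≠ 0 → Nat.Coprime m g) :
    ∑ m ∈ Ioc (2 ^ i) (2 ^ (i + 1)),
        ∑ n ∈ (Ioc (2 ^ k) (2 ^ (k + 1))).filter (fun n => Nat.Coprime m n),
          α m * β n * FF ψ b J n m =
      (∑ m ∈ Ioc (2 ^ i) (2 ^ (i + 1)),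
      ∑ n ∈ (Ioc (2 ^ κ) (2 ^ (κ + 1))).filter (fun n => Nat.Coprime m n),
        α m * upg g k β n * FF (fun j s => ψ j (max (s / g) ((2 : ℝ) ^ (i + k)))) (b * (g : ℤ)) J n m) +
      ∑ m ∈ Ioc (2 ^ i) (2 ^ (i + 1)),
      ∑ n ∈ (Ioc (2 ^ (κ + 1)) (2 ^ (κ + 1 + 1))).filter (fun n => Nat.Coprime m n),
        α m * upg g k β n * FF (fun j s => ψ j (max (s / g) ((2 : ℝ) ^ (i + k)))) (b * (g : ℤ)) J n m := by
  have hgR : (0 : ℝ) < g := by exact_mod_cast hg0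
  rw [← Finset.sum_add_distrib]
  refine Finset.sum_congr rfl fun m hm => ?_
  rw [Finset.sum_filter, Finset.sum_filter, Finset.sum_filter]
  have hun : Ioc (2 ^ κ) (2 ^ (κ + 2)) =
      Ioc (2 ^ κ) (2 ^ (κ + 1)) ∪ Ioc (2 ^ (κ + 1)) (2 ^ (κ + 1 + 1)) := by
    rw [Finset.Ioc_union_Ioc_eq_Ioc]
    · exact Nat.pow_le_pow_right (by norm_num) (by omega)
    · exact Nat.pow_le_pow_right (by norm_num) (by omega)
  have hdj : Disjoint (Ioc (2 ^ κ) (2 ^ (κ + 1))) (Ioc (2 ^ (κ + 1)) (2 ^ (κ + 1 + 1))) := by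
    rw [Finset.disjoint_left]
    intro x hx hy
    rw [Finset.mem_Ioc] at hx hy
    omega
  rw [← Finset.sum_union hdj, ← hun]
  rw [reindexg g k κ hg0 hκ1 hκ2 (fun n => if Nat.Coprime m n then
    α m * upg g k β n * FF (fun j s => ψ j (max (s / g) ((2 : ℝ) ^ (i + k)))) (b * (g : ℤ)) J n m
      else 0) (by
      intro n' hn'
      have : upg g k β n' = 0 := by
        unfold upg
        rw [if_neg hn']
      simp [this])]
  refine Finset.sum_congr rfl fun n hn => ?_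
  rw [upg_mul g k hg0 β n hn]
  by_cases hm0 : α m = 0
  · simp [hm0]
  by_cases hn0 : β n = 0
  · simp [hn0]
  have hmg : Nat.Coprime m g := hαl m hm0
  rw [Finset.mem_Ioc] at hm hn
  have hnpos : 0 < n := lt_of_le_of_lt (Nat.zero_le _) hn.1
  by_cases hc : Nat.Coprime m n
  · have hc' : Nat.Coprime m (g * n) := Nat.Coprime.mul_right hmg hc
    rw [if_pos hc, if_pos hc']
    congr 1
    unfold FF
    refine Finset.sum_congr rfl fun j _ => ?_
    have e2 := KS.1 ((j : ℤ) * b) m g n hg0 hnpos hc'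
    have e3 : (j : ℤ) * (b * (g : ℤ)) = (j : ℤ) * b * g := by ring
    rw [e3, e2]
    congr 1
    simp only
    congr 1
    have e4 : (m : ℝ) * ((g * n : ℕ) : ℝ) / g = m * n := by
      push_cast
      field_simp
    rw [e4, max_eq_left]
    rw [pow_add]
    have h5 : (2 : ℝ) ^ i ≤ m := by exact_mod_cast hm.1.le
    have h6 : (2 : ℝ) ^ k ≤ n := by exact_mod_cast hn.1.le
    gcongr
  · have hc' : ¬ Nat.Coprime m (g * n) :=
      fun h => hc (Nat.Coprime.coprime_mul_left_right h)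
    rw [if_neg hc, if_neg hc']

/-- the weights of the scaled sum -/
theorem scale_wei (i k e g : ℕ) (hg0 : 0 < g) (he : (2 : ℝ) ^ e ≤ 2 * (g * 2 ^ k)) (V : ℝ)
    (hV : 1 ≤ V) (ψ : ℕ → ℝ → ℂ) (hψ : ∀ j, WeiP ((2 : ℝ) ^ (i + k)) V (ψ j)) (j : ℕ) :
    WeiP ((2 : ℝ) ^ (i + e)) (2 * V) ((fun j s => ψ j (max (s / g) ((2 : ℝ) ^ (i + k)))) j) := by
  have hgR : (0 : ℝ) < g := by exact_mod_cast hg0
  obtain ⟨P, hP⟩ : ∃ P : ℝ, P = (2 : ℝ) ^ (i + k) := ⟨_, rfl⟩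
  have hP0 : 0 < P := by rw [hP]; positivity
  have hQ0 : (0 : ℝ) < (2 : ℝ) ^ (i + e) := by positivity
  have hκ' : (2 : ℝ) ^ (i + e) ≤ 2 * (g * P) := by
    rw [hP, pow_add, pow_add]
    have h0 : (0 : ℝ) < 2 ^ i := by positivity
    calc (2 : ℝ) ^ i * 2 ^ e ≤ 2 ^ i * (2 * (g * 2 ^ k)) := mul_le_mul_of_nonneg_left he h0.le
      _ = _ := by ring
  refine ⟨?_, ?_⟩
  · intro s _
    exact (hψ j).bd _ (le_max_right _ _)
  · intro s s' _ _
    refine ((hψ j).lip _ _ (le_max_right _ _) (le_max_right _ _)).trans ?_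
    rw [← hP]
    have h3 : |max (s / g) P - max (s' / g) P| ≤ |s - s'| / g := by
      refine (abs_max_sub_max_le_abs _ _ _).trans (le_of_eq ?_)
      rw [← sub_div, abs_div, abs_of_pos hgR]
    rw [div_le_div_iff₀ hP0 hQ0]
    have h4 : 0 ≤ |s - s'| := abs_nonneg _
    calc V * |max (s / g) P - max (s' / g) P| * (2 : ℝ) ^ (i + e)
        ≤ V * (|s - s'| / g) * (2 * (g * P)) := by gcongr
      _ = 2 * V * |s - s'| * P := by field_simp

/-- BCF with the auxiliary number `l` -/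
def St_BCFl : Prop := ∀ θ δ : ℝ, 1 / 2 ≤ θ → θ < 5 / 9 → 0 < δ → ∃ (η C : ℝ), 0 < η ∧ 0 < C ∧
    ∀ (N q i k l : ℕ), 3 ≤ N → 1 ≤ q → 1 ≤ l → Odd l → Squarefree l → Nat.Coprime q l →
    (2 : ℝ) ^ i ≤ (N : ℝ) ^ θ → (2 : ℝ) ^ k ≤ (N : ℝ) ^ θ →
    2 * ((l : ℝ) * (2 : ℝ) ^ k) ≤ (N : ℝ) ^ θ → 2 ^ i ≤ l * 2 ^ k →
    ∀ (a a' σ : ℤ), |(a : ℝ)| ≤ N → |(a' : ℝ)| ≤ N → a ≠ a' → (σ = 1 ∨ σ = -1) →
    ∀ c c' : ℕ → ℝ, CofO (q * l) c → CofO (q * l) c' →
    (∀ d, c' d ≠ 0 → FX.FacD N θ δ d) → ∀ r r' : ℕ,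
    (∀ d, c d ≠ 0 → d % q = r) → (∀ d, c' d ≠ 0 → d % q = r') →
    ‖∑ j ∈ Icc 1 (JB N i k), ∑ d ∈ bx q i,
      ∑ d' ∈ (Ioc (2 ^ k) (2 ^ (k + 1))).filter (fun d' => Nat.Coprime d d'),
        trB N a a' q σ c c' j d d'‖ ≤
      C * (l : ℝ) ^ 2 * (2 : ℝ) ^ (max i k - min i k) * (N : ℝ) ^ (1 - η)

/-- BCF with the auxiliary number `l` -/
theorem BCFl : St_BCFl := by
  intro θ δ hθ1 hθ2 hδ
  have hε : 0 < δ / 24 := by positivity
  obtain ⟨C0', hC0', H⟩ := WUa (δ / 24) hε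
  obtain ⟨C0, hC0d⟩ : ∃ C0 : ℝ, C0 = C0' * 2 ^ (δ / 24) * 2 := ⟨_, rfl⟩
  have hC0 : 0 < C0 := by rw [hC0d]; positivity
  have hK2 : 0 < C0 * (100 : ℝ) ^ (δ / 24) * 4000 * (36 / δ) ^ 3 := by positivity
  obtain ⟨K, hK0, hKK⟩ : ∃ K : ℝ, 0 < K ∧
      K ^ 2 = C0 * (100 : ℝ) ^ (δ / 24) * 4000 * (36 / δ) ^ 3 :=
    ⟨Real.sqrt _, Real.sqrt_pos.2 hK2, Real.sq_sqrt hK2.le⟩
  refine ⟨δ / 12, 8 * (84 / δ * K), by positivity, by positivity, ?_⟩
  intro N q i k l hN hq hl1 hlo hls hql hi hk hlk hil a a' σ ha ha' haa hσ c c' hcl hcl' hf' r r'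
    hr hr'
  have hc : CofO q c := cofO_of hcl
  have hc' : CofO q c' := cofO_of hcl'
  set J := JB N i k with hJdef
  have hN' : (3 : ℝ) ≤ N := by exact_mod_cast hN
  have hNpos : (0 : ℝ) < N := by linarith
  have hN1 : (1 : ℝ) ≤ N := by linarith
  have hlog : 1 ≤ Real.log N := by
    rw [Real.le_log_iff_exp_le (by linarith)]
    have := Real.exp_one_lt_d9
    linarith
  have hlR : (1 : ℝ) ≤ l := by exact_mod_cast hl1
  have hl0 : 0 < l := by omega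
  obtain ⟨P, hP⟩ : ∃ P : ℝ, P = (2 : ℝ) ^ (i + k) := ⟨_, rfl⟩
  obtain ⟨L, hL⟩ : ∃ L : ℝ, L = (2 : ℝ) ^ (max i k - min i k) := ⟨_, rfl⟩
  have hP1 : 1 ≤ P := by rw [hP]; exact one_le_pow₀ (by norm_num)
  have hL1 : 1 ≤ L := by rw [hL]; exact one_le_pow₀ (by norm_num)
  have hP0 : 0 < P := by linarith
  have hkP : ((2 : ℝ) ^ k) ^ 2 ≤ P * L := by
    rw [hP, hL, ← pow_mul, ← pow_add]
    apply pow_le_pow_right₀ (by norm_num)
    have h1 : k ≤ max i k := le_max_right _ _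
    have h2 : min i k ≤ i := min_le_left _ _
    omega
  have hJle : (J : ℝ) * N ≤ 4 * P * Real.log N := by
    have h1 : (J : ℝ) ≤ 4 * P * Real.log N / N := by
      rw [hJdef, hP]
      exact Nat.floor_le (by positivity)
    rwa [le_div_iff₀ hNpos] at h1
  rw [← hL]
  -- no frequency
  rcases Nat.eq_zero_or_pos J with hJ0 | hJpos
  · rw [hJ0]
    simp only [zero_lt_one, Finset.Icc_eq_empty_of_lt, Finset.sum_empty, norm_zero]
    positivity
  have hσ1 : |(σ : ℝ)| = 1 := by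
    rcases hσ with h | h <;> rw [h] <;> norm_num
  obtain ⟨ω, hω⟩ : ∃ ω : ℕ → ℂ, ω = fun j : ℕ => kf (-(σ * (j : ℤ) * a)) ((r * r' : ℕ) : ℤ) q :=
    ⟨_, rfl⟩
  have hωn : ∀ j, ‖ω j‖ ≤ 1 := by
    intro j
    rw [hω]
    exact (norm_kf _ _ _).le
  have hW : ∀ j : ℕ, WeiP ((2 : ℝ) ^ (i + k)) (100 * Real.log N)
      (psB N J a ((2 : ℝ) ^ (i + k)) σ ω j) := by
    intro j
    rw [← hP]
    exact PW N J hN a ha P hP1 σ hσ ω hωn hJle j
  have hb : |((σ * (a' - a) : ℤ) : ℝ)| * J ≤ 100 * Real.log N * (2 : ℝ) ^ (i + k) := by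
    rw [← hP]
    push_cast
    rw [abs_mul, hσ1, one_mul]
    have h1 : |(a' : ℝ) - a| ≤ 2 * N := by
      have := abs_sub (a' : ℝ) (a : ℝ)
      linarith
    calc |(a' : ℝ) - a| * J ≤ (2 * N) * J := by gcongr
      _ = 2 * ((J : ℝ) * N) := by ring
      _ ≤ 2 * (4 * P * Real.log N) := by linarith
      _ ≤ _ := by
        have : 0 ≤ P * Real.log N := by positivity
        nlinarith
  have hσk : σ * (a' - a) ≠ 0 := by
    apply mul_ne_zero
    · rcases hσ with h | h <;> rw [h] <;> norm_num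
    · exact sub_ne_zero.2 haa.symm
  rw [TaskBC.sum_eq N q i k J hq a a' σ c c' hc hc' r r' hr hr', norm_mul, Complex.norm_real,
    Real.norm_eq_abs, abs_of_nonneg (by positivity)]
  -- coefficients
  obtain ⟨α, hα⟩ : ∃ α : ℕ → ℂ, α = fun m => if q ∣ m then (c (m / q) : ℂ) else 0 := ⟨_, rfl⟩
  obtain ⟨β, hβ⟩ : ∃ β : ℕ → ℂ, β = fun n => (c' n : ℂ) := ⟨_, rfl⟩
  have hα1 : ∀ m, ‖α m‖ ≤ 1 := by
    intro m
    rw [hα]
    show ‖(if q ∣ m then (c (m / q) : ℂ) else 0)‖ ≤ 1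
    split_ifs
    · rw [Complex.norm_real]; exact hc.bd _
    · simp
  have hβ1 : ∀ n, ‖β n‖ ≤ 1 := by
    intro n
    rw [hβ]
    show ‖(c' n : ℂ)‖ ≤ 1
    rw [Complex.norm_real]; exact hc'.bd _
  have hαl : ∀ m, α m ≠ 0 → Nat.Coprime m l := by
    intro m hm
    have hqm : q ∣ m := by
      by_contra h
      exact hm (by rw [hα]; exact if_neg h)
    have hcm : c (m / q) ≠ 0 := by
      intro h
      apply hm
      rw [hα]
      show (if q ∣ m then (c (m / q) : ℂ) else 0) = 0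
      rw [if_pos hqm, h]
      simp
    have h2 := hcl.cop _ hcm
    have h3 : Nat.Coprime (m / q) l :=
      Nat.Coprime.coprime_mul_left_right (Nat.Coprime.coprime_mul_left_right h2)
    have h4 : m = q * (m / q) := (Nat.mul_div_cancel' hqm).symm
    rw [h4]
    exact Nat.Coprime.mul_left hql h3
  have hβs : ∀ n, upg l k β n ≠ 0 → Squarefree n ∧ Odd n ∧ ∃ s : ℕ, s ∣ n ∧
      (N : ℝ) ^ (2 * θ - 1 + δ) ≤ s ∧ (s : ℝ) ≤ (N : ℝ) ^ (4 - 7 * θ - δ) := by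
    intro n hn
    unfold upg at hn
    split_ifs at hn with h
    · have hcn : c' (n / l) ≠ 0 := by
        intro h0
        apply hn
        rw [hβ]
        show (c' (n / l) : ℂ) = 0
        rw [h0]
        simp
      have h2 := hcl'.cop _ hcn
      have h3 : Odd (n / l) := Nat.coprime_two_right.1 (Nat.Coprime.coprime_mul_right_right h2)
      have h3l : Nat.Coprime (n / l) l :=
        Nat.Coprime.coprime_mul_left_right (Nat.Coprime.coprime_mul_left_right h2)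
      have h4 : n = l * (n / l) := (Nat.mul_div_cancel' h.1).symm
      obtain ⟨hsq, s, hs1, hs2, hs3⟩ := hf' _ hcn
      refine ⟨?_, ?_, s, ?_, hs2, hs3⟩
      · rw [h4]
        exact (Nat.squarefree_mul h3l.symm).2 ⟨hls, hsq⟩
      · rw [h4]
        exact hlo.mul h3
      · rw [h4]
        exact hs1.mul_left l
    · exact absurd rfl hn
  -- the dyadic range of the scaled variable
  set κ := Nat.log 2 (l * 2 ^ k) with hκ
  have hlk0 : l * 2 ^ k ≠ 0 := by positivity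
  have hκ1 : 2 ^ κ ≤ l * 2 ^ k := Nat.pow_log_le_self 2 hlk0
  have hκ2 : l * 2 ^ k < 2 ^ (κ + 1) := Nat.lt_pow_succ_log_self (by norm_num) _
  have hiκ : i ≤ κ := by
    have h3 : 2 ^ i < 2 ^ (κ + 1) := lt_of_le_of_lt hil hκ2
    have := (Nat.pow_lt_pow_iff_right (by norm_num : 1 < 2)).1 h3
    omega
  have hkκ : k ≤ κ := by
    have h3 : 2 ^ k < 2 ^ (κ + 1) := lt_of_le_of_lt (Nat.le_mul_of_pos_left _ hl0) hκ2
    have := (Nat.pow_lt_pow_iff_right (by norm_num : 1 < 2)).1 h3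
    omega
  have hκ1R : (2 : ℝ) ^ κ ≤ l * 2 ^ k := by exact_mod_cast hκ1
  have hκ2R : (l : ℝ) * 2 ^ k ≤ 2 ^ (κ + 1) := by exact_mod_cast hκ2.le
  have hκ3R : (2 : ℝ) ^ (κ + 1) ≤ 2 * (l * 2 ^ k) := by rw [pow_succ]; linarith
  -- one dyadic range
  have hone : ∀ e : ℕ, κ ≤ e → e ≤ κ + 1 →
      ‖∑ m ∈ Ioc (2 ^ i) (2 ^ (i + 1)),
        ∑ n ∈ (Ioc (2 ^ e) (2 ^ (e + 1))).filter (fun n => Nat.Coprime m n),
          α m * upg l k β n * FF (fun j s => psB N J a ((2 : ℝ) ^ (i + k)) σ ω j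
            (max (s / l) ((2 : ℝ) ^ (i + k)))) (σ * (a' - a) * (l : ℤ)) J n m‖ ≤
      84 / δ * K * (N : ℝ) ^ (-(δ / 12)) * (2 * (l * 2 ^ k)) ^ 2 := by
    intro e he1 he2
    have he3 : (2 : ℝ) ^ e ≤ 2 * (l * 2 ^ k) :=
      (pow_le_pow_right₀ (by norm_num) he2).trans hκ3R
    have hie : i ≤ e := hiκ.trans he1
    have hke : k ≤ e := hkκ.trans he1
    have hMθ : (2 : ℝ) ^ e ≤ (N : ℝ) ^ θ := he3.trans hlk
    have hJM : (J : ℝ) * N ≤ 4 * ((2 : ℝ) ^ e) ^ 2 * Real.log N := by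
      refine hJle.trans ?_
      have h1 : P ≤ ((2 : ℝ) ^ e) ^ 2 := by
        rw [hP, ← pow_mul]
        exact pow_le_pow_right₀ (by norm_num) (by omega)
      gcongr
    have e1 : ∑ m ∈ Ioc (2 ^ i) (2 ^ (i + 1)),
        ∑ n ∈ (Ioc (2 ^ e) (2 ^ (e + 1))).filter (fun n => Nat.Coprime m n),
          α m * upg l k β n * FF (fun j s => psB N J a ((2 : ℝ) ^ (i + k)) σ ω j
            (max (s / l) ((2 : ℝ) ^ (i + k)))) (σ * (a' - a) * (l : ℤ)) J n m =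
        ∑ n ∈ Ioc (2 ^ e) (2 ^ (e + 1)), upg l k β n *
            ∑ m ∈ (Ioc (2 ^ i) (2 ^ (i + 1))).filter (fun m => Nat.Coprime n m),
              α m * FF (fun j s => psB N J a ((2 : ℝ) ^ (i + k)) σ ω j
            (max (s / l) ((2 : ℝ) ^ (i + k)))) (σ * (a' - a) * (l : ℤ)) J n m := by
      have e2 : ∑ m ∈ Ioc (2 ^ i) (2 ^ (i + 1)),
          ∑ n ∈ (Ioc (2 ^ e) (2 ^ (e + 1))).filter (fun n => Nat.Coprime m n),
            α m * upg l k β n * FF (fun j s => psB N J a ((2 : ℝ) ^ (i + k)) σ ω j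
            (max (s / l) ((2 : ℝ) ^ (i + k)))) (σ * (a' - a) * (l : ℤ)) J n m =
          ∑ m ∈ Ioc (2 ^ i) (2 ^ (i + 1)), ∑ n ∈ (Ioc (2 ^ e) (2 ^ (e + 1))),
            if Nat.Coprime m n then
            α m * upg l k β n * FF (fun j s => psB N J a ((2 : ℝ) ^ (i + k)) σ ω j
            (max (s / l) ((2 : ℝ) ^ (i + k)))) (σ * (a' - a) * (l : ℤ)) J n m else 0 :=
        Finset.sum_congr rfl fun m _ => Finset.sum_filter _ _
      rw [e2, Finset.sum_comm]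
      refine Finset.sum_congr rfl fun n _ => ?_
      rw [Finset.mul_sum, Finset.sum_filter]
      refine Finset.sum_congr rfl fun m _ => ?_
      by_cases hmn : Nat.Coprime m n
      · rw [if_pos hmn, if_pos hmn.symm]
        ring
      · rw [if_neg hmn, if_neg (fun h => hmn (Nat.Coprime.symm h))]
    rw [e1]
    refine (core hθ1 hθ2 hδ hC0 hK0 hKK N e J hN hMθ hJM
      (fun n => ∑ m ∈ (Ioc (2 ^ i) (2 ^ (i + 1))).filter (fun m => Nat.Coprime n m),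
            α m * FF (fun j s => psB N J a ((2 : ℝ) ^ (i + k)) σ ω j
            (max (s / l) ((2 : ℝ) ^ (i + k)))) (σ * (a' - a) * (l : ℤ)) J n m)
      (upg l k β) (upg_norm l k β hβ1) hβs ?_).trans ?_
    · intro S hS γ hγ1 hγ2
      have hbl : σ * (a' - a) * (l : ℤ) ≠ 0 := mul_ne_zero hσk (by exact_mod_cast hl0.ne')
      have hbJ : |((σ * (a' - a) * (l : ℤ) : ℤ) : ℝ)| * J ≤
          2 * (100 * Real.log N) * (2 : ℝ) ^ (i + e) := by
        have h1 : |((σ * (a' - a) * (l : ℤ) : ℤ) : ℝ)| = |((σ * (a' - a) : ℤ) : ℝ)| * l := by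
          push_cast
          rw [abs_mul, abs_of_pos (by linarith : (0 : ℝ) < l)]
        have h2 : (l : ℝ) * 2 ^ k ≤ 2 * 2 ^ e := by
          have : (2 : ℝ) ^ (κ + 1) ≤ 2 * 2 ^ e := by
            rw [pow_succ]
            have := pow_le_pow_right₀ (by norm_num : (1 : ℝ) ≤ 2) he1
            linarith
          linarith
        rw [h1]
        calc |((σ * (a' - a) : ℤ) : ℝ)| * l * J = (|((σ * (a' - a) : ℤ) : ℝ)| * J) * l := by ring
          _ ≤ (100 * Real.log N * (2 : ℝ) ^ (i + k)) * l :=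
              mul_le_mul_of_nonneg_right hb (by linarith)
          _ = 100 * Real.log N * 2 ^ i * (l * 2 ^ k) := by rw [pow_add]; ring
          _ ≤ 100 * Real.log N * 2 ^ i * (2 * 2 ^ e) := by gcongr
          _ = _ := by rw [pow_add]; ring
      have key := H i e S J hie hS hJpos (2 * (100 * Real.log N)) (by linarith)
        (fun j s => psB N J a ((2 : ℝ) ^ (i + k)) σ ω j (max (s / l) ((2 : ℝ) ^ (i + k))))
        (scale_wei i k e l hl0 he3 (100 * Real.log N) (by linarith) _ hW)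
        (σ * (a' - a) * (l : ℤ)) hbl hbJ γ α hγ1 hα1 hγ2
      refine le_trans (le_of_eq ?_) (key.trans ?_)
      · congr 2
        refine Finset.sum_congr rfl fun s _ => Finset.sum_congr rfl fun r _ => ?_
        show γ r s * ∑ m ∈ (Ioc (2 ^ i) (2 ^ (i + 1))).filter (fun m => Nat.Coprime (r * s) m),
          α m * FF (fun j s => psB N J a ((2 : ℝ) ^ (i + k)) σ ω j
            (max (s / l) ((2 : ℝ) ^ (i + k)))) (σ * (a' - a) * (l : ℤ)) J (r * s) m = _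
        rw [Finset.mul_sum]
        exact Finset.sum_congr rfl fun n _ => by ring
      · apply mul_le_mul_of_nonneg_right _ (by positivity)
        have h1 : (2 * (100 * Real.log N) * (2 : ℝ) ^ e) ^ (δ / 24) =
            2 ^ (δ / 24) * (100 * Real.log N * (2 : ℝ) ^ e) ^ (δ / 24) := by
          rw [← Real.mul_rpow (by norm_num) (by positivity)]
          congr 1
          ring
        rw [h1, hC0d]
        apply le_of_eq
        ring
    · gcongr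
  have hS : ‖∑ m ∈ Ioc (2 ^ i) (2 ^ (i + 1)),
        ∑ n ∈ (Ioc (2 ^ k) (2 ^ (k + 1))).filter (fun n => Nat.Coprime m n),
          α m * β n * FF (psB N J a ((2 : ℝ) ^ (i + k)) σ ω) (σ * (a' - a)) J n m‖ ≤
      8 * (84 / δ * K) * (N : ℝ) ^ (-(δ / 12)) * (l ^ 2 * (2 ^ k) ^ 2) := by
    rw [scale_id i k κ J l hl0 hκ1 hκ2 (psB N J a ((2 : ℝ) ^ (i + k)) σ ω) (σ * (a' - a)) α β hαl]
    refine (norm_add_le _ _).trans ((add_le_add (hone κ le_rfl (by omega))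
      (hone (κ + 1) (by omega) le_rfl)).trans (le_of_eq ?_))
    ring
  rw [hα, hβ, hω] at hS
  rw [← hP]
  rw [← hP] at hS
  calc (N : ℝ) / P * _
      ≤ (N : ℝ) / P * (8 * (84 / δ * K) * (N : ℝ) ^ (-(δ / 12)) * (l ^ 2 * (2 ^ k) ^ 2)) :=
        mul_le_mul_of_nonneg_left hS (by positivity)
    _ ≤ (N : ℝ) / P * (8 * (84 / δ * K) * (N : ℝ) ^ (-(δ / 12)) * (l ^ 2 * (P * L))) := by gcongr
    _ = 8 * (84 / δ * K) * (l : ℝ) ^ 2 * L * ((N : ℝ) * (N : ℝ) ^ (-(δ / 12))) := by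
        field_simp
    _ = _ := by
        have : (N : ℝ) * (N : ℝ) ^ (-(δ / 12)) = (N : ℝ) ^ (1 - δ / 12) := by
          rw [sub_eq_add_neg, Real.rpow_add hNpos, Real.rpow_one]
        rw [this]

end Pool.Agent.Y827.GS
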