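import Pool.Agent.Y827.GS.Bcf
import Pool.Agent.W324.DC.COF
import Pool.Agent.W324.DC.BBF
import Pool.Agent.TH899.UG.Co

/-! Project GS: all classes modulo `q` and all boxes, factorable moduli, `q` arbitrary, with an
auxiliary number `l`. -/

set_option autoImplicit false

namespace Pool.Agent.Y827.GS

open Finset
open Pool.Agent.H442R2
open Pool.Agent.H442R2.KF
open Pool.Agent.H442R2.BX
open Pool.Agent.TH899.UG (cofO_of cl_cof')
open Pool.Agent.W324.DC (facD_mono cl_ne)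

/-- BBF with the auxiliary number -/
def St_BBFl : Prop := ∀ θ δ : ℝ, 1 / 2 ≤ θ → θ < 5 / 9 → 0 < δ → ∃ (η C : ℝ), 0 < η ∧ 0 < C ∧
    ∀ (N q i k l : ℕ), 3 ≤ N → 1 ≤ q → 1 ≤ l → Odd l → Squarefree l → Nat.Coprime q l →
    (2 : ℝ) ^ i ≤ (N : ℝ) ^ θ → (2 : ℝ) ^ k ≤ (N : ℝ) ^ θ →
    2 * ((l : ℝ) * (2 : ℝ) ^ k) ≤ (N : ℝ) ^ θ → 2 ^ i ≤ l * 2 ^ k →
    ∀ (a a' σ : ℤ), |(a : ℝ)| ≤ N → |(a' : ℝ)| ≤ N → a ≠ a' → (σ = 1 ∨ σ = -1) →
    ∀ c c' : ℕ → ℝ, CofO (q * l) c → CofO (q * l) c' →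
    (∀ d, c' d ≠ 0 → FX.FacD N θ δ d) →
    ‖∑ j ∈ Icc 1 (JB N i k), ∑ d ∈ bx q i,
      ∑ d' ∈ (Ioc (2 ^ k) (2 ^ (k + 1))).filter (fun d' => Nat.Coprime d d'),
        trB N a a' q σ c c' j d d'‖ ≤
      C * (q : ℝ) ^ 2 * (l : ℝ) ^ 2 * (2 : ℝ) ^ (max i k - min i k) * (N : ℝ) ^ (1 - η)

/-- COF with the auxiliary number -/
def St_COFl : Prop := ∀ θ δ : ℝ, 1 / 2 ≤ θ → θ < 5 / 9 → 0 < δ →
    ∃ (ε₀ η C : ℝ), 0 < ε₀ ∧ 0 < η ∧ 0 < C ∧ ∀ e : ℝ, 0 < e → e ≤ ε₀ →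
    ∀ (N q D0 X l : ℕ), 2 ≤ N → 1 ≤ q → 1 ≤ l → Odd l → Squarefree l → Nat.Coprime q l →
    (q : ℝ) ≤ (N : ℝ) ^ e → 2 * (N : ℝ) ^ (2 * e) ≤ l → (l : ℝ) ≤ (N : ℝ) ^ (4 * e) →
    (X : ℝ) ≤ (N : ℝ) ^ θ → 1 ≤ D0 → (X : ℝ) ≤ (N : ℝ) ^ e * D0 →
    ∀ (a a' : ℤ), |(a : ℝ)| ≤ N → |(a' : ℝ)| ≤ N → a ≠ a' →
    ∀ c c' : ℕ → ℝ, CofO (q * l) c → CofO (q * l) c' →
    (∀ d, c' d ≠ 0 → FX.FacD N θ δ d) →
    |∑ d ∈ Ioc D0 X, ∑ d' ∈ (Ioc D0 X).filter (fun d' => Nat.Coprime d d'), c d * c' d' *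
      (SE N a a' q d d' - N / (q * d * d'))| ≤ C * (N : ℝ) ^ (1 - η)

open TaskBB in
theorem BBFl (hBC : St_BCFl) : St_BBFl := by
  intro θ δ hθ1 hθ2 hδ
  obtain ⟨η, C, hη, hC, h⟩ := hBC θ δ hθ1 hθ2 hδ
  refine ⟨η, C, hη, hC, ?_⟩
  intro N q i k l hN hq hl1 hlo hls hql hi hk hlk hil a a' σ ha ha' hne hσ c c' hc hc' hf'
  have key : T N q i k a a' σ c c' =
      ∑ r ∈ range q, ∑ r' ∈ range q, T N q i k a a' σ (cl q c r) (cl q c' r') := by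
    conv_lhs => rw [← cl_sum q hq c, ← cl_sum q hq c']
    rw [T_left]
    refine Finset.sum_congr rfl fun r _ => ?_
    rw [T_right]
  have hb : ∀ r r', ‖T N q i k a a' σ (cl q c r) (cl q c' r')‖ ≤
      C * (l : ℝ) ^ 2 * (2 : ℝ) ^ (max i k - min i k) * (N : ℝ) ^ (1 - η) := fun r r' =>
    h N q i k l hN hq hl1 hlo hls hql hi hk hlk hil a a' σ ha ha' hne hσ (cl q c r) (cl q c' r')
      (cl_cof' hc r) (cl_cof' hc' r') (fun d hd => hf' d (cl_ne q c' r' d hd)) r r'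
      (fun d hd => cl_mod q c r d hd)
      (fun d hd => cl_mod q c' r' d hd)
  show ‖T N q i k a a' σ c c'‖ ≤ _
  rw [key]
  calc ‖∑ r ∈ range q, ∑ r' ∈ range q, T N q i k a a' σ (cl q c r) (cl q c' r')‖
      ≤ ∑ r ∈ range q, ∑ r' ∈ range q,
          C * (l : ℝ) ^ 2 * (2 : ℝ) ^ (max i k - min i k) * (N : ℝ) ^ (1 - η) :=
        norm_sum_le_of_le _ fun r _ => norm_sum_le_of_le _ fun r' _ => hb r r'
    _ = C * (q : ℝ) ^ 2 * (l : ℝ) ^ 2 * (2 : ℝ) ^ (max i k - min i k) * (N : ℝ) ^ (1 - η) := by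
        rw [Finset.sum_const, Finset.sum_const, Finset.card_range, nsmul_eq_mul, nsmul_eq_mul]
        ring

open TaskCO in
/-- COF with the auxiliary number -/
theorem COFl (hBB : St_BBFl) (hSV : St_SV) : St_COFl := by
  intro θ δ hθ2 hθ3 hδ
  obtain ⟨κ, hκ⟩ : ∃ κ : ℝ, κ = min ((5 / 9 - θ) / 2) (δ / 16) := ⟨_, rfl⟩
  have hκ1 : κ ≤ (5 / 9 - θ) / 2 := hκ ▸ min_le_left _ _
  have hκ2 : κ ≤ δ / 16 := hκ ▸ min_le_right _ _
  have hκ0 : 0 < κ := by rw [hκ]; exact lt_min (by linarith) (by positivity)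
  obtain ⟨θ', hθ'⟩ : ∃ θ' : ℝ, θ' = θ + κ := ⟨_, rfl⟩
  have h4 : θ < θ' := by rw [hθ']; linarith
  have h5 : θ' < 5 / 9 := by rw [hθ']; linarith
  obtain ⟨η₁, C₁, hη₁, hC₁, hBB'⟩ := hBB θ' (δ / 2) (by linarith) h5 (by linarith)
  obtain ⟨N₀, hSV'⟩ := hSV
  obtain ⟨η₂, hη₂⟩ : ∃ η₂ : ℝ, η₂ = min η₁ 1 := ⟨_, rfl⟩
  have h6 : 0 < η₂ := by rw [hη₂]; exact lt_min hη₁ one_pos
  have h7 : η₂ ≤ η₁ := hη₂ ▸ min_le_left _ _
  have h8 : η₂ ≤ 1 := hη₂ ▸ min_le_right _ _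
  obtain ⟨ε₀, hε₀⟩ : ∃ ε₀ : ℝ, ε₀ = min (κ / 16) (η₂ / 64) := ⟨_, rfl⟩
  have h9 : 0 < ε₀ := by rw [hε₀]; exact lt_min (by linarith) (by positivity)
  have h10 : ε₀ ≤ κ / 16 := hε₀ ▸ min_le_left _ _
  have h11 : ε₀ ≤ η₂ / 64 := hε₀ ▸ min_le_right _ _
  obtain ⟨N₅, hN₅⟩ : ∃ N₅ : ℕ, ∀ N : ℕ, N₅ ≤ N → (2 : ℝ) ≤ (N : ℝ) ^ (κ / 2) := by
    have h := ((tendsto_rpow_atTop (by positivity : 0 < κ / 2)).comp
      tendsto_natCast_atTop_atTop).eventually (Filter.eventually_ge_atTop (2 : ℝ))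
    obtain ⟨N₃, h3⟩ := Filter.eventually_atTop.1 h
    exact ⟨N₃, fun N hN => h3 N hN⟩
  obtain ⟨C₂, hC₂, hclog⟩ := clog_le (η₂ / 8) (by positivity)
  obtain ⟨K₀, hK₀⟩ : ∃ K₀ : ℝ, K₀ = ∑ N ∈ range (max (max N₀ N₅) 4),
    (N : ℝ) ^ 2 * ((∑' n : ℤ, Wt N n) + N) := ⟨_, rfl⟩
  have hKterm : ∀ N : ℕ, 0 ≤ (N : ℝ) ^ 2 * ((∑' n : ℤ, Wt N n) + N) := by
    intro N
    have : 0 ≤ ∑' n : ℤ, Wt N n := tsum_nonneg fun n => (Real.exp_pos _).le
    positivity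
  have hK₀' : 0 ≤ K₀ := by rw [hK₀]; exact sum_nonneg fun N _ => hKterm N
  refine ⟨ε₀, η₂ / 2, K₀ + C₂ ^ 2 * (2 + 4 * C₁), h9, by positivity, by positivity, ?_⟩
  intro e he0 he1
  have h10' : e ≤ κ / 16 := he1.trans h10
  have h11' : e ≤ η₂ / 64 := he1.trans h11
  clear h9 h10 h11 hε₀ he1
  intro N q D0 X l hN hq hl1 hlo hls hql hqN hlL hlN hX hD hXD a a' ha ha' haa c c' hcl hcl' hf'
  have hc : CofO q c := cofO_of hcl
  have hc' : CofO q c' := cofO_of hcl'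
  have hN1 : (1 : ℝ) ≤ N := by
    have : 1 ≤ N := by omega
    exact_mod_cast this
  have hN0 : (0 : ℝ) < N := by linarith
  have hX' : (X : ℝ) ≤ (N : ℝ) ^ θ := hX
  have hXN : X ≤ N := by
    have : (X : ℝ) ≤ (N : ℝ) ^ (1 : ℝ) :=
      hX'.trans (Real.rpow_le_rpow_of_exponent_le hN1 (by linarith))
    rw [Real.rpow_one] at this
    exact_mod_cast this
  have hη : (1 : ℝ) ≤ (N : ℝ) ^ (1 - η₂ / 2) := Real.one_le_rpow hN1 (by linarith)
  have hC2' : 0 ≤ C₂ ^ 2 * (2 + 4 * C₁) := by positivity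
  rcases lt_or_ge N (max (max N₀ N₅) 4) with hsm | hlg
  · have h12 := triv N (by omega) q D0 X hXN a a' hq c c' hc hc'
    have h13 : (N : ℝ) ^ 2 * ((∑' n : ℤ, Wt N n) + N) ≤ K₀ := by
      rw [hK₀]
      exact single_le_sum (f := fun N : ℕ => (N : ℝ) ^ 2 * ((∑' n : ℤ, Wt N n) + N))
        (fun N _ => hKterm N) (mem_range.2 hsm)
    calc _ ≤ K₀ := h12.trans h13
      _ ≤ (K₀ + C₂ ^ 2 * (2 + 4 * C₁)) * 1 := by linarith
      _ ≤ _ := mul_le_mul_of_nonneg_left hη (by positivity)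
  · have hNN₀ : N₀ ≤ N := (le_max_left _ _).trans ((le_max_left _ _).trans hlg)
    have hNN₅ : N₅ ≤ N := (le_max_right _ _).trans ((le_max_left _ _).trans hlg)
    have hN4 : 4 ≤ N := (le_max_right _ _).trans hlg
    have h2N := hN₅ N hNN₅
    have hq1 : (1 : ℝ) ≤ q := by exact_mod_cast hq
    have hl1R : (1 : ℝ) ≤ l := by exact_mod_cast hl1
    have hqX : (q : ℝ) * X ≤ (N : ℝ) ^ θ' := by
      calc (q : ℝ) * X ≤ (N : ℝ) ^ e * (N : ℝ) ^ θ :=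
            mul_le_mul hqN hX' (Nat.cast_nonneg _) (by positivity)
        _ = (N : ℝ) ^ (e + θ) := (Real.rpow_add hN0 _ _).symm
        _ ≤ (N : ℝ) ^ θ' := Real.rpow_le_rpow_of_exponent_le hN1 (by linarith)
    have hTN : (N : ℝ) ^ θ' ≤ N := by
      have : (N : ℝ) ^ θ' ≤ (N : ℝ) ^ (1 : ℝ) :=
        Real.rpow_le_rpow_of_exponent_le hN1 (by linarith)
      rwa [Real.rpow_one] at this
    have hqXN : q * X ≤ N := by exact_mod_cast hqX.trans hTN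
    have hL : q * X ≤ 2 ^ (Nat.clog 2 N) := hqXN.trans (Nat.le_pow_clog (by norm_num) _)
    rw [boxes q D0 X (Nat.clog 2 N) hq hD hL c c'
      (fun d d' => SE N a a' q d d' - N / (q * d * d'))]
    -- restricted coefficients
    have hr : ∀ (q : ℕ) (b : ℕ → ℝ), CofO q b →
        CofO q (fun d => if d ∈ Ioc D0 X then b d else 0) := by
      intro q b hb
      refine ⟨fun d => ?_, fun d hd => ?_⟩
      · by_cases h : d ∈ Ioc D0 X
        · simp only [if_pos h]; exact hb.bd d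
        · simp only [if_neg h]; simp
      · by_cases h : d ∈ Ioc D0 X
        · simp only [if_pos h] at hd; exact hb.cop d hd
        · simp only [if_neg h] at hd; exact absurd rfl hd
    have hrs : ∀ b : ℕ → ℝ, ∀ d, (fun d => if d ∈ Ioc D0 X then b d else 0) d ≠ 0 →
        d ∈ Ioc D0 X := by
      intro b d hd
      by_contra h
      simp only [if_neg h] at hd
      exact hd rfl
    have hrf : ∀ b : ℕ → ℝ, (∀ d, b d ≠ 0 → FX.FacD N θ δ d) →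
        ∀ d, (fun d => if d ∈ Ioc D0 X then b d else 0) d ≠ 0 → FX.FacD N θ' (δ / 2) d := by
      intro b hb d hd
      have h : d ∈ Ioc D0 X := hrs b d hd
      simp only [if_pos h] at hd
      exact facD_mono hN1 (by rw [hθ']; linarith) (by rw [hθ']; linarith) (hb d hd)
    have hqN2 : (q : ℝ) ^ 2 ≤ (N : ℝ) ^ (2 * e) := by
      calc (q : ℝ) ^ 2 ≤ ((N : ℝ) ^ e) ^ 2 := pow_le_pow_left₀ (by positivity) hqN 2
        _ = (N : ℝ) ^ (2 * e) := by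
            rw [← Real.rpow_natCast, ← Real.rpow_mul hN0.le]
            congr 1
            push_cast
            ring
    have hlN2 : (l : ℝ) ^ 2 ≤ (N : ℝ) ^ (8 * e) := by
      calc (l : ℝ) ^ 2 ≤ ((N : ℝ) ^ (4 * e)) ^ 2 := pow_le_pow_left₀ (by positivity) hlN 2
        _ = (N : ℝ) ^ (8 * e) := by
            rw [← Real.rpow_natCast, ← Real.rpow_mul hN0.le]
            congr 1
            push_cast
            ring
    have hRR : (q : ℝ) * X ≤ (N : ℝ) ^ (2 * e) * D0 := by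
      calc (q : ℝ) * X ≤ (N : ℝ) ^ e * ((N : ℝ) ^ e * D0) :=
            mul_le_mul hqN hXD (Nat.cast_nonneg _) (by positivity)
        _ = ((N : ℝ) ^ e * (N : ℝ) ^ e) * D0 := by ring
        _ = (N : ℝ) ^ (2 * e) * D0 := by
            rw [← Real.rpow_add hN0]
            congr 2
            ring
    have hbox : ∀ i k : ℕ, |∑ d ∈ bx q i,
        ∑ d' ∈ (Ioc (2 ^ k) (2 ^ (k + 1))).filter (fun d' => Nat.Coprime d d'),
        (if d ∈ Ioc D0 X then c d else 0) * (if d' ∈ Ioc D0 X then c' d' else 0) *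
          (SE N a a' q d d' - N / (q * d * d'))| ≤ (2 + 4 * C₁) * (N : ℝ) ^ (1 - 3 * η₂ / 4) := by
      intro i k
      by_cases hrel : ∃ d ∈ bx q i, d ∈ Ioc D0 X ∧ ∃ d' ∈ Ioc (2 ^ k) (2 ^ (k + 1)), d' ∈ Ioc D0 X
      · obtain ⟨d, hd1, hd2, d', hd1', hd2'⟩ := hrel
        rw [mem_bx hq] at hd1
        rw [mem_Ioc] at hd2 hd1' hd2'
        have hlk : 2 * ((l : ℝ) * (2 : ℝ) ^ k) ≤ (N : ℝ) ^ θ' := by
          have g1 : (2 : ℝ) ^ k ≤ (N : ℝ) ^ θ := by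
            refine le_trans ?_ hX
            have : (2 : ℕ) ^ k ≤ X := hd1'.1.le.trans hd2'.2
            exact_mod_cast this
          calc 2 * ((l : ℝ) * (2 : ℝ) ^ k) ≤
              (N : ℝ) ^ (κ / 2) * ((N : ℝ) ^ (4 * e) * (N : ℝ) ^ θ) := by gcongr
            _ = (N : ℝ) ^ (κ / 2 + (4 * e + θ)) := by
                rw [← Real.rpow_add hN0, ← Real.rpow_add hN0]
            _ ≤ _ := Real.rpow_le_rpow_of_exponent_le hN1 (by rw [hθ']; linarith)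
        have hil : 2 ^ i ≤ l * 2 ^ k := by
          have g1 : (2 : ℝ) ^ i ≤ (l : ℝ) * 2 ^ k := by
            have g2 : (2 : ℝ) ^ i ≤ q * X := by
              have : 2 ^ i ≤ q * X := hd1.1.le.trans (Nat.mul_le_mul_left q hd2.2)
              exact_mod_cast this
            have g3 : (D0 : ℝ) ≤ 2 * 2 ^ k := by
              have : D0 ≤ 2 ^ (k + 1) := hd2'.1.le.trans hd1'.2
              have g4 : ((D0 : ℕ) : ℝ) ≤ ((2 ^ (k + 1) : ℕ) : ℝ) := by exact_mod_cast this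
              push_cast at g4
              rw [pow_succ] at g4
              linarith
            calc (2 : ℝ) ^ i ≤ q * X := g2
              _ ≤ (N : ℝ) ^ (2 * e) * D0 := hRR
              _ ≤ (N : ℝ) ^ (2 * e) * (2 * 2 ^ k) := by gcongr
              _ = (2 * (N : ℝ) ^ (2 * e)) * 2 ^ k := by ring
              _ ≤ _ := by gcongr
          exact_mod_cast g1
        have h12 := box N hN4 (hSV' N hNN₀) ((N : ℝ) ^ θ')
          (C₁ * (q : ℝ) ^ 2 * (l : ℝ) ^ 2 * (N : ℝ) ^ (1 - η₁))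
          q i k hq a a' _ _ (hr q c hc) (hr q c' hc')
          (fun hi hk σ hσ => by
            have := hBB' N q i k l (by omega) hq hl1 hlo hls hql hi hk hlk hil a a' σ ha ha' haa
              hσ _ _ (hr _ c hcl) (hr _ c' hcl') (hrf c' hf')
            refine this.trans (le_of_eq ?_)
            ring)
          D0 X hD (hrs c) (hrs c') hqX hTN (by positivity) ((N : ℝ) ^ (2 * e)) hRR
        refine h12.trans ?_
        have h13 : C₁ * (q : ℝ) ^ 2 * (l : ℝ) ^ 2 * (N : ℝ) ^ (1 - η₁) * (N : ℝ) ^ (2 * e) ≤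
            C₁ * (N : ℝ) ^ (1 - 3 * η₂ / 4) := by
          calc C₁ * (q : ℝ) ^ 2 * (l : ℝ) ^ 2 * (N : ℝ) ^ (1 - η₁) * (N : ℝ) ^ (2 * e) ≤
              C₁ * (N : ℝ) ^ (2 * e) * (N : ℝ) ^ (8 * e) * (N : ℝ) ^ (1 - η₁) *
                (N : ℝ) ^ (2 * e) := by gcongr
            _ = C₁ * ((N : ℝ) ^ (2 * e) * (N : ℝ) ^ (8 * e) * (N : ℝ) ^ (1 - η₁) *
                (N : ℝ) ^ (2 * e)) := by ring
            _ = C₁ * (N : ℝ) ^ (2 * e + 8 * e + (1 - η₁) + 2 * e) := by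
                rw [← Real.rpow_add hN0, ← Real.rpow_add hN0, ← Real.rpow_add hN0]
            _ ≤ C₁ * (N : ℝ) ^ (1 - 3 * η₂ / 4) := by
                refine mul_le_mul_of_nonneg_left ?_ hC₁.le
                exact Real.rpow_le_rpow_of_exponent_le hN1 (by linarith)
        have h14 : (1 : ℝ) ≤ (N : ℝ) ^ (1 - 3 * η₂ / 4) := Real.one_le_rpow hN1 (by linarith)
        nlinarith
      · have h0 : ∑ d ∈ bx q i,
            ∑ d' ∈ (Ioc (2 ^ k) (2 ^ (k + 1))).filter (fun d' => Nat.Coprime d d'),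
            (if d ∈ Ioc D0 X then c d else 0) * (if d' ∈ Ioc D0 X then c' d' else 0) *
              (SE N a a' q d d' - N / (q * d * d')) = 0 := by
          refine sum_eq_zero fun d hd => sum_eq_zero fun d' hd' => ?_
          rw [mem_filter] at hd'
          by_cases g1 : d ∈ Ioc D0 X
          · have g2 : ¬ d' ∈ Ioc D0 X := fun h => hrel ⟨d, hd, g1, d', hd'.1, h⟩
            rw [if_neg g2, mul_zero, zero_mul]
          · rw [if_neg g1, zero_mul, zero_mul]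
        rw [h0, abs_zero]
        positivity
    have hcl := hclog N hN
    have hcl0 : (0 : ℝ) ≤ ((Nat.clog 2 N : ℕ) : ℝ) := Nat.cast_nonneg _
    calc _ ≤ ∑ i ∈ range (Nat.clog 2 N), ∑ k ∈ range (Nat.clog 2 N),
          (2 + 4 * C₁) * (N : ℝ) ^ (1 - 3 * η₂ / 4) := by
          refine (abs_sum_le_sum_abs _ _).trans (sum_le_sum fun i _ => ?_)
          refine (abs_sum_le_sum_abs _ _).trans (sum_le_sum fun k _ => ?_)
          exact hbox i k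
      _ = ((Nat.clog 2 N : ℕ) : ℝ) * (((Nat.clog 2 N : ℕ) : ℝ) *
          ((2 + 4 * C₁) * (N : ℝ) ^ (1 - 3 * η₂ / 4))) := by
          rw [sum_const, sum_const, card_range, nsmul_eq_mul, nsmul_eq_mul]
      _ ≤ (C₂ * (N : ℝ) ^ (η₂ / 8)) * ((C₂ * (N : ℝ) ^ (η₂ / 8)) *
          ((2 + 4 * C₁) * (N : ℝ) ^ (1 - 3 * η₂ / 4))) := by
          have h15 : 0 ≤ (2 + 4 * C₁) * (N : ℝ) ^ (1 - 3 * η₂ / 4) := by positivity
          refine mul_le_mul hcl (mul_le_mul_of_nonneg_right hcl h15) (by positivity)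
            (by positivity)
      _ = C₂ ^ 2 * (2 + 4 * C₁) * ((N : ℝ) ^ (η₂ / 8) * (N : ℝ) ^ (η₂ / 8) *
          (N : ℝ) ^ (1 - 3 * η₂ / 4)) := by ring
      _ = C₂ ^ 2 * (2 + 4 * C₁) * (N : ℝ) ^ (1 - η₂ / 2) := by
          rw [← Real.rpow_add hN0, ← Real.rpow_add hN0]
          congr 2
          ring
      _ ≤ (K₀ + C₂ ^ 2 * (2 + 4 * C₁)) * (N : ℝ) ^ (1 - η₂ / 2) := by
          refine mul_le_mul_of_nonneg_right (by linarith) (by positivity)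

end Pool.Agent.Y827.GS
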