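import Pool.Agent.W142.TB.All
import Pool.Agent.Y827.GS.Nin

/-! Project GS: five ninths of the multiples in windows, for an arbitrary set of differences of many
classes (after `Pool.Agent.W142.TB.Fin`). -/

set_option autoImplicit false
open Filter Topology Finset

namespace Pool.Agent.Y827.GS

open Pool.Agent.H947R3.GM Pool.Agent.W59.GB Pool.Agent.W142.TF Pool.Agent.W142.TB

/-- `n` depends only on `lam` and `ε` -/
theorem mthG (lam : ℝ) (hl2 : 2 ≤ lam) (hl5 : lam ≤ 5) (ε : ℝ) (hε : 0 < ε) :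
    ∃ n : ℕ, 1 ≤ n ∧ ∀ (K : ℕ) (G : Set ℕ),
    (∀ H : Fin n → Fin K → ℕ, Function.Injective (fun x : Fin n × Fin K => H x.1 x.2) →
      (∀ g i, (n * K).factorial ∣ H g i) →
      ∃ (F : Finset (Fin n)) (c : Fin n → Fin K), (n : ℝ) ≤ lam * F.card ∧
        ∀ g ∈ F, ∀ g' ∈ F, H g (c g) < H g' (c g') → H g' (c g') - H g (c g) ∈ G) →
    ∃ M : ℕ, 0 < M ∧ ∀ N : ℕ, 0 < N → M ∣ N → ∃ L : ℕ, ∀ T : ℕ, L ≤ T → ∀ u : ℕ,
      (2 / lam - ε) * T ≤ ({k : ℕ | u < k ∧ k ≤ u + T ∧ N * k ∈ G}.ncard : ℝ) := by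
  classical
  obtain ⟨β, hβ⟩ : ∃ β : ℝ, β = 1 / lam := ⟨_, rfl⟩
  have h4 : 0 < lam := by linarith
  have hβ5 : 1 / 5 ≤ β := by
    rw [hβ, div_le_div_iff₀ (by norm_num) h4]; linarith
  have hβ2 : β ≤ 1 / 2 := by
    rw [hβ, div_le_div_iff₀ h4 (by norm_num)]; linarith
  have hβc : 2 / lam = 2 * β := by rw [hβ]; ring
  obtain ⟨n₀, hn₀⟩ := s_maiB β hβ5 hβ2 ε hε
  obtain ⟨n, hn⟩ : ∃ n, n = max n₀ 1 := ⟨_, rfl⟩
  have hnn₀ : n₀ ≤ n := by omega
  have hn1 : 1 ≤ n := by omega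
  refine ⟨n, hn1, fun K G hQ => ?_⟩
  obtain ⟨M, hM, hall⟩ := windows G (n * K).factorial (Nat.factorial_pos _) (2 * β) ε
    (fun hall => by
      obtain ⟨Q, A, s, hs, hQ1, hinj, hcr⟩ := hn₀ n hnn₀
        {k : ℤ | (((n * K).factorial : ℕ) : ℤ) * k ∈ Cpl G}
        (fun M hM => by
          obtain ⟨Q, h1, h2, h3⟩ := hall M hM
          exact ⟨Q, h1, h2, fun L₀ => h3 L₀⟩) (n * K)
      -- distinct points
      obtain ⟨σ, hσ1, hσ2⟩ := select_aux n K (fun g i => (Q g : ℤ) * A g i) (fun g => by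
        intro x hx y hy hxy
        have hQ0 : (Q g : ℤ) ≠ 0 := by have := hQ1 g; omega
        exact hinj g hx hy (mul_left_cancel₀ hQ0 hxy)) n le_rfl
      obtain ⟨H, C, hH⟩ := points n K (n * K).factorial Q (fun g i => A g (σ g i))
      have hM0 : (((n * K).factorial : ℕ) : ℤ) ≠ 0 := by exact_mod_cast (Nat.factorial_pos (n * K)).ne'
      have hHinj : ∀ (g g' : Fin n) (i i' : Fin K), H g i = H g' i' → g = g' ∧ i = i' := by
        intro g g' i i' h
        have e : (((n * K).factorial : ℕ) : ℤ) * (Q g * A g (σ g i) + C) =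
            ((n * K).factorial : ℕ) * (Q g' * A g' (σ g' i') + C) := by rw [← hH, ← hH, h]
        have e1 := mul_left_cancel₀ hM0 e
        have e2 : (Q g : ℤ) * A g (σ g i) = Q g' * A g' (σ g' i') := by linarith
        have e3 := hσ2 g g.2 g' g'.2 i i.2 i' i'.2 e2
        exact ⟨Fin.ext e3.1, Fin.ext e3.2⟩
      obtain ⟨S, c, hS, hB⟩ := hQ H (fun x y h => by
        have := hHinj x.1 y.1 x.2 y.2 h
        exact Prod.ext this.1 this.2) (fun g i => by
        have h1 : (((n * K).factorial : ℕ) : ℤ) ∣ (H g i : ℤ) := by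
          rw [hH]
          exact dvd_mul_right _ _
        exact_mod_cast h1)
      obtain ⟨i, hi, j, hj, hij⟩ := hs.2 (S.map Fin.valEmbedding) (fun x hx => by
        rw [Finset.mem_map] at hx
        obtain ⟨y, _, rfl⟩ := hx
        exact mem_range.2 y.2) (by
          rw [card_map, hβ, one_div, inv_mul_le_iff₀ h4]
          exact hS)
      rw [Finset.mem_map] at hi hj
      obtain ⟨i', hi', rfl⟩ := hi
      obtain ⟨j', hj', rfl⟩ := hj
      have hd := hcr j' j'.2 i' hij (σ j' (c j')) (σ i' (c i')) (hσ1 _ j'.2 _ (c j').2) (hσ1 _ i'.2 _ (c i').2)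
      have h := not_Cpl C (hH j' (c j')) (hH i' (c i')) hd
      rcases lt_or_gt_of_ne h.1 with hlt | hlt
      · exact h.2.1 hlt (hB j' hj' i' hi' hlt)
      · exact h.2.2 hlt (hB i' hi' j' hj' hlt))
  refine ⟨M, hM, fun N hN hd => ?_⟩
  obtain ⟨L, hL⟩ := hall N hN hd
  refine ⟨L, fun T hT u => le_trans ?_ (hL T hT u)⟩
  exact mul_le_mul_of_nonneg_right (by linarith) (Nat.cast_nonneg _)

end Pool.Agent.Y827.GS
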