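import Mathlib
import Pool.Agent.TH899.UG.OGm
import Pool.Agent.Y827.GS.OGd

/-! Project GS: gaps between the primes of orbits `x ↦ D x + e`: five ninths (after
`Pool.Agent.TH899.UG.OGm`). -/

set_option autoImplicit false

namespace Pool.Agent.Y827.GS

open Finset Filter Pool.Agent.H447R3.IT Pool.Agent.H732R3.BigQ
open Pool.Agent.W218.OG (Pr GapO GapJ pr_nat big_count B_two)
open Pool.Agent.TH899.UG Pool.Agent.TH899.UG.OG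

/-- five ninths: boundedly many primes in between -/
theorem generalG (ε : ℝ) (hε : 0 < ε) : ∃ J : ℕ, ∀ (D : ℕ) (e : ℤ) (m : ℕ), 2 ≤ D → e ≠ 0 →
    IsCoprime e (D : ℤ) → 0 < m → (∀ p : ℕ, p.Prime → p ∣ D - 1 → (p : ℤ) ∣ e * m) →
    ∃ M : ℕ, 0 < M ∧ ∀ N : ℕ, 0 < N → M ∣ N → ∃ L : ℕ, ∀ T : ℕ, L ≤ T → ∀ u : ℕ,
      (5 / 9 - ε) * T ≤ ({k : ℕ | u < k ∧ k ≤ u + T ∧ N * k ∈ GapJ D e m J}.ncard : ℝ) := by
  obtain ⟨n, hn1, hn⟩ := mthG (18 / 5) (by norm_num) (by norm_num) ε hε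
  obtain ⟨K, hK, hQ⟩ := quarterGD n
  rw [show (2 / (18 / 5) : ℝ) = 5 / 9 by norm_num] at hn
  refine ⟨n * K, ?_⟩
  intro D e m hD he hcop hm0 hm
  refine hn K (GapJ D e m (n * K)) fun H hinj _ => ?_
  exact classesO D e m hD he hcop hm0 hm (fun S => (n : ℝ) ≤ (18 / 5) * S.card) hQ H hinj

/-- the second conclusion for an orbit `a` of natural numbers -/
theorem transferG (ε : ℝ) (hε : 0 < ε) : ∃ J : ℕ, ∀ (D : ℕ) (e : ℤ) (m : ℕ), 2 ≤ D → e ≠ 0 →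
    IsCoprime e (D : ℤ) → 0 < m → (∀ p : ℕ, p.Prime → p ∣ D - 1 → (p : ℤ) ∣ e * m) →
    ∀ (a : ℕ → ℕ → ℕ), (∀ p j : ℕ, p.Prime → ((a p j : ℕ) : ℤ) = (S D e)^[j] (p : ℤ)) →
    ∃ M : ℕ, 0 < M ∧ ∀ N : ℕ, 0 < N → M ∣ N → ∃ L : ℕ, ∀ T : ℕ, L ≤ T → ∀ u : ℕ,
      (5 / 9 - ε) * (T : ℝ) ≤ ({k : ℕ | u < k ∧ k ≤ u + T ∧ ∀ η : ℝ, 0 < η → ∃ᶠ x : ℝ in atTop,
        x ^ (1 - η) ≤ ({p : ℕ | (p : ℝ) ≤ x ∧ p.Prime ∧ (a p (N * k)).Prime ∧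
          {l : ℕ | 0 < l ∧ l < N * k ∧ (a p l).Prime}.ncard ≤ J}.ncard : ℝ)}.ncard : ℝ) := by
  obtain ⟨J, h⟩ := generalG ε hε
  refine ⟨J, ?_⟩
  intro D e m hD he hcop hm0 hm a ha
  obtain ⟨M', hM', h2⟩ := h D e m hD he hcop hm0 hm
  have hpr : ∀ p j : ℕ, p.Prime → (Pr ((S D e)^[j] (p : ℤ)) ↔ (a p j).Prime) := by
    intro p j hp
    rw [← ha p j hp, pr_nat]
  refine ⟨m * M', Nat.mul_pos hm0 hM', fun N hN hd => ?_⟩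
  obtain ⟨t, rfl⟩ := hd
  have ht : 0 < t := Nat.pos_of_ne_zero (by rintro rfl; simp at hN)
  obtain ⟨L, hL⟩ := h2 (M' * t) (Nat.mul_pos hM' ht) (dvd_mul_right _ _)
  refine ⟨L, fun T hT u => (hL T hT u).trans ?_⟩
  rw [Nat.cast_le]
  refine Set.ncard_le_ncard ?_ ((Set.finite_Ioc u (u + T)).subset fun k hk => ⟨hk.1, hk.2.1⟩)
  rintro k ⟨hk1, hk2, hk3⟩
  refine ⟨hk1, hk2, big_count (Big.mono ?_ hk3)⟩
  rintro p ⟨hp, hp1, hp2⟩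
  have e1 : m * (M' * t * k) = m * M' * t * k := by ring
  rw [e1] at hp1 hp2
  refine ⟨hp, (hpr p _ hp).1 hp1, le_trans (le_of_eq ?_) hp2⟩
  congr 1
  ext l
  simp only [Set.mem_ofPred_eq]
  rw [hpr p l hp]

end Pool.Agent.Y827.GS
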