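import Pool.Agent.Y827.GS.Cof
import Pool.Agent.TH899.UG.Ttc

/-! Project GS: shifting the class modulo `q`, and the coprime pairs of factorable moduli, `q`
arbitrary, with an auxiliary number `l`. -/

set_option autoImplicit false

namespace Pool.Agent.Y827.GS

open Finset
open Pool.Agent.H442R2
open Pool.Agent.H442R2.KF
open Pool.Agent.H442R2.BX.TaskEX
open Pool.Agent.W23.PL
open Pool.Agent.W462.PL (diff_bound)
open Pool.Agent.H442R2.BX.TaskNC (Wt_le_one summable_ite card_roughs)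
open Pool.Agent.TH899.UG (cofO_of)

/-- COS with the auxiliary number, factorable moduli -/
def St_COSFl : Prop := ∀ θ δ : ℝ, 1 / 2 ≤ θ → θ < 5 / 9 → 0 < δ → ∃ ε₀ η : ℝ, 0 < ε₀ ∧ 0 < η ∧
    ∀ ε : ℝ, 0 < ε → ∃ C : ℝ, 0 < C ∧ ∀ e : ℝ, 0 < e → e ≤ ε₀ →
    ∀ (N q D0 X l : ℕ), 2 ≤ N → 1 ≤ q → 1 ≤ l → Odd l → Squarefree l → Nat.Coprime q l →
    (q : ℝ) ≤ (N : ℝ) ^ e → 2 * (N : ℝ) ^ (2 * e) ≤ l → (l : ℝ) ≤ (N : ℝ) ^ (4 * e) →
    (X : ℝ) ≤ (N : ℝ) ^ θ → 1 ≤ D0 → (X : ℝ) ≤ (N : ℝ) ^ e * D0 →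
    ∀ (b a a' : ℤ), |(b : ℝ)| ≤ q → |(a : ℝ)| ≤ N - (N : ℝ) ^ (1 / 2 : ℝ) →
    |(a' : ℝ)| ≤ N - (N : ℝ) ^ (1 / 2 : ℝ) → a ≠ a' →
    ∀ c c' : ℕ → ℝ, BX.CofO (q * l) c → BX.CofO (q * l) c' → BX.CofR ((N : ℝ) ^ ε) X c →
    BX.CofR ((N : ℝ) ^ ε) X c' → (∀ d, c' d ≠ 0 → FX.FacD N θ δ d) →
    |∑ d ∈ Ioc D0 X, ∑ d' ∈ (Ioc D0 X).filter (fun d' => Nat.Coprime d d'), c d * c' d' *
      (SEb N b a a' q d d' - N / (q * d * d'))| ≤ C * (N : ℝ) ^ (1 - η)

/-- TTC with the auxiliary number, factorable moduli -/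
def St_TTCFl : Prop := ∀ θ δ : ℝ, 1 / 2 ≤ θ → θ < 5 / 9 → 0 < δ → ∃ ε₀ η : ℝ, 0 < ε₀ ∧ 0 < η ∧
    ∀ ε : ℝ, 0 < ε → ∃ C : ℝ, 0 < C ∧ ∀ e : ℝ, 0 < e → e ≤ ε₀ →
    ∀ (N q D0 X l : ℕ), 2 ≤ N → 1 ≤ q → 1 ≤ l → Odd l → Squarefree l → Nat.Coprime q l →
    (q : ℝ) ≤ (N : ℝ) ^ e → 2 * (N : ℝ) ^ (2 * e) ≤ l → (l : ℝ) ≤ (N : ℝ) ^ (4 * e) →
    (X : ℝ) ≤ (N : ℝ) ^ θ → 1 ≤ D0 → (X : ℝ) ≤ (N : ℝ) ^ e * D0 →
    ∀ (b a a' : ℤ), |(b : ℝ)| ≤ q → |(a : ℝ)| ≤ N - (N : ℝ) ^ (1 / 2 : ℝ) →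
    |(a' : ℝ)| ≤ N - (N : ℝ) ^ (1 / 2 : ℝ) → a ≠ a' →
    ∀ c c' : ℕ → ℝ, BX.CofO (q * l) c → BX.CofO (q * l) c' → BX.CofR ((N : ℝ) ^ ε) X c →
    BX.CofR ((N : ℝ) ^ ε) X c' → (∀ d, c' d ≠ 0 → FX.FacD N θ δ d) →
    |∑ d ∈ Ioc D0 X, ∑ d' ∈ (Ioc D0 X).filter (fun d' => Nat.Coprime d d'), c d * c' d' *
      ∑' n : ℤ, (if (q : ℤ) ∣ n - b then Wt N n else 0) * (BX.dl d (n - a) * BX.dl d' (n - a'))| ≤
      C * (N : ℝ) ^ (1 - η)

/-- shifting the class modulo `q` -/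
theorem COSFl (hCOU : St_COFl) (hRC : BX.St_RC) (hGS : BX.St_GS) : St_COSFl := by
  intro θ δ hθ12 hθ1 hδ
  have hθ : 0 < θ := by linarith
  obtain ⟨ε₁, η₁, C₁, hε₁, hη₁, hC₁, hcou⟩ := hCOU θ δ hθ12 hθ1 hδ
  set η : ℝ := min η₁ (min (1 - θ) (3 / 4)) with hη
  have hη0 : 0 < η := lt_min hη₁ (lt_min (by linarith) (by norm_num))
  have hη1 : η ≤ η₁ := min_le_left _ _
  have hη2 : η ≤ 1 - θ := (min_le_right _ _).trans (min_le_left _ _)
  have hη3 : η ≤ 3 / 4 := (min_le_right _ _).trans (min_le_right _ _)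
  refine ⟨min ε₁ (1 / 4), η, lt_min hε₁ (by norm_num), hη0, ?_⟩
  intro ε hε
  obtain ⟨N₀, C0, hC0, hrc⟩ := hRC ε hε
  set K1 : ℝ := (3 * Real.pi * Real.exp Real.pi) * (4 * C0 ^ 2) * 20 with hK1
  have hK10 : 0 < K1 := by have := Real.pi_pos; positivity
  refine ⟨C₁ + 4 * C0 + K1 + N₀ * N₀ * (5 * N₀ + 4), by positivity, ?_⟩
  intro e he0 he1 N q D0 X l hN hq hl1 hlo hls hql hqN hlL hlN hXN hD0 hXD b a a' hb ha ha' haa
    c c' hc hc' hr hr' hf'
  have hN1 : 1 ≤ N := by omega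
  have hNpos : (0 : ℝ) < N := by exact_mod_cast (by omega : 0 < N)
  have hN1r : (1 : ℝ) ≤ N := by exact_mod_cast hN1
  have hmono : ∀ {u v : ℝ}, u ≤ v → (N : ℝ) ^ u ≤ (N : ℝ) ^ v := fun h =>
    Real.rpow_le_rpow_of_exponent_le hN1r h
  have hPpos : 0 < (N : ℝ) ^ (1 - η) := Real.rpow_pos_of_pos hNpos _
  have hXP : (X : ℝ) ≤ (N : ℝ) ^ (1 - η) := hXN.trans (hmono (by linarith))
  have hbq : |(b : ℝ)| ≤ (N : ℝ) ^ (1 / 4 : ℝ) :=
    hb.trans (hqN.trans (hmono (he1.trans (min_le_right _ _))))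
  have hbP : |(b : ℝ)| ≤ (N : ℝ) ^ (1 - η) := hbq.trans (hmono (by linarith))
  have hbN : |(b : ℝ)| ≤ N := by
    refine hbq.trans ?_
    calc (N : ℝ) ^ (1 / 4 : ℝ) ≤ (N : ℝ) ^ (1 : ℝ) := hmono (by norm_num)
      _ = N := Real.rpow_one _
  by_cases hsmall : N < N₀
  · -- small N
    have hNN : (N : ℝ) ≤ N₀ := by exact_mod_cast hsmall.le
    have h1 : ∀ d d' : ℕ, 1 ≤ d → 1 ≤ d' → |SEb N b a a' q d d' - N / (q * d * d')| ≤
        5 * (N : ℝ) + 4 := by
      intro d d' hd hd'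
      have h2 : 0 ≤ SEb N b a a' q d d' := by
        unfold SEb
        refine tsum_nonneg fun n => ?_
        split_ifs
        · exact (BX.TaskNC.Wt_pos N n).le
        · exact le_refl _
      have h3 : SEb N b a a' q d d' ≤ 4 * ((N : ℝ) + 1) := by
        have g1 := (hGS N hN1).2 1 0 le_rfl
        simp only [Nat.cast_one, div_one] at g1
        refine le_trans ?_ g1
        unfold SEb
        refine Summable.tsum_le_tsum (fun n => ?_) (summable_ite N hN1 _) (summable_ite N hN1 _)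
        rw [if_pos (one_dvd (n - 0))]
        split_ifs
        · exact le_refl _
        · exact (BX.TaskNC.Wt_pos N n).le
      have h4 : 0 ≤ (N : ℝ) / (q * d * d') := by positivity
      have h5 : (N : ℝ) / (q * d * d') ≤ N := by
        apply div_le_self hNpos.le
        have e1 : (1 : ℝ) ≤ q := by exact_mod_cast hq
        have e2 : (1 : ℝ) ≤ d := by exact_mod_cast hd
        have e3 : (1 : ℝ) ≤ d' := by exact_mod_cast hd'
        exact one_le_mul_of_one_le_of_one_le (one_le_mul_of_one_le_of_one_le e1 e2) e3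
      rw [abs_le]; constructor <;> linarith
    have hXN' : (X : ℝ) ≤ N₀ := by
      refine hXN.trans ?_
      calc (N : ℝ) ^ θ ≤ (N : ℝ) ^ (1 : ℝ) := hmono (by linarith)
        _ = N := Real.rpow_one _
        _ ≤ N₀ := hNN
    have hcard : ((Ioc D0 X).card : ℝ) ≤ X := by
      rw [Nat.card_Ioc]
      exact_mod_cast Nat.sub_le _ _
    have h2 : |∑ d ∈ Ioc D0 X, ∑ d' ∈ (Ioc D0 X).filter (fun d' => Nat.Coprime d d'), c d * c' d' *
        (SEb N b a a' q d d' - N / (q * d * d'))| ≤ N₀ * N₀ * (5 * N₀ + 4) := by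
      calc _ ≤ ∑ d ∈ Ioc D0 X, ∑ d' ∈ Ioc D0 X, (5 * (N : ℝ) + 4) := by
            refine (abs_sum_le_sum_abs _ _).trans (sum_le_sum fun d hd => ?_)
            refine (abs_sum_le_sum_abs _ _).trans ?_
            refine le_trans (sum_le_sum (g := fun _ => 5 * (N : ℝ) + 4) fun d' hd' => ?_)
              (sum_le_sum_of_subset_of_nonneg (filter_subset _ _) fun _ _ _ => by positivity)
            have hd1 : 1 ≤ d := by have := (mem_Ioc.1 hd).1; omega
            have hd1' : 1 ≤ d' := by have := (mem_Ioc.1 (mem_filter.1 hd').1).1; omega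
            rw [abs_mul, abs_mul]
            calc |c d| * |c' d'| * |SEb N b a a' q d d' - N / (q * d * d')|
                ≤ 1 * 1 * (5 * (N : ℝ) + 4) :=
                  mul_le_mul (mul_le_mul (hc.bd d) (hc'.bd d') (abs_nonneg _) zero_le_one)
                    (h1 d d' hd1 hd1') (abs_nonneg _) (by norm_num)
              _ = 5 * (N : ℝ) + 4 := by ring
        _ = ((Ioc D0 X).card : ℝ) * (((Ioc D0 X).card : ℝ) * (5 * (N : ℝ) + 4)) := by
            rw [sum_const, sum_const, nsmul_eq_mul, nsmul_eq_mul]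
        _ ≤ (N₀ : ℝ) * ((N₀ : ℝ) * (5 * (N₀ : ℝ) + 4)) := by
            have h3 := hcard.trans hXN'
            refine mul_le_mul h3 (mul_le_mul h3 (by linarith) (by positivity) (Nat.cast_nonneg _))
              (by positivity) (Nat.cast_nonneg _)
        _ = _ := by ring
    refine h2.trans ?_
    have h3 : (1 : ℝ) ≤ (N : ℝ) ^ (1 - η) := Real.one_le_rpow hN1r (by linarith)
    have h4 : (N₀ : ℝ) * N₀ * (5 * N₀ + 4) ≤ C₁ + 4 * C0 + K1 + N₀ * N₀ * (5 * N₀ + 4) := by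
      linarith
    have h5 : 0 ≤ C₁ + 4 * C0 + K1 + (N₀ : ℝ) * N₀ * (5 * N₀ + 4) := by positivity
    calc (N₀ : ℝ) * N₀ * (5 * N₀ + 4) ≤ (C₁ + 4 * C0 + K1 + N₀ * N₀ * (5 * N₀ + 4)) * 1 := by
          rw [mul_one]; exact h4
      _ ≤ _ := mul_le_mul_of_nonneg_left h3 h5
  push Not at hsmall
  have hhalf : (N : ℝ) ^ (1 / 4 : ℝ) ≤ (N : ℝ) ^ (1 / 2 : ℝ) := hmono (by norm_num)
  have hA : |((a - b : ℤ) : ℝ)| ≤ N := by
    push_cast
    have := abs_sub (a : ℝ) (b : ℝ)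
    linarith
  have hA' : |((a' - b : ℤ) : ℝ)| ≤ N := by
    push_cast
    have := abs_sub (a' : ℝ) (b : ℝ)
    linarith
  have hAA : a - b ≠ a' - b := fun h => haa (by linarith)
  have h1 := hcou e he0 (he1.trans (min_le_left _ _)) N q D0 X l hN hq hl1 hlo hls hql hqN hlL
    hlN hXN hD0 hXD (a - b) (a' - b) hA hA' hAA c c' hc hc' hf'
  have h2 := diff_bound (D0 := D0) (q := q) hN1 hr hr' b a a' hbN haa hA hA' hC0
    (fun a n h h' => hrc N X hsmall a n h h') hGS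
  rw [← hK1] at h2
  have e1 : ∑ d ∈ Ioc D0 X, ∑ d' ∈ (Ioc D0 X).filter (fun d' => Nat.Coprime d d'), c d * c' d' *
      (SEb N b a a' q d d' - N / (q * d * d')) =
      ∑ d ∈ Ioc D0 X, ∑ d' ∈ (Ioc D0 X).filter (fun d' => Nat.Coprime d d'), c d * c' d' *
        (SEb N b a a' q d d' - BX.SE N (a - b) (a' - b) q d d') +
      ∑ d ∈ Ioc D0 X, ∑ d' ∈ (Ioc D0 X).filter (fun d' => Nat.Coprime d d'), c d * c' d' *
        (BX.SE N (a - b) (a' - b) q d d' - N / (q * d * d')) := by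
    rw [← sum_add_distrib]
    refine sum_congr rfl fun d _ => ?_
    rw [← sum_add_distrib]
    refine sum_congr rfl fun d' _ => ?_
    ring
  rw [e1]
  refine (abs_add_le _ _).trans ?_
  have h3 : (N : ℝ) ^ (1 - η₁) ≤ (N : ℝ) ^ (1 - η) := hmono (by linarith)
  have h4 : 4 * C0 * X ≤ 4 * C0 * (N : ℝ) ^ (1 - η) :=
    mul_le_mul_of_nonneg_left hXP (by positivity)
  have h5 : K1 * |(b : ℝ)| ≤ K1 * (N : ℝ) ^ (1 - η) := mul_le_mul_of_nonneg_left hbP hK10.le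
  have h6 : C₁ * (N : ℝ) ^ (1 - η₁) ≤ C₁ * (N : ℝ) ^ (1 - η) :=
    mul_le_mul_of_nonneg_left h3 hC₁.le
  have h7 : 0 ≤ (N₀ : ℝ) * N₀ * (5 * N₀ + 4) * (N : ℝ) ^ (1 - η) := by positivity
  have e2 : (C₁ + 4 * C0 + K1 + N₀ * N₀ * (5 * N₀ + 4)) * (N : ℝ) ^ (1 - η) =
      C₁ * (N : ℝ) ^ (1 - η) + 4 * C0 * (N : ℝ) ^ (1 - η) + K1 * (N : ℝ) ^ (1 - η) +
        (N₀ : ℝ) * N₀ * (5 * N₀ + 4) * (N : ℝ) ^ (1 - η) := by ring
  rw [e2]
  linarith

open Pool.Agent.W347.PL in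
theorem TTCFl (hCOS : St_COSFl) : St_TTCFl := by
  intro θ δ hθ12 hθ hδ
  have hθ0 : 0 < θ := by linarith
  obtain ⟨ε₁, η₁, hε₁, hη₁, hcos⟩ := hCOS θ δ hθ12 hθ hδ
  set ε₀ : ℝ := min ε₁ (min (1 / 10) ((1 - θ) / 4)) with hε₀def
  set η : ℝ := min η₁ 1 with hηdef
  have hε₀ : 0 < ε₀ := by
    apply lt_min hε₁
    apply lt_min
    · norm_num
    · linarith
  have hε₀1 : ε₀ ≤ ε₁ := min_le_left _ _
  have hε₀2 : ε₀ ≤ (1 - θ) / 4 := (min_le_right _ _).trans (min_le_right _ _)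
  have hη : 0 < η := lt_min hη₁ one_pos
  have hη1 : η ≤ η₁ := min_le_left _ _
  have hη2 : η ≤ 1 := min_le_right _ _
  refine ⟨ε₀, η, hε₀, hη, fun ε hε => ?_⟩
  obtain ⟨C₁, hC₁, hcos1⟩ := hcos ε hε
  obtain ⟨N₁, hN₁⟩ := pois0
  -- logarithm against a power
  set κ : ℝ := 1 - θ - ε₀ with hκ
  have hκ0 : 0 < κ := by rw [hκ]; linarith
  obtain ⟨N₂, hN₂⟩ : ∃ N₂ : ℕ, ∀ N : ℕ, N₂ ≤ N → Real.log N ≤ (N : ℝ) ^ κ := by
    have h1 := (isLittleO_log_rpow_atTop hκ0).bound (one_pos)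
    have h2 := (tendsto_natCast_atTop_atTop (R := ℝ)).eventually h1
    have h3 := h2.and (Filter.eventually_ge_atTop 1)
    obtain ⟨N₂, hN₂⟩ := Filter.eventually_atTop.mp h3
    refine ⟨N₂, fun N hN => ?_⟩
    obtain ⟨h4, h5⟩ := hN₂ N hN
    rw [one_mul, Real.norm_eq_abs, Real.norm_eq_abs, abs_of_nonneg (Real.log_natCast_nonneg N),
      abs_of_nonneg (by positivity)] at h4
    exact h4
  set N₀ : ℕ := max N₁ N₂ with hN₀
  set Cs : ℝ := ∑ N ∈ range N₀, 4 * (N : ℝ) ^ 2 * ∑' n : ℤ, Wt N n with hCs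
  have hWn : ∀ N : ℕ, 0 ≤ ∑' n : ℤ, Wt N n := fun N => tsum_nonneg fun n => (BX.TaskNC.Wt_pos N n).le
  have hCs0 : 0 ≤ Cs := Finset.sum_nonneg fun N _ => mul_nonneg (by positivity) (hWn N)
  refine ⟨C₁ + 3 + Cs, by linarith, ?_⟩
  intro e he0 he1 N q D0 X l hN hq hl1 hlo hls hql hqNe hlL hlN hXN hD0 hXD b a a' hb ha ha' haa
    c c' hcl hcl' hr hr' hf'
  have hc : BX.CofO q c := cofO_of hcl
  have hc' : BX.CofO q c' := cofO_of hcl'
  have hN1 : (1 : ℝ) ≤ N := by exact_mod_cast (by omega : 1 ≤ N)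
  have hN0 : (0 : ℝ) < N := by linarith
  have hqN : (q : ℝ) ≤ (N : ℝ) ^ ε₀ := hqNe.trans (Real.rpow_le_rpow_of_exponent_le hN1 he1)
  have hXleN : (X : ℝ) ≤ N := by
    refine hXN.trans ?_
    calc (N : ℝ) ^ θ ≤ (N : ℝ) ^ (1 : ℝ) := Real.rpow_le_rpow_of_exponent_le hN1 (by linarith)
      _ = N := Real.rpow_one _
  have hpow1 : (1 : ℝ) ≤ (N : ℝ) ^ (1 - η) := Real.one_le_rpow hN1 (by linarith)
  have hcardI : ((Ioc D0 X).card : ℝ) ≤ N := by
    rw [Nat.card_Ioc]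
    refine le_trans ?_ hXleN
    exact_mod_cast Nat.sub_le X D0
  have hcardF : ∀ d : ℕ, (((Ioc D0 X).filter (fun d' => Nat.Coprime d d')).card : ℝ) ≤ N := by
    intro d
    refine le_trans ?_ hcardI
    exact_mod_cast Finset.card_filter_le _ _
  have hdouble : ∀ (G : ℕ → ℕ → ℝ) (B : ℝ), 0 ≤ B →
      (∀ d ∈ Ioc D0 X, ∀ d' ∈ (Ioc D0 X).filter (fun d' => Nat.Coprime d d'), |G d d'| ≤ B) →
      |∑ d ∈ Ioc D0 X, ∑ d' ∈ (Ioc D0 X).filter (fun d' => Nat.Coprime d d'), G d d'| ≤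
        (N : ℝ) ^ 2 * B := by
    intro G B hB hG
    calc |∑ d ∈ Ioc D0 X, ∑ d' ∈ (Ioc D0 X).filter (fun d' => Nat.Coprime d d'), G d d'|
        ≤ ∑ d ∈ Ioc D0 X, |∑ d' ∈ (Ioc D0 X).filter (fun d' => Nat.Coprime d d'), G d d'| :=
          Finset.abs_sum_le_sum_abs _ _
      _ ≤ ∑ d ∈ Ioc D0 X, (N : ℝ) * B := by
          refine Finset.sum_le_sum fun d hd => ?_
          refine (Finset.abs_sum_le_sum_abs _ _).trans ?_
          refine (Finset.sum_le_sum fun d' hd' => hG d hd d' hd').trans ?_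
          rw [Finset.sum_const, nsmul_eq_mul]
          exact mul_le_mul_of_nonneg_right (hcardF d) hB
      _ ≤ (N : ℝ) ^ 2 * B := by
          rw [Finset.sum_const, nsmul_eq_mul]
          have h0 : 0 ≤ (N : ℝ) * B := by positivity
          calc ((Ioc D0 X).card : ℝ) * ((N : ℝ) * B) ≤ N * ((N : ℝ) * B) :=
                mul_le_mul_of_nonneg_right hcardI h0
            _ = (N : ℝ) ^ 2 * B := by ring
  have hcc : ∀ d d' : ℕ, |c d * c' d'| ≤ 1 := by
    intro d d'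
    rw [abs_mul]
    calc |c d| * |c' d'| ≤ 1 * 1 :=
          mul_le_mul (hc.bd d) (hc'.bd d') (abs_nonneg _) zero_le_one
      _ = 1 := one_mul 1
  rcases lt_or_ge N N₀ with hlt | hge
  · -- small N
    have h1 := hdouble (fun d d' => c d * c' d' *
      ∑' n : ℤ, (if (q : ℤ) ∣ n - b then Wt N n else 0) *
        (BX.dl d (n - a) * BX.dl d' (n - a'))) (4 * ∑' n : ℤ, Wt N n)
        (mul_nonneg (by norm_num) (hWn N)) (by
        intro d _ d' _
        rw [abs_mul]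
        calc |c d * c' d'| * _ ≤ 1 * (4 * ∑' n : ℤ, Wt N n) :=
              mul_le_mul (hcc d d') (inner_bound N (by omega) b a a' q d d') (abs_nonneg _)
                zero_le_one
          _ = 4 * ∑' n : ℤ, Wt N n := one_mul _)
    refine h1.trans ?_
    have h2 : (N : ℝ) ^ 2 * (4 * ∑' n : ℤ, Wt N n) ≤ Cs := by
      have h3 := Finset.single_le_sum (f := fun N : ℕ => 4 * (N : ℝ) ^ 2 * ∑' n : ℤ, Wt N n)
        (fun M _ => mul_nonneg (by positivity) (hWn M)) (Finset.mem_range.mpr hlt)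
      calc (N : ℝ) ^ 2 * (4 * ∑' n : ℤ, Wt N n) = 4 * (N : ℝ) ^ 2 * ∑' n : ℤ, Wt N n := by ring
        _ ≤ Cs := h3
    calc (N : ℝ) ^ 2 * (4 * ∑' n : ℤ, Wt N n) ≤ Cs := h2
      _ ≤ (C₁ + 3 + Cs) * 1 := by linarith
      _ ≤ (C₁ + 3 + Cs) * (N : ℝ) ^ (1 - η) :=
          mul_le_mul_of_nonneg_left hpow1 (by linarith)
  · -- large N
    have hge1 : N₁ ≤ N := (le_max_left _ _).trans hge
    have hge2 : N₂ ≤ N := (le_max_right _ _).trans hge
    have hlogN := hN₂ N hge2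
    have hlog0 : 0 ≤ Real.log N := Real.log_natCast_nonneg N
    have hmain := hcos1 e he0 (he1.trans hε₀1) N q D0 X l hN hq hl1 hlo hls hql hqNe hlL hlN hXN
      hD0 hXD b a a' hb ha ha' haa c c' hcl hcl' hr hr' hf'
    -- moduli are small
    have hmod : ∀ m : ℕ, (m : ℝ) ≤ (N : ℝ) ^ (θ + ε₀) →
        (m : ℝ) ≤ (N : ℝ) ^ 3 ∧ (m : ℝ) * Real.log N ≤ N := by
      intro m hm
      constructor
      · refine hm.trans ?_
        rw [← Real.rpow_natCast (N : ℝ) 3]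
        apply Real.rpow_le_rpow_of_exponent_le hN1
        push_cast
        linarith
      · calc (m : ℝ) * Real.log N ≤ (N : ℝ) ^ (θ + ε₀) * (N : ℝ) ^ κ :=
              mul_le_mul hm hlogN hlog0 (by positivity)
          _ = (N : ℝ) ^ (θ + ε₀ + κ) := (Real.rpow_add hN0 _ _).symm
          _ = N := by
              rw [hκ, show θ + ε₀ + (1 - θ - ε₀) = 1 by ring, Real.rpow_one]
    have hqd : ∀ d : ℕ, d ≤ X → (q : ℝ) * d ≤ (N : ℝ) ^ (θ + ε₀) := by
      intro d hd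
      have hd' : (d : ℝ) ≤ (N : ℝ) ^ θ := le_trans (by exact_mod_cast hd) hXN
      calc (q : ℝ) * d ≤ (N : ℝ) ^ ε₀ * (N : ℝ) ^ θ :=
            mul_le_mul hqN hd' (Nat.cast_nonneg _) (by positivity)
        _ = (N : ℝ) ^ (θ + ε₀) := by rw [← Real.rpow_add hN0, add_comm]
    have hN5 : (0 : ℝ) < (N : ℝ) ^ 5 := by positivity
    -- one or no congruence modulo d, d'
    have hS : ∀ d d' : ℕ, 1 ≤ d → 1 ≤ d' → Nat.Coprime q d → Nat.Coprime q d' →
        Nat.Coprime d d' → (q : ℝ) * d * d' ≤ (N : ℝ) ^ (θ + ε₀) →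
        |SEb N b a a' q d d' - N / (q * d * d')| ≤ 1 / (N : ℝ) ^ 5 := by
      intro d d' hd hd' h1 h2 h3 hle
      obtain ⟨cc, hcc'⟩ := SEb_eq N b a a' q d d' h1 h2 h3
      have hm1 : 1 ≤ q * d * d' := Nat.succ_le_of_lt (by positivity)
      obtain ⟨m1, m2⟩ := hmod (q * d * d') (by push_cast; exact hle)
      have h4 := hN₁ N hge1 (q * d * d') hm1 m1 m2 cc
      rw [← hcc'] at h4
      push_cast at h4
      exact h4
    -- error of one pair
    have herr : ∀ d ∈ Ioc D0 X, ∀ d' ∈ (Ioc D0 X).filter (fun d' => Nat.Coprime d d'),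
        |c d * c' d' * (∑' n : ℤ, (if (q : ℤ) ∣ n - b then Wt N n else 0) *
          (BX.dl d (n - a) * BX.dl d' (n - a'))) -
          c d * c' d' * (SEb N b a a' q d d' - N / (q * d * d'))| ≤ 3 / (N : ℝ) ^ 5 := by
      intro d hd d' hd'
      rw [Finset.mem_filter] at hd'
      have hdX : d ≤ X := (Finset.mem_Ioc.mp hd).2
      have hdX' : d' ≤ X := (Finset.mem_Ioc.mp hd'.1).2
      have hd1 : 1 ≤ d := by
        have := (Finset.mem_Ioc.mp hd).1
        omega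
      have hd1' : 1 ≤ d' := by
        have := (Finset.mem_Ioc.mp hd'.1).1
        omega
      by_cases hz : c d * c' d' = 0
      · rw [hz, zero_mul, zero_mul, sub_zero, abs_zero]
        positivity
      · have hcd : c d ≠ 0 := left_ne_zero_of_mul hz
        have hcd' : c' d' ≠ 0 := right_ne_zero_of_mul hz
        have k1 : Nat.Coprime q d :=
          (Nat.Coprime.coprime_dvd_right (Dvd.intro_left 2 rfl) (hc.cop d hcd)).symm
        have k2 : Nat.Coprime q d' :=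
          (Nat.Coprime.coprime_dvd_right (Dvd.intro_left 2 rfl) (hc'.cop d' hcd')).symm
        rw [← mul_sub, abs_mul]
        have hE : |(∑' n : ℤ, (if (q : ℤ) ∣ n - b then Wt N n else 0) *
          (BX.dl d (n - a) * BX.dl d' (n - a'))) -
          (SEb N b a a' q d d' - N / (q * d * d'))| ≤ 3 / (N : ℝ) ^ 5 := by
          rw [open_prod N (by omega)]
          have s1 := hS d 1 hd1 le_rfl k1 (Nat.coprime_one_right q) (Nat.coprime_one_right d)
            (by rw [Nat.cast_one, mul_one]; exact hqd d hdX)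
          have s2 := hS 1 d' le_rfl hd1' (Nat.coprime_one_right q) k2 (Nat.coprime_one_left d')
            (by rw [Nat.cast_one, mul_one]; exact hqd d' hdX')
          have s3 := hS 1 1 le_rfl le_rfl (Nat.coprime_one_right q) (Nat.coprime_one_right q)
            (Nat.coprime_one_right 1) (by
              rw [Nat.cast_one, mul_one, mul_one]
              have := hqd d hdX
              have hd1r : (1 : ℝ) ≤ d := by exact_mod_cast hd1
              have hq0 : (0 : ℝ) ≤ q := Nat.cast_nonneg _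
              exact (le_mul_of_one_le_right hq0 hd1r).trans this)
          rw [Nat.cast_one, mul_one] at s1 s2
          rw [Nat.cast_one, mul_one, mul_one] at s3
          have hdr : (1 : ℝ) ≤ d := by exact_mod_cast hd1
          have hdr' : (1 : ℝ) ≤ d' := by exact_mod_cast hd1'
          have hqr : (0 : ℝ) < q := by exact_mod_cast hq
          have hd0 : (0 : ℝ) < d := by linarith
          have hd0' : (0 : ℝ) < d' := by linarith
          have e1 : SEb N b a a' q d d' - SEb N b a a' q d 1 / d' - SEb N b a a' q 1 d' / d +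
              SEb N b a a' q 1 1 / (d * d') - (SEb N b a a' q d d' - N / (q * d * d')) =
              -((SEb N b a a' q d 1 - N / (q * d)) / d') -
              (SEb N b a a' q 1 d' - N / (q * d')) / d +
              (SEb N b a a' q 1 1 - N / q) / (d * d') := by
            field_simp
            ring
          rw [e1]
          have f1 : |(SEb N b a a' q d 1 - N / (q * d)) / d'| ≤ 1 / (N : ℝ) ^ 5 := by
            rw [abs_div, abs_of_pos hd0', div_le_iff₀ hd0']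
            exact s1.trans (le_mul_of_one_le_right (by positivity) hdr')
          have f2 : |(SEb N b a a' q 1 d' - N / (q * d')) / d| ≤ 1 / (N : ℝ) ^ 5 := by
            rw [abs_div, abs_of_pos hd0, div_le_iff₀ hd0]
            exact s2.trans (le_mul_of_one_le_right (by positivity) hdr)
          have f3 : |(SEb N b a a' q 1 1 - N / q) / (d * d')| ≤ 1 / (N : ℝ) ^ 5 := by
            rw [abs_div, abs_of_pos (by positivity : (0 : ℝ) < d * d'),
              div_le_iff₀ (by positivity)]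
            exact s3.trans (le_mul_of_one_le_right (by positivity)
              (one_le_mul_of_one_le_of_one_le hdr hdr'))
          calc |-((SEb N b a a' q d 1 - N / (q * d)) / d') -
              (SEb N b a a' q 1 d' - N / (q * d')) / d +
              (SEb N b a a' q 1 1 - N / q) / (d * d')|
              ≤ |-((SEb N b a a' q d 1 - N / (q * d)) / d')| +
                |(SEb N b a a' q 1 d' - N / (q * d')) / d| +
                |(SEb N b a a' q 1 1 - N / q) / (d * d')| := by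
                refine (abs_add_le _ _).trans (add_le_add ?_ le_rfl)
                exact abs_sub _ _
            _ ≤ 1 / (N : ℝ) ^ 5 + 1 / (N : ℝ) ^ 5 + 1 / (N : ℝ) ^ 5 := by
                rw [abs_neg]
                exact add_le_add (add_le_add f1 f2) f3
            _ = 3 / (N : ℝ) ^ 5 := by ring
        calc |c d * c' d'| * _ ≤ 1 * (3 / (N : ℝ) ^ 5) :=
              mul_le_mul (hcc d d') hE (abs_nonneg _) zero_le_one
          _ = 3 / (N : ℝ) ^ 5 := one_mul _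
    have hdiff := hdouble (fun d d' => c d * c' d' *
        (∑' n : ℤ, (if (q : ℤ) ∣ n - b then Wt N n else 0) *
          (BX.dl d (n - a) * BX.dl d' (n - a'))) -
          c d * c' d' * (SEb N b a a' q d d' - N / (q * d * d'))) (3 / (N : ℝ) ^ 5)
        (by positivity) herr
    have hsplit : ∑ d ∈ Ioc D0 X, ∑ d' ∈ (Ioc D0 X).filter (fun d' => Nat.Coprime d d'),
        (c d * c' d' * (∑' n : ℤ, (if (q : ℤ) ∣ n - b then Wt N n else 0) *
          (BX.dl d (n - a) * BX.dl d' (n - a'))) -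
          c d * c' d' * (SEb N b a a' q d d' - N / (q * d * d'))) =
        (∑ d ∈ Ioc D0 X, ∑ d' ∈ (Ioc D0 X).filter (fun d' => Nat.Coprime d d'), c d * c' d' *
          ∑' n : ℤ, (if (q : ℤ) ∣ n - b then Wt N n else 0) *
          (BX.dl d (n - a) * BX.dl d' (n - a'))) -
        ∑ d ∈ Ioc D0 X, ∑ d' ∈ (Ioc D0 X).filter (fun d' => Nat.Coprime d d'), c d * c' d' *
          (SEb N b a a' q d d' - N / (q * d * d')) := by
      rw [← Finset.sum_sub_distrib]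
      refine Finset.sum_congr rfl fun d _ => ?_
      rw [← Finset.sum_sub_distrib]
    rw [hsplit] at hdiff
    have h3 : (N : ℝ) ^ 2 * (3 / (N : ℝ) ^ 5) ≤ 3 := by
      have : (N : ℝ) ^ 2 * (3 / (N : ℝ) ^ 5) = 3 / (N : ℝ) ^ 3 := by
        field_simp
      rw [this]
      exact div_le_self (by norm_num) (one_le_pow₀ hN1)
    have h4 : C₁ * (N : ℝ) ^ (1 - η₁) ≤ C₁ * (N : ℝ) ^ (1 - η) :=
      mul_le_mul_of_nonneg_left (Real.rpow_le_rpow_of_exponent_le hN1 (by linarith)) hC₁.le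
    have h5 := abs_sub_abs_le_abs_sub
      (∑ d ∈ Ioc D0 X, ∑ d' ∈ (Ioc D0 X).filter (fun d' => Nat.Coprime d d'), c d * c' d' *
          ∑' n : ℤ, (if (q : ℤ) ∣ n - b then Wt N n else 0) *
          (BX.dl d (n - a) * BX.dl d' (n - a')))
      (∑ d ∈ Ioc D0 X, ∑ d' ∈ (Ioc D0 X).filter (fun d' => Nat.Coprime d d'), c d * c' d' *
          (SEb N b a a' q d d' - N / (q * d * d')))
    have h6 : (3 : ℝ) + Cs ≤ (3 + Cs) * (N : ℝ) ^ (1 - η) := by
      have : 0 ≤ 3 + Cs := by linarith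
      exact le_mul_of_one_le_right this hpow1
    calc |∑ d ∈ Ioc D0 X, ∑ d' ∈ (Ioc D0 X).filter (fun d' => Nat.Coprime d d'), c d * c' d' *
          ∑' n : ℤ, (if (q : ℤ) ∣ n - b then Wt N n else 0) *
          (BX.dl d (n - a) * BX.dl d' (n - a'))|
        ≤ C₁ * (N : ℝ) ^ (1 - η₁) + 3 := by linarith
      _ ≤ C₁ * (N : ℝ) ^ (1 - η) + (3 + Cs) * (N : ℝ) ^ (1 - η) := by linarith
      _ = (C₁ + 3 + Cs) * (N : ℝ) ^ (1 - η) := by ring


end Pool.Agent.Y827.GS
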