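import Pool.Agent.W24.DC.WU

/-! Project GS (helper827): trilinear forms with Kloosterman fractions, one factorable variable (the
modulus), the short variable without any condition. -/

set_option autoImplicit false

namespace Pool.Agent.Y827.GS

open Finset
open Pool.Agent.H442R2
open Pool.Agent.H442R2.KF
open Pool.Agent.H442R2.BX
open Pool.Agent.H442R2.BX.TaskTU
open Pool.Agent.W24.DC (wt wt_wei conj_kf FF_recip)

theorem cop_scale (v m n : ℕ) (hm : Odd m) :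
    Nat.Coprime (2 ^ 0 * m) (2 ^ v * n) ↔ Nat.Coprime m n := by
  have hm2 : Nat.Coprime m (2 ^ v) := (Nat.Coprime.pow_right v hm.coprime_two_right)
  rw [pow_zero, one_mul]
  constructor
  · intro h
    exact Nat.Coprime.coprime_mul_left_right h
  · intro h
    exact Nat.Coprime.mul_right hm2 h

/-- the first part: the factorable variable is the long one -/
theorem part1a {ε C : ℝ} (hC : ∀ (M S J : ℕ), 1 ≤ M → 1 ≤ S → 1 ≤ J →
    ∀ V : ℝ, 1 ≤ V → ∀ ψ : ℕ → ℝ → ℂ, (∀ j, Wei M V (ψ j)) →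
    ∀ k : ℤ, k ≠ 0 → |(k : ℝ)| * J ≤ V * (M : ℝ) ^ 2 →
    ∀ (γ : ℕ → ℕ → ℂ) (β : ℕ → ℂ), (∀ r s, ‖γ r s‖ ≤ 1) → (∀ n, ‖β n‖ ≤ 1) →
    (∀ r s, γ r s ≠ 0 → Squarefree (r * s) ∧ r * s ∈ Ioc M (2 * M + 1)) →
    ‖∑ s ∈ Ico S (2 * S), ∑ r ∈ Icc 1 (2 * M + 1),
      ∑ n ∈ (Ioc M (2 * M + 1)).filter (fun n => Nat.Coprime (r * s) n),
        γ r s * β n * FF ψ k J n (r * s)‖ ^ 2 ≤
      C * (V * M) ^ ε * V * ((M : ℝ) ^ 4 * J / S +
        (M : ℝ) ^ (7 / 2 : ℝ) * (J : ℝ) ^ 2 * (S : ℝ) ^ (1 / 2 : ℝ)))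
    (i k S J : ℕ) (hki : k ≤ i) (hS : 1 ≤ S) (hJ : 1 ≤ J) (V : ℝ) (hV : 1 ≤ V)
    (ψ : ℕ → ℝ → ℂ) (hψ : ∀ j, BX.WeiP ((2 : ℝ) ^ (i + k)) V (ψ j)) (b : ℤ) (hb : b ≠ 0)
    (hbJ : |(b : ℝ)| * J ≤ V * (2 : ℝ) ^ (i + k)) (γ : ℕ → ℕ → ℂ) (β : ℕ → ℂ)
    (hγ : ∀ r s, ‖γ r s‖ ≤ 1) (hβ : ∀ n, ‖β n‖ ≤ 1)
    (hγo : ∀ r s, γ r s ≠ 0 →
        Squarefree (r * s) ∧ Odd (r * s) ∧ r * s ∈ Ioc (2 ^ i) (2 ^ (i + 1))) :
      ‖∑ s ∈ Ico S (2 * S), ∑ r ∈ Icc 1 (2 ^ (i + 1)),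
        ∑ n ∈ (Ioc (2 ^ k) (2 ^ (k + 1))).filter (fun n => Nat.Coprime (r * s) n),
          γ r s * β n * FF ψ b J n (r * s)‖ ^ 2 ≤
        C * (V * (2 : ℝ) ^ i) ^ ε * V * (((2 : ℝ) ^ i) ^ 4 * J / S +
          ((2 : ℝ) ^ i) ^ (7 / 2 : ℝ) * (J : ℝ) ^ 2 * (S : ℝ) ^ (1 / 2 : ℝ)) := by
  obtain ⟨v, hkv⟩ : ∃ v : ℕ, k + v = i := ⟨i - k, by omega⟩
  set D : ℝ := 2 ^ v with hD
  have hD0 : 0 < D := by positivity
  have hMr : (((2 ^ i : ℕ) : ℝ)) = (2 : ℝ) ^ i := by push_cast; rfl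
  have hM2 : (((2 ^ i : ℕ) : ℝ)) ^ 2 = (2 : ℝ) ^ (i + k) * D := by
    rw [hMr, hD, ← pow_mul, ← pow_add]
    congr 1
    omega
  have hP0 : (0 : ℝ) < (2 : ℝ) ^ (i + k) := by positivity
  have e2i : (2 : ℕ) ^ (i + 1) = 2 * 2 ^ i := by rw [pow_succ, mul_comm]
  have key := hC (2 ^ i) S J Nat.one_le_two_pow hS hJ V hV
    (fun j t => ψ j (t / 2 ^ (0 + v))) ?_ (b * 2 ^ (0 + v)) ?_ ?_ γ (up v k β)
    hγ (up_norm v k β hβ) ?_
  · rw [hMr] at key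
    refine le_trans (le_of_eq ?_) key
    congr 2
    refine Finset.sum_congr rfl fun s hs => ?_
    have hs1 : 1 ≤ s := by
      rw [Finset.mem_Ico] at hs
      omega
    have hsub : Icc 1 (2 ^ (i + 1)) ⊆ Icc 1 (2 * 2 ^ i + 1) := by
      rw [e2i]
      exact Finset.Icc_subset_Icc_right (by omega)
    rw [← Finset.sum_subset hsub]
    · refine Finset.sum_congr rfl fun r _ => ?_
      rw [Finset.sum_filter, Finset.sum_filter]
      have hr2 := reindex v k (fun n' => if Nat.Coprime (r * s) n' then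
        γ r s * up v k β n' *
        FF (fun j t => ψ j (t / 2 ^ (0 + v))) (b * 2 ^ (0 + v)) J n' (r * s) else 0) ?_
      · rw [hkv] at hr2
        rw [hr2]
        refine Finset.sum_congr rfl fun n hn => ?_
        rw [up_mul v k β n hn]
        by_cases hg0 : γ r s = 0
        · simp [hg0]
        by_cases hn0 : β n = 0
        · simp [hn0]
        obtain ⟨_, hmo, _⟩ := hγo r s hg0
        have hnpos : 0 < n := lt_of_le_of_lt (Nat.zero_le _) (Finset.mem_Ioc.1 hn).1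
        by_cases hc : Nat.Coprime (r * s) n
        · have hc' := (cop_scale v (r * s) n hmo).2 hc
          have h3 := FF_scale KS ψ b J 0 v (r * s) n (Or.inl rfl) hnpos hc'
          rw [pow_zero, one_mul] at hc' h3
          rw [if_pos hc, if_pos hc', h3]
        · have hc' : ¬ Nat.Coprime (r * s) (2 ^ v * n) := by
            intro h
            apply hc
            apply (cop_scale v (r * s) n hmo).1
            rw [pow_zero, one_mul]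
            exact h
          rw [if_neg hc, if_neg hc']
      · intro n' hn'
        have : up v k β n' = 0 := by
          unfold up
          rw [if_neg hn']
        simp [this]
    · intro r hr1 hr2
      have hg0 : γ r s = 0 := by
        by_contra hg0
        obtain ⟨_, _, hm⟩ := hγo r s hg0
        rw [Finset.mem_Ioc] at hm
        rw [Finset.mem_Icc] at hr1 hr2
        have h4 : r ≤ r * s := Nat.le_mul_of_pos_right r (by omega)
        exact hr2 ⟨hr1.1, h4.trans hm.2⟩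
      simp [hg0]
  · intro j
    rw [zero_add]
    refine ⟨?_, ?_⟩
    · intro s hs
      apply (hψ j).bd
      rw [hM2] at hs
      rw [le_div_iff₀ hD0]
      exact hs
    · intro s s' hs hs'
      rw [hM2] at hs hs' ⊢
      have h1 := (hψ j).lip (s / D) (s' / D) (by rwa [le_div_iff₀ hD0]) (by rwa [le_div_iff₀ hD0])
      refine h1.trans (le_of_eq ?_)
      rw [← sub_div, abs_div, abs_of_pos hD0]
      field_simp
  · exact mul_ne_zero hb (by positivity)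
  · rw [hM2]
    push_cast
    rw [abs_mul, abs_of_pos (by positivity : (0 : ℝ) < 2 ^ (0 + v)), zero_add]
    calc |(b : ℝ)| * 2 ^ v * J = |(b : ℝ)| * J * D := by rw [hD]; ring
      _ ≤ V * (2 : ℝ) ^ (i + k) * D := mul_le_mul_of_nonneg_right hbJ hD0.le
      _ = V * ((2 : ℝ) ^ (i + k) * D) := by ring
  · intro r s hg
    obtain ⟨h1, _, h3⟩ := hγo r s hg
    refine ⟨h1, ?_⟩
    rw [Finset.mem_Ioc] at h3 ⊢
    rw [e2i] at h3
    omega

/-- (WUa) the factorable variable is the long one and the modulus -/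
def St_WUa : Prop := ∀ ε : ℝ, 0 < ε → ∃ C : ℝ, 0 < C ∧ ∀ (i k S J : ℕ), i ≤ k → 1 ≤ S → 1 ≤ J →
    ∀ V : ℝ, 1 ≤ V → ∀ ψ : ℕ → ℝ → ℂ, (∀ j, BX.WeiP ((2 : ℝ) ^ (i + k)) V (ψ j)) →
    ∀ b : ℤ, b ≠ 0 → |(b : ℝ)| * J ≤ V * (2 : ℝ) ^ (i + k) →
    ∀ (γ : ℕ → ℕ → ℂ) (β : ℕ → ℂ), (∀ r s, ‖γ r s‖ ≤ 1) → (∀ n, ‖β n‖ ≤ 1) →
    (∀ r s, γ r s ≠ 0 →
        Squarefree (r * s) ∧ Odd (r * s) ∧ r * s ∈ Ioc (2 ^ k) (2 ^ (k + 1))) →
      ‖∑ s ∈ Ico S (2 * S), ∑ r ∈ Icc 1 (2 ^ (k + 1)),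
        ∑ m ∈ (Ioc (2 ^ i) (2 ^ (i + 1))).filter (fun m => Nat.Coprime (r * s) m),
          γ r s * β m * FF ψ b J (r * s) m‖ ^ 2 ≤
        C * (V * (2 : ℝ) ^ k) ^ ε * V * (((2 : ℝ) ^ k) ^ 4 * J / S +
          ((2 : ℝ) ^ k) ^ (7 / 2 : ℝ) * (J : ℝ) ^ 2 * (S : ℝ) ^ (1 / 2 : ℝ))

theorem WUa : St_WUa := by
  intro ε hε
  obtain ⟨C, hC0, hC⟩ := FX.WF ε hε
  have h8 : (1 : ℝ) ≤ (8 : ℝ) ^ ε := Real.one_le_rpow (by norm_num) hε.le
  refine ⟨C * 8 ^ ε * 8, by positivity, ?_⟩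
  intro i k S J hik hS hJ V hV ψ hψ b hb hbJ γ β hγ hβ hγo
  have hP : (0 : ℝ) < 2 ^ (i + k) := by positivity
  have h1 := part1a hC k i S J hik hS hJ (8 * V) (by linarith) (wt J b ψ)
    (fun j => by
      rw [add_comm k i]
      exact wt_wei hP hV J b ψ hψ hbJ j) (-b) (neg_ne_zero.mpr hb)
    (by
      push_cast
      rw [abs_neg, add_comm k i]
      refine hbJ.trans ?_
      nlinarith [mul_pos (by linarith : (0:ℝ) < V) hP]) γ β hγ hβ hγo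
  have e1 : ∑ s ∈ Ico S (2 * S), ∑ r ∈ Icc 1 (2 ^ (k + 1)),
      ∑ m ∈ (Ioc (2 ^ i) (2 ^ (i + 1))).filter (fun m => Nat.Coprime (r * s) m),
        γ r s * β m * FF ψ b J (r * s) m =
      ∑ s ∈ Ico S (2 * S), ∑ r ∈ Icc 1 (2 ^ (k + 1)),
      ∑ m ∈ (Ioc (2 ^ i) (2 ^ (i + 1))).filter (fun m => Nat.Coprime (r * s) m),
        γ r s * β m * FF (wt J b ψ) (-b) J m (r * s) := by
    refine Finset.sum_congr rfl fun s hs => Finset.sum_congr rfl fun r hr =>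
      Finset.sum_congr rfl fun m hm => ?_
    rw [Finset.mem_Ico] at hs
    rw [Finset.mem_Icc] at hr
    rw [Finset.mem_filter, Finset.mem_Ioc] at hm
    have hm0 : 0 < m := lt_of_le_of_lt (Nat.zero_le _) hm.1.1
    have hrs : 0 < r * s := Nat.mul_pos (by omega) (by omega)
    rw [FF_recip ψ b J m (r * s) hm0 hrs hm.2.symm]
  rw [e1]
  refine h1.trans (le_of_eq ?_)
  rw [mul_assoc 8 V, Real.mul_rpow (by norm_num) (by positivity)]
  ring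

end Pool.Agent.Y827.GS
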